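import Mathlib

/-!
# A Kővári–Sós–Turán count with conflicts

If any `a` pairwise non-conflicting objects have at most `c` common neighbours and every object
conflicts with at most `R` others, then the `a`-th moment of the degrees is small.
-/

open Finset

namespace Pool.Agent.Lib.MP_9a747a_co_h56

variable {α β : Type*}

/-- conflict free `b`-tuples from `S` -/
noncomputable def tuples (conf : α → α → Prop) (b : ℕ) (S : Finset α) : Finset (Fin b → α) := by
  classical
  exact (Fintype.piFinset (fun _ => S)).filter (fun f => ∀ i j, i < j → ¬ conf (f i) (f j))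

theorem mem_tuples {conf : α → α → Prop} {b : ℕ} {S : Finset α} {f : Fin b → α} :
    f ∈ tuples conf b S ↔ (∀ i, f i ∈ S) ∧ ∀ i j, i < j → ¬ conf (f i) (f j) := by
  classical
  simp [tuples, Fintype.mem_piFinset]

theorem card_tuples_le (conf : α → α → Prop) (b : ℕ) (S : Finset α) :
    (tuples conf b S).card ≤ S.card ^ b := by
  classical
  calc (tuples conf b S).card ≤ (Fintype.piFinset (fun _ : Fin b => S)).card := card_filter_le _ _
    _ = S.card ^ b := by rw [Fintype.card_piFinset_const]

theorem tuples_lower (conf : α → α → Prop) (S : Finset α) (R a : ℕ)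
    (hR : ∀ w' ∈ S, ∀ T : Finset α, T ⊆ S → (∀ w ∈ T, conf w w') → T.card ≤ R) (b : ℕ)
    (hb : b ≤ a) : (S.card - a * R) ^ b ≤ (tuples conf b S).card := by
  classical
  induction b with
  | zero =>
    simp only [pow_zero]
    refine Finset.card_pos.mpr ⟨fun i => i.elim0, ?_⟩
    rw [mem_tuples]
    exact ⟨fun i => i.elim0, fun i => i.elim0⟩
  | succ b ih =>
    have ih := ih (by omega)
    -- the extensions
    let ext : (Fin b → α) → Finset α := fun f => S.filter (fun w => ∀ j, ¬ conf w (f j))
    have hext : ∀ f ∈ tuples conf b S, S.card - a * R ≤ (ext f).card := by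
      intro f hf
      rw [mem_tuples] at hf
      have h1 : S.card = (ext f).card + (S.filter (fun w => ¬ ∀ j, ¬ conf w (f j))).card := by
        rw [Finset.card_filter_add_card_filter_not]
      have h2 : (S.filter (fun w => ¬ ∀ j, ¬ conf w (f j))).card ≤ a * R := by
        calc (S.filter (fun w => ¬ ∀ j, ¬ conf w (f j))).card
            ≤ ((univ : Finset (Fin b)).biUnion (fun j => S.filter (fun w => conf w (f j)))).card := by
              apply card_le_card
              intro w hw
              simp only [mem_filter, not_forall, not_not] at hw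
              obtain ⟨hw1, j, hj⟩ := hw
              simp only [mem_biUnion, mem_univ, true_and, mem_filter]
              exact ⟨j, hw1, hj⟩
          _ ≤ ∑ j : Fin b, (S.filter (fun w => conf w (f j))).card := card_biUnion_le
          _ ≤ ∑ _j : Fin b, R := by
              apply sum_le_sum
              intro j _
              exact hR (f j) (hf.1 j) _ (filter_subset _ _) (fun w hw => (mem_filter.mp hw).2)
          _ = b * R := by simp
          _ ≤ a * R := Nat.mul_le_mul_right _ (by omega)
      omega
    have hcard : ((tuples conf b S).sigma ext).card ≤ (tuples conf (b + 1) S).card := by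
      apply Finset.card_le_card_of_injOn (fun p => Fin.cons (α := fun _ => α) p.2 p.1)
      · intro p hp
        have hp' := Finset.mem_sigma.mp (Finset.mem_coe.mp hp)
        obtain ⟨h1, h2⟩ := hp'
        rw [mem_tuples] at h1
        simp only [ext, mem_filter] at h2
        apply Finset.mem_coe.mpr
        rw [mem_tuples]
        refine ⟨?_, ?_⟩
        · intro i
          refine Fin.cases ?_ (fun i => ?_) i
          · simpa using h2.1
          · simpa using h1.1 i
        · intro i j
          refine Fin.cases ?_ (fun i => ?_) i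
          · refine Fin.cases ?_ (fun j => ?_) j
            · intro h; exact absurd h (lt_irrefl _)
            · intro _
              simpa using h2.2 j
          · refine Fin.cases ?_ (fun j => ?_) j
            · intro h; exact absurd h (by simp)
            · intro h
              simpa using h1.2 i j (by simpa using h)
      · rintro ⟨f, w⟩ _ ⟨f', w'⟩ _ h
        have h' : (Fin.cons (α := fun _ => α) w f : Fin (b + 1) → α) = Fin.cons (α := fun _ => α) w' f' := h
        have h0 := congrFun h' 0
        have hs : f = f' := by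
          funext i
          have := congrFun h' i.succ
          simpa using this
        simp only [Fin.cons_zero] at h0
        subst hs; subst h0; rfl
    calc (S.card - a * R) ^ (b + 1) = (S.card - a * R) ^ b * (S.card - a * R) := pow_succ _ _
      _ ≤ (tuples conf b S).card * (S.card - a * R) := Nat.mul_le_mul_right _ ih
      _ = ∑ _f ∈ tuples conf b S, (S.card - a * R) := by simp
      _ ≤ ∑ f ∈ tuples conf b S, (ext f).card := sum_le_sum hext
      _ = ((tuples conf b S).sigma ext).card := (card_sigma _ _).symm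
      _ ≤ _ := hcard

/-- the moment inequality -/
theorem conflict_count (Ω : Finset α) (Y : Finset β) (rel : α → β → Prop)
    [∀ w y, Decidable (rel w y)] (conf : α → α → Prop) (R c a : ℕ)
    (hR : ∀ w' ∈ Ω, ∀ T : Finset α, T ⊆ Ω → (∀ w ∈ T, conf w w') → T.card ≤ R)
    (hc : ∀ f : Fin a → α, (∀ i, f i ∈ Ω) → (∀ i j, i < j → ¬ conf (f i) (f j)) →
      (Y.filter (fun y => ∀ i, rel (f i) y)).card ≤ c) :
    ∑ y ∈ Y, ((Ω.filter (fun w => rel w y)).card : ℝ) ^ a ≤
      2 ^ a * c * (Ω.card : ℝ) ^ a + (2 * a * R : ℝ) ^ a * Y.card := by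
  classical
  -- for every y
  have hy : ∀ y ∈ Y, ((Ω.filter (fun w => rel w y)).card : ℝ) ^ a ≤
      2 ^ a * ((tuples conf a (Ω.filter (fun w => rel w y))).card : ℝ) + (2 * a * R : ℝ) ^ a := by
    intro y _
    set S := Ω.filter (fun w => rel w y) with hS
    by_cases hp : 2 * (a * R) ≤ S.card
    · have h1 : (S.card - a * R) ^ a ≤ (tuples conf a S).card := by
        refine tuples_lower conf S R a ?_ a le_rfl
        intro w' hw' T hT hTc
        exact hR w' (mem_filter.mp hw').1 T (hT.trans (filter_subset _ _)) hTc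
      have h2 : ((S.card : ℝ) / 2) ^ a ≤ ((tuples conf a S).card : ℝ) := by
        have h3 : (((S.card - a * R : ℕ) : ℝ)) ^ a ≤ ((tuples conf a S).card : ℝ) := by
          exact_mod_cast h1
        refine le_trans (pow_le_pow_left₀ (by positivity) ?_ a) h3
        rw [Nat.cast_sub (by omega)]
        have : (2 * (a * R) : ℝ) ≤ S.card := by exact_mod_cast hp
        push_cast
        linarith
      have h4 : (S.card : ℝ) ^ a = 2 ^ a * ((S.card : ℝ) / 2) ^ a := by
        rw [← mul_pow]; congr 1; ring
      rw [h4]
      have h5 : (0 : ℝ) ≤ (2 * a * R : ℝ) ^ a := by positivity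
      nlinarith [mul_le_mul_of_nonneg_left h2 (show (0 : ℝ) ≤ 2 ^ a by positivity)]
    · push Not at hp
      have h1 : (S.card : ℝ) ^ a ≤ (2 * a * R : ℝ) ^ a := by
        apply pow_le_pow_left₀ (by positivity)
        have : (S.card : ℝ) ≤ ((2 * (a * R) : ℕ) : ℝ) := by exact_mod_cast hp.le
        refine this.trans (le_of_eq ?_)
        push_cast; ring
      have h2 : (0 : ℝ) ≤ 2 ^ a * ((tuples conf a S).card : ℝ) := by positivity
      linarith
  -- double counting
  have hdc : ∑ y ∈ Y, ((tuples conf a (Ω.filter (fun w => rel w y))).card : ℝ) ≤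
      c * (Ω.card : ℝ) ^ a := by
    have h1 : ∑ y ∈ Y, (tuples conf a (Ω.filter (fun w => rel w y))).card =
        ∑ f ∈ tuples conf a Ω, (Y.filter (fun y => ∀ i, rel (f i) y)).card := by
      have e1 : ∀ y ∈ Y, tuples conf a (Ω.filter (fun w => rel w y)) =
          (tuples conf a Ω).filter (fun f => ∀ i, rel (f i) y) := by
        intro y _
        ext f
        simp only [mem_filter, mem_tuples]
        constructor
        · rintro ⟨h1, h2⟩
          exact ⟨⟨fun i => (h1 i).1, h2⟩, fun i => (h1 i).2⟩
        · rintro ⟨⟨h1, h2⟩, h3⟩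
          exact ⟨fun i => ⟨h1 i, h3 i⟩, h2⟩
      rw [sum_congr rfl (fun y hy => by rw [e1 y hy])]
      simp only [card_filter]
      rw [sum_comm]
    have h2 : ∑ f ∈ tuples conf a Ω, (Y.filter (fun y => ∀ i, rel (f i) y)).card ≤
        c * Ω.card ^ a := by
      calc ∑ f ∈ tuples conf a Ω, (Y.filter (fun y => ∀ i, rel (f i) y)).card
          ≤ ∑ _f ∈ tuples conf a Ω, c := by
            apply sum_le_sum
            intro f hf
            rw [mem_tuples] at hf
            exact hc f hf.1 hf.2
        _ = (tuples conf a Ω).card * c := by simp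
        _ ≤ Ω.card ^ a * c := Nat.mul_le_mul_right _ (card_tuples_le _ _ _)
        _ = c * Ω.card ^ a := by ring
    have h3 : ∑ y ∈ Y, (tuples conf a (Ω.filter (fun w => rel w y))).card ≤ c * Ω.card ^ a := by
      rw [h1]; exact h2
    exact_mod_cast h3
  calc ∑ y ∈ Y, ((Ω.filter (fun w => rel w y)).card : ℝ) ^ a
      ≤ ∑ y ∈ Y, (2 ^ a * ((tuples conf a (Ω.filter (fun w => rel w y))).card : ℝ) +
          (2 * a * R : ℝ) ^ a) := sum_le_sum hy
    _ = 2 ^ a * ∑ y ∈ Y, ((tuples conf a (Ω.filter (fun w => rel w y))).card : ℝ) +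
          (2 * a * R : ℝ) ^ a * Y.card := by
        rw [sum_add_distrib, ← mul_sum, sum_const, nsmul_eq_mul]; ring
    _ ≤ 2 ^ a * (c * (Ω.card : ℝ) ^ a) + (2 * a * R : ℝ) ^ a * Y.card := by
        gcongr
    _ = _ := by ring

/-- the resulting bound for the number of incidences -/
theorem conflict_sum (Ω : Finset α) (Y : Finset β) (rel : α → β → Prop)
    [∀ w y, Decidable (rel w y)] (conf : α → α → Prop) (R c a : ℕ) (ha : 1 ≤ a)
    (hR : ∀ w' ∈ Ω, ∀ T : Finset α, T ⊆ Ω → (∀ w ∈ T, conf w w') → T.card ≤ R)
    (hc : ∀ f : Fin a → α, (∀ i, f i ∈ Ω) → (∀ i j, i < j → ¬ conf (f i) (f j)) →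
      (Y.filter (fun y => ∀ i, rel (f i) y)).card ≤ c) :
    (∑ y ∈ Y, ((Ω.filter (fun w => rel w y)).card : ℝ)) ^ a ≤
      (Y.card : ℝ) ^ (a - 1) *
      (2 ^ a * c * (Ω.card : ℝ) ^ a + (2 * a * R : ℝ) ^ a * Y.card) := by
  obtain ⟨b, rfl⟩ : ∃ b, a = b + 1 := ⟨a - 1, by omega⟩
  have h := conflict_count Ω Y rel conf R c (b + 1) hR hc
  rcases Y.eq_empty_or_nonempty with rfl | hY
  · simp only [sum_empty, card_empty, Nat.cast_zero]
    rw [zero_pow (by omega)]
    positivity
  · have h2 := pow_sum_div_card_le_sum_pow (s := Y)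
      (f := fun y => ((Ω.filter (fun w => rel w y)).card : ℝ)) (fun _ _ => by positivity) b
    have hpos : (0 : ℝ) < (Y.card : ℝ) ^ b := by
      have : 0 < Y.card := Finset.card_pos.mpr hY
      positivity
    rw [div_le_iff₀ hpos] at h2
    simp only [Nat.add_sub_cancel]
    calc _ ≤ _ := h2
      _ ≤ (2 ^ (b + 1) * c * (Ω.card : ℝ) ^ (b + 1) +
          (2 * (b + 1 : ℕ) * R : ℝ) ^ (b + 1) * Y.card) * (Y.card : ℝ) ^ b :=
          mul_le_mul_of_nonneg_right h hpos.le
      _ = _ := by ring

end Pool.Agent.Lib.MP_9a747a_co_h56
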