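import Mathlib
import Pool.Agent.Lib.MP_9a747a_co_h56.Conflict


/-!
# Secants of a point set through a point, and hyperplanes
-/

open Finset

set_option linter.unusedSectionVars false

namespace Pool.Agent.Lib.MP_9a747a_co_h56

variable {F : Type} [Field F] [Fintype F] [DecidableEq F] {k : ℕ}

/-- the line through two points -/
noncomputable def line (p : (Fin k → F) × (Fin k → F)) : Submodule F (Fin k → F) :=
  Submodule.span F {p.1, p.2}

theorem mem_line {p : (Fin k → F) × (Fin k → F)} {v : Fin k → F} :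
    v ∈ line p ↔ ∃ s t : F, s • p.1 + t • p.2 = v := Submodule.mem_span_pair

/-- a set of representatives of pairwise different points -/
def IsPts (X : Finset (Fin k → F)) : Prop :=
  (∀ x ∈ X, x ≠ 0) ∧ ∀ x ∈ X, ∀ x' ∈ X, ∀ t : F, x' = t • x → x' = x

theorem IsPts.indep {X : Finset (Fin k → F)} (hX : IsPts X) {x x' : Fin k → F} (hx : x ∈ X)
    (hx' : x' ∈ X) (hne : x ≠ x') {s t : F} (h : s • x + t • x' = 0) : s = 0 ∧ t = 0 := by
  have ht : t = 0 := by
    by_contra ht
    apply hne
    have : x' = (-(t⁻¹ * s)) • x := by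
      have h2 : t • x' = -(s • x) := by rw [eq_neg_iff_add_eq_zero, add_comm]; exact h
      calc x' = t⁻¹ • (t • x') := by rw [smul_smul, inv_mul_cancel₀ ht, one_smul]
        _ = _ := by rw [h2, smul_neg, smul_smul, neg_smul]
    exact (hX.2 x hx x' hx' _ this).symm
  subst ht
  refine ⟨?_, rfl⟩
  rw [zero_smul, add_zero] at h
  rcases smul_eq_zero.mp h with h | h
  · exact h
  · exact absurd h (hX.1 x hx)

theorem IsPts.inj {X : Finset (Fin k → F)} (hX : IsPts X) {x x' : Fin k → F} (hx : x ∈ X)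
    (hx' : x' ∈ X) (hne : x ≠ x') {s t s' t' : F} (h : s • x + t • x' = s' • x + t' • x') :
    s = s' ∧ t = t' := by
  have h2 : (s - s') • x + (t - t') • x' = 0 := by
    rw [sub_smul, sub_smul]
    have : s • x - s' • x + (t • x' - t' • x') = (s • x + t • x') - (s' • x + t' • x') := by abel
    rw [this, h, sub_self]
  obtain ⟨h3, h4⟩ := hX.indep hx hx' hne h2
  exact ⟨sub_eq_zero.mp h3, sub_eq_zero.mp h4⟩

open Classical in
/-- ordered pairs of points of `X` whose line carries fewer than `r` points of `X` -/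
noncomputable def poor (X : Finset (Fin k → F)) (r : ℕ) :
    Finset ((Fin k → F) × (Fin k → F)) :=
  (X ×ˢ X).filter (fun p => p.1 ≠ p.2 ∧ (X.filter (fun x => x ∈ line p)).card < r)

theorem mem_poor {X : Finset (Fin k → F)} {r : ℕ} {p : (Fin k → F) × (Fin k → F)} :
    p ∈ poor X r ↔ p.1 ∈ X ∧ p.2 ∈ X ∧ p.1 ≠ p.2 ∧
      ∀ T : Finset (Fin k → F), T ⊆ X → (∀ x ∈ T, x ∈ line p) → T.card < r := by
  classical
  simp only [poor, mem_filter, mem_product]
  constructor
  · rintro ⟨⟨h1, h2⟩, h3, h4⟩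
    refine ⟨h1, h2, h3, fun T hT hT2 => lt_of_le_of_lt (card_le_card ?_) h4⟩
    intro x hx
    simp only [mem_filter]
    exact ⟨hT hx, hT2 x hx⟩
  · rintro ⟨h1, h2, h3, h4⟩
    refine ⟨⟨h1, h2⟩, h3, ?_⟩
    exact h4 _ (filter_subset _ _) (fun x hx => (mem_filter.mp hx).2)

/-- the vector given by a pair and coefficients -/
def val (w : ((Fin k → F) × (Fin k → F)) × (F × F)) : Fin k → F :=
  w.2.1 • w.1.1 + w.2.2 • w.1.2

theorem val_mem_line (w : ((Fin k → F) × (Fin k → F)) × (F × F)) : val w ∈ line w.1 :=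
  mem_line.mpr ⟨_, _, rfl⟩

open Classical in
/-- pairs with coefficients whose value is not proportional to a point of `X` -/
noncomputable def reps (X : Finset (Fin k → F)) (r : ℕ) :
    Finset (((Fin k → F) × (Fin k → F)) × (F × F)) :=
  (poor X r ×ˢ univ).filter (fun w => ∀ x ∈ X, ∀ t : F, val w ≠ t • x)

theorem mem_reps {X : Finset (Fin k → F)} {r : ℕ}
    {w : ((Fin k → F) × (Fin k → F)) × (F × F)} :
    w ∈ reps X r ↔ w.1 ∈ poor X r ∧ ∀ x ∈ X, ∀ t : F, val w ≠ t • x := by
  classical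
  simp [reps]

/-- the fibre over `v` -/
noncomputable def secants (X : Finset (Fin k → F)) (r : ℕ) (v : Fin k → F) :
    Finset (((Fin k → F) × (Fin k → F)) × (F × F)) :=
  (reps X r).filter (fun w => val w = v)

theorem mem_secants {X : Finset (Fin k → F)} {r : ℕ} {v : Fin k → F}
    {w : ((Fin k → F) × (Fin k → F)) × (F × F)} :
    w ∈ secants X r v ↔ w ∈ reps X r ∧ val w = v := by
  simp [secants]

/-- incidence of a secant and a hyperplane -/
def perp (w : ((Fin k → F) × (Fin k → F)) × (F × F)) (y : Fin k → F) : Prop :=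
  w.1.1 ⬝ᵥ y = 0 ∧ w.1.2 ⬝ᵥ y = 0

instance (w : ((Fin k → F) × (Fin k → F)) × (F × F)) (y : Fin k → F) : Decidable (perp w y) := by
  unfold perp; infer_instance

theorem perp_val {w : ((Fin k → F) × (Fin k → F)) × (F × F)} {y : Fin k → F} (h : perp w y) :
    val w ⬝ᵥ y = 0 := by
  unfold val
  rw [add_dotProduct, smul_dotProduct, smul_dotProduct, h.1, h.2]
  simp

theorem dot_of_mem_line {p : (Fin k → F) × (Fin k → F)} {x y : Fin k → F} (hx : x ∈ line p)
    (h1 : p.1 ⬝ᵥ y = 0) (h2 : p.2 ⬝ᵥ y = 0) : x ⬝ᵥ y = 0 := by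
  obtain ⟨s, t, rfl⟩ := mem_line.mp hx
  rw [add_dotProduct, smul_dotProduct, smul_dotProduct, h1, h2]
  simp

/-- a secant through `v` is spanned by `v` and any of its two points -/
theorem line_eq {X : Finset (Fin k → F)} {r : ℕ} {v : Fin k → F}
    {w : ((Fin k → F) × (Fin k → F)) × (F × F)} (hw : w ∈ secants X r v) {x : Fin k → F}
    (hx : x = w.1.1 ∨ x = w.1.2) : line w.1 = Submodule.span F {x, v} := by
  rw [mem_secants, mem_reps] at hw
  obtain ⟨⟨hw1, hw2⟩, hw3⟩ := hw
  rw [mem_poor] at hw1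
  obtain ⟨h1, h2, h3, h4⟩ := hw1
  have hv : v ∈ line w.1 := hw3 ▸ val_mem_line w
  have hs : w.2.1 ≠ 0 := by
    intro h0
    apply hw2 w.1.2 h2 w.2.2
    unfold val; rw [h0, zero_smul, zero_add]
  have ht : w.2.2 ≠ 0 := by
    intro h0
    apply hw2 w.1.1 h1 w.2.1
    unfold val; rw [h0, zero_smul, add_zero]
  apply le_antisymm
  · unfold line
    rw [Submodule.span_le]
    intro z hz
    simp only [Set.mem_insert_iff, Set.mem_singleton_iff] at hz
    have hval : w.2.1 • w.1.1 + w.2.2 • w.1.2 = v := hw3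
    rcases hx with rfl | rfl
    · rcases hz with rfl | rfl
      · exact Submodule.subset_span (by simp)
      · refine Submodule.mem_span_pair.mpr ⟨-(w.2.2⁻¹ * w.2.1), w.2.2⁻¹, ?_⟩
        rw [← hval, smul_add, smul_smul, smul_smul, inv_mul_cancel₀ ht, one_smul, neg_smul]
        abel
    · rcases hz with rfl | rfl
      · refine Submodule.mem_span_pair.mpr ⟨-(w.2.1⁻¹ * w.2.2), w.2.1⁻¹, ?_⟩
        rw [← hval, smul_add, smul_smul, smul_smul, inv_mul_cancel₀ hs, one_smul, neg_smul]
        abel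
      · exact Submodule.subset_span (by simp)
  · rw [Submodule.span_le]
    intro z hz
    simp only [Set.mem_insert_iff, Set.mem_singleton_iff] at hz
    rcases hz with rfl | rfl
    · rcases hx with rfl | rfl
      · exact Submodule.subset_span (by simp)
      · exact Submodule.subset_span (by simp)
    · exact hv

/-- few secants through `v` lie on the same line -/
theorem few_conf {X : Finset (Fin k → F)} (hX : IsPts X) {r : ℕ} {v : Fin k → F}
    {w' : ((Fin k → F) × (Fin k → F)) × (F × F)} (hw' : w' ∈ secants X r v)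
    {T : Finset (((Fin k → F) × (Fin k → F)) × (F × F))} (hT : T ⊆ secants X r v)
    (hc : ∀ w ∈ T, line w.1 = line w'.1) : T.card ≤ r ^ 2 := by
  classical
  have hw := hw'
  rw [mem_secants, mem_reps, mem_poor] at hw
  obtain ⟨⟨⟨h1, h2, h3, h4⟩, h5⟩, h6⟩ := hw
  set L := X.filter (fun x => x ∈ line w'.1) with hL
  have hLr : L.card < r := h4 L (filter_subset _ _) (fun x hx => (mem_filter.mp hx).2)
  have hcard : T.card ≤ (L ×ˢ L).card := by
    apply Finset.card_le_card_of_injOn (fun w => w.1)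
    · intro w hw
      have hwT : w ∈ T := hw
      have hws := hT hwT
      rw [mem_secants, mem_reps, mem_poor] at hws
      obtain ⟨⟨⟨g1, g2, g3, g4⟩, g5⟩, g6⟩ := hws
      apply Finset.mem_coe.mpr
      rw [mem_product, hL, mem_filter, mem_filter, ← hc w hwT]
      exact ⟨⟨g1, Submodule.subset_span (by simp)⟩, ⟨g2, Submodule.subset_span (by simp)⟩⟩
    · intro w hw u hu huw
      have hws := hT (show w ∈ T from hw)
      have hus := hT (show u ∈ T from hu)
      rw [mem_secants, mem_reps, mem_poor] at hws hus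
      obtain ⟨⟨⟨g1, g2, g3, g4⟩, g5⟩, g6⟩ := hws
      obtain ⟨_, g6'⟩ := hus
      have huw' : w.1 = u.1 := huw
      have heq : w.2.1 • w.1.1 + w.2.2 • w.1.2 = u.2.1 • w.1.1 + u.2.2 • w.1.2 := by
        have e1 : w.2.1 • w.1.1 + w.2.2 • w.1.2 = v := g6
        have e2 : u.2.1 • u.1.1 + u.2.2 • u.1.2 = v := g6'
        rw [← huw'] at e2
        rw [e1, e2]
      obtain ⟨a1, a2⟩ := hX.inj g1 g2 g3 heq
      exact Prod.ext huw' (Prod.ext a1 a2)
  calc T.card ≤ L.card * L.card := by rw [← card_product]; exact hcard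
    _ ≤ r * r := Nat.mul_le_mul hLr.le hLr.le
    _ = r ^ 2 := by ring

/-- secants on pairwise different lines carry twice as many points -/
theorem many_points {X : Finset (Fin k → F)} {r a : ℕ} {v : Fin k → F}
    (f : Fin a → ((Fin k → F) × (Fin k → F)) × (F × F)) (hf : ∀ i, f i ∈ secants X r v)
    (hd : ∀ i j, i < j → ¬ line (f i).1 = line (f j).1) :
    ∃ B : Finset (Fin k → F), B ⊆ X ∧ B.card = 2 * a ∧
      ∀ x ∈ B, ∃ i, x = (f i).1.1 ∨ x = (f i).1.2 := by
  classical
  have hd' : ∀ i j, i ≠ j → ¬ line (f i).1 = line (f j).1 := by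
    intro i j hij
    rcases lt_or_gt_of_ne hij with h | h
    · exact hd i j h
    · exact fun h' => hd j i h h'.symm
  have hX' : ∀ i, (f i).1.1 ∈ X ∧ (f i).1.2 ∈ X ∧ (f i).1.1 ≠ (f i).1.2 := by
    intro i
    have := hf i
    rw [mem_secants, mem_reps, mem_poor] at this
    exact ⟨this.1.1.1, this.1.1.2.1, this.1.1.2.2.1⟩
  refine ⟨(univ : Finset (Fin a)).biUnion (fun i => {(f i).1.1, (f i).1.2}), ?_, ?_, ?_⟩
  · intro x hx
    simp only [mem_biUnion, mem_univ, true_and, mem_insert, mem_singleton] at hx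
    obtain ⟨i, rfl | rfl⟩ := hx
    · exact (hX' i).1
    · exact (hX' i).2.1
  · rw [card_biUnion]
    · rw [sum_congr rfl (fun i _ => card_pair (hX' i).2.2)]
      simp [mul_comm]
    · intro i _ j _ hij
      rw [Function.onFun, Finset.disjoint_left]
      intro x hx hx'
      simp only [mem_insert, mem_singleton] at hx hx'
      exact hd' i j hij ((line_eq (hf i) hx).trans (line_eq (hf j) hx').symm)
  · intro x hx
    simp only [mem_biUnion, mem_univ, true_and, mem_insert, mem_singleton] at hx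
    exact hx

end Pool.Agent.Lib.MP_9a747a_co_h56
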