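import Mathlib
import Pool.Agent.Lib.MP_9a747a_co_h56.Geom

/-!
# The four sums
-/

open Finset

set_option linter.unusedSectionVars false

namespace Pool.Agent.Lib.MP_9a747a_co_h56

variable {F : Type} [Field F] [Fintype F] [DecidableEq F] {k : ℕ}

/-- number of coefficient pairs giving a point not in `X` -/
theorem good_coeff {X : Finset (Fin k → F)} (hX : IsPts X) {r : ℕ} (hq : 2 * r ≤ Fintype.card F)
    {p : (Fin k → F) × (Fin k → F)} (hp : p ∈ poor X r) :
    (Fintype.card F : ℝ) ^ 2 / 2 ≤
      ((reps X r).filter (fun w => w.1 = p)).card := by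
  classical
  set q := Fintype.card F with hqdef
  obtain ⟨h1, h2, h3, h4⟩ := mem_poor.mp hp
  set L := X.filter (fun x => x ∈ line p) with hL
  have hLr : L.card < r := h4 L (filter_subset _ _) (fun x hx => (mem_filter.mp hx).2)
  -- bad coefficient pairs
  let bad : Finset (F × F) := univ.filter (fun c => ∃ x ∈ X, ∃ t : F, c.1 • p.1 + c.2 • p.2 = t • x)
  let good : Finset (F × F) := univ.filter (fun c => ¬ ∃ x ∈ X, ∃ t : F, c.1 • p.1 + c.2 • p.2 = t • x)
  have hsplit : bad.card + good.card = q ^ 2 := by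
    have := Finset.card_filter_add_card_filter_not (s := (univ : Finset (F × F)))
      (fun c => ∃ x ∈ X, ∃ t : F, c.1 • p.1 + c.2 • p.2 = t • x)
    rw [this, card_univ, Fintype.card_prod, sq]
  have hp1L : p.1 ∈ L := mem_filter.mpr ⟨h1, Submodule.subset_span (by simp)⟩
  have hbad : bad.card ≤ L.card * q := by
    have hsub : bad ⊆ L.biUnion (fun x => univ.filter
        (fun c : F × F => ∃ t : F, c.1 • p.1 + c.2 • p.2 = t • x)) := by
      intro c hc
      simp only [bad, mem_filter, mem_univ, true_and] at hc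
      obtain ⟨x, hx, t, ht⟩ := hc
      rw [mem_biUnion]
      by_cases h0 : t = 0
      · refine ⟨p.1, hp1L, ?_⟩
        simp only [mem_filter, mem_univ, true_and]
        exact ⟨0, by rw [ht, h0, zero_smul, zero_smul]⟩
      · refine ⟨x, ?_, ?_⟩
        · rw [hL, mem_filter]
          refine ⟨hx, mem_line.mpr ⟨t⁻¹ * c.1, t⁻¹ * c.2, ?_⟩⟩
          rw [← smul_smul, ← smul_smul, ← smul_add, ht, smul_smul, inv_mul_cancel₀ h0, one_smul]
        · simp only [mem_filter, mem_univ, true_and]
          exact ⟨t, ht⟩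
    calc bad.card ≤ _ := card_le_card hsub
      _ ≤ ∑ x ∈ L, (univ.filter
        (fun c : F × F => ∃ t : F, c.1 • p.1 + c.2 • p.2 = t • x)).card := card_biUnion_le
      _ ≤ ∑ _x ∈ L, q := by
          apply sum_le_sum
          intro x _
          have : (univ.filter (fun c : F × F => ∃ t : F, c.1 • p.1 + c.2 • p.2 = t • x)).card ≤
              (univ : Finset F).card := by
            apply Finset.card_le_card_of_injOn
              (fun c : F × F => if h : ∃ t : F, c.1 • p.1 + c.2 • p.2 = t • x then h.choose else 0)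
            · intro c _; simp
            · intro c hc d hd hcd
              have hc' : ∃ t : F, c.1 • p.1 + c.2 • p.2 = t • x := by
                simpa using (show c ∈ univ.filter (fun c : F × F => ∃ t : F, c.1 • p.1 + c.2 • p.2 = t • x) from hc)
              have hd' : ∃ t : F, d.1 • p.1 + d.2 • p.2 = t • x := by
                simpa using (show d ∈ univ.filter (fun c : F × F => ∃ t : F, c.1 • p.1 + c.2 • p.2 = t • x) from hd)
              simp only [dif_pos hc', dif_pos hd'] at hcd
              have e1 := hc'.choose_spec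
              have e2 := hd'.choose_spec
              have e3 : c.1 • p.1 + c.2 • p.2 = d.1 • p.1 + d.2 • p.2 := by rw [e1, e2, hcd]
              obtain ⟨a1, a2⟩ := hX.inj h1 h2 h3 e3
              exact Prod.ext a1 a2
          simpa [hqdef] using this
      _ = L.card * q := by simp
  have hgood : good.card ≤ ((reps X r).filter (fun w => w.1 = p)).card := by
    apply Finset.card_le_card_of_injOn (fun c => (p, c))
    · intro c hc
      have hc' : ¬ ∃ x ∈ X, ∃ t : F, c.1 • p.1 + c.2 • p.2 = t • x := by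
        simpa [good] using hc
      apply Finset.mem_coe.mpr
      rw [mem_filter, mem_reps]
      refine ⟨⟨hp, ?_⟩, rfl⟩
      intro x hx t ht
      exact hc' ⟨x, hx, t, ht⟩
    · intro c _ d _ h
      exact (Prod.ext_iff.mp h).2
  have h5 : 2 * good.card ≥ q ^ 2 := by
    have : L.card * q * 2 ≤ q ^ 2 := by
      have : L.card * 2 ≤ q := by omega
      calc L.card * q * 2 = (L.card * 2) * q := by ring
        _ ≤ q * q := Nat.mul_le_mul_right _ this
        _ = q ^ 2 := by ring
    omega
  have h6 : (q : ℝ) ^ 2 ≤ 2 * ((reps X r).filter (fun w => w.1 = p)).card := by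
    have : q ^ 2 ≤ 2 * ((reps X r).filter (fun w => w.1 = p)).card := by omega
    exact_mod_cast this
  linarith

theorem reps_fiber_le (X : Finset (Fin k → F)) (r : ℕ) (p : (Fin k → F) × (Fin k → F)) :
    ((reps X r).filter (fun w => w.1 = p)).card ≤ Fintype.card F ^ 2 := by
  classical
  have : ((reps X r).filter (fun w => w.1 = p)).card ≤ (univ : Finset (F × F)).card := by
    apply Finset.card_le_card_of_injOn (fun w => w.2)
    · intro w _; simp
    · intro w hw u hu h
      have hw' := (mem_filter.mp (show w ∈ (reps X r).filter (fun w => w.1 = p) from hw)).2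
      have hu' := (mem_filter.mp (show u ∈ (reps X r).filter (fun w => w.1 = p) from hu)).2
      exact Prod.ext (hw'.trans hu'.symm) h
  rw [card_univ, Fintype.card_prod] at this
  rw [sq]; exact this

/-- degree of a pair -/
def codeg (Y : Finset (Fin k → F)) (p : (Fin k → F) × (Fin k → F)) : ℕ :=
  (Y.filter (fun y => p.1 ⬝ᵥ y = 0 ∧ p.2 ⬝ᵥ y = 0)).card

/-- hyperplanes through `v` -/
def hyp (Y : Finset (Fin k → F)) (v : Fin k → F) : Finset (Fin k → F) :=
  Y.filter (fun y => v ⬝ᵥ y = 0)

/-- the incidences over `v` -/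
noncomputable def inc (X Y : Finset (Fin k → F)) (r : ℕ) (v : Fin k → F) : ℝ :=
  ∑ y ∈ hyp Y v, (((secants X r v).filter (fun w => perp w y)).card : ℝ)

theorem inc_eq (X Y : Finset (Fin k → F)) (r : ℕ) (v : Fin k → F) :
    inc X Y r v = ∑ y ∈ Y, (((secants X r v).filter (fun w => perp w y)).card : ℝ) := by
  classical
  unfold inc hyp
  rw [sum_filter]
  apply sum_congr rfl
  intro y _
  split_ifs with h
  · rfl
  · symm
    rw [Nat.cast_eq_zero, card_eq_zero, filter_eq_empty_iff]
    intro w hw hp
    apply h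
    rw [← (mem_secants.mp hw).2]
    exact perp_val hp

/-- first sum -/
theorem sum_inc (X Y : Finset (Fin k → F)) (r : ℕ) :
    ∑ v, inc X Y r v = ∑ w ∈ reps X r, (codeg Y w.1 : ℝ) := by
  classical
  have h1 : ∀ v : Fin k → F, inc X Y r v =
      ∑ w ∈ secants X r v, (codeg Y w.1 : ℝ) := by
    intro v
    rw [inc_eq]
    simp only [card_filter, codeg, Nat.cast_sum]
    rw [sum_comm]
    rfl
  simp only [h1, secants]
  rw [Finset.sum_fiberwise]

theorem sum_inc_lower {X Y : Finset (Fin k → F)} (hX : IsPts X) {r : ℕ}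
    (hq : 2 * r ≤ Fintype.card F) :
    (Fintype.card F : ℝ) ^ 2 / 2 * ∑ p ∈ poor X r, (codeg Y p : ℝ) ≤ ∑ v, inc X Y r v := by
  classical
  rw [sum_inc]
  have h1 : ∑ w ∈ reps X r, (codeg Y w.1 : ℝ) =
      ∑ p ∈ poor X r, ∑ w ∈ (reps X r).filter (fun w => w.1 = p), (codeg Y w.1 : ℝ) := by
    rw [Finset.sum_fiberwise_of_maps_to]
    intro w hw
    exact (mem_reps.mp hw).1
  rw [h1, mul_sum]
  apply sum_le_sum
  intro p hp
  have h2 : ∑ w ∈ (reps X r).filter (fun w => w.1 = p), (codeg Y w.1 : ℝ) =
      (((reps X r).filter (fun w => w.1 = p)).card : ℝ) * codeg Y p := by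
    rw [sum_congr rfl (fun w hw => by rw [(mem_filter.mp hw).2]), sum_const, nsmul_eq_mul]
  rw [h2]
  exact mul_le_mul_of_nonneg_right (good_coeff hX hq hp) (by positivity)

/-- second sum -/
theorem sum_secants (X : Finset (Fin k → F)) (r : ℕ) :
    ∑ v, ((secants X r v).card : ℝ) ≤ (Fintype.card F : ℝ) ^ 2 * (poor X r).card := by
  classical
  have h1 : ∑ v, (secants X r v).card = (reps X r).card := by
    unfold secants
    exact (card_eq_sum_card_fiberwise (f := val) (t := univ) (fun w _ => by simp)).symm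
  have h2 : (reps X r).card ≤ (poor X r).card * Fintype.card F ^ 2 := by
    calc (reps X r).card ≤ (poor X r ×ˢ (univ : Finset (F × F))).card := by
          unfold reps; exact card_filter_le _ _
      _ = _ := by rw [card_product, card_univ, Fintype.card_prod, sq]
  have h3 : ∑ v, (secants X r v).card ≤ (poor X r).card * Fintype.card F ^ 2 := by
    rw [h1]; exact h2
  have h4 : ((∑ v, (secants X r v).card : ℕ) : ℝ) ≤
      (((poor X r).card * Fintype.card F ^ 2 : ℕ) : ℝ) := by exact_mod_cast h3
  push_cast at h4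
  linarith

/-- coefficient pairs orthogonal to `y` -/
theorem coeff_perp (p : (Fin k → F) × (Fin k → F)) (y : Fin k → F)
    (h : ¬ (p.1 ⬝ᵥ y = 0 ∧ p.2 ⬝ᵥ y = 0)) :
    ((univ : Finset (F × F)).filter (fun c => (c.1 • p.1 + c.2 • p.2) ⬝ᵥ y = 0)).card ≤
      Fintype.card F := by
  classical
  simp only [add_dotProduct, smul_dotProduct, smul_eq_mul]
  have huniv : Fintype.card F = (univ : Finset F).card := card_univ.symm
  rw [huniv]
  by_cases h1 : p.1 ⬝ᵥ y = 0
  · have h2 : p.2 ⬝ᵥ y ≠ 0 := fun h2 => h ⟨h1, h2⟩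
    apply Finset.card_le_card_of_injOn (fun c => c.1)
    · intro c _; simp
    · intro c hc d hd hcd
      have hc' : c.1 * (p.1 ⬝ᵥ y) + c.2 * (p.2 ⬝ᵥ y) = 0 := by simpa using hc
      have hd' : d.1 * (p.1 ⬝ᵥ y) + d.2 * (p.2 ⬝ᵥ y) = 0 := by simpa using hd
      rw [h1, mul_zero, zero_add] at hc' hd'
      have hc2 : c.2 = 0 := (mul_eq_zero.mp hc').resolve_right h2
      have hd2 : d.2 = 0 := (mul_eq_zero.mp hd').resolve_right h2
      exact Prod.ext hcd (hc2.trans hd2.symm)
  · apply Finset.card_le_card_of_injOn (fun c => c.2)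
    · intro c _; simp
    · intro c hc d hd hcd
      have hc' : c.1 * (p.1 ⬝ᵥ y) + c.2 * (p.2 ⬝ᵥ y) = 0 := by simpa using hc
      have hd' : d.1 * (p.1 ⬝ᵥ y) + d.2 * (p.2 ⬝ᵥ y) = 0 := by simpa using hd
      have hcd' : c.2 = d.2 := hcd
      have h3 : (c.1 - d.1) * (p.1 ⬝ᵥ y) = 0 := by
        rw [hcd'] at hc'
        linear_combination hc' - hd'
      have h4 : c.1 = d.1 := sub_eq_zero.mp ((mul_eq_zero.mp h3).resolve_right h1)
      exact Prod.ext h4 hcd'

/-- third sum -/
theorem sum_secants_hyp (X Y : Finset (Fin k → F)) (r : ℕ) :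
    ∑ v, ((secants X r v).card : ℝ) * (hyp Y v).card ≤
      (Fintype.card F : ℝ) * (poor X r).card * Y.card +
      (Fintype.card F : ℝ) ^ 2 * ∑ p ∈ poor X r, (codeg Y p : ℝ) := by
  classical
  have h1 : ∑ v, (secants X r v).card * (hyp Y v).card =
      ∑ w ∈ reps X r, (hyp Y (val w)).card := by
    have : ∀ v : Fin k → F, (secants X r v).card * (hyp Y v).card =
        ∑ w ∈ (reps X r).filter (fun w => val w = v), (hyp Y (val w)).card := by
      intro v
      rw [sum_congr rfl (fun w hw => by rw [(mem_filter.mp hw).2]), sum_const, smul_eq_mul]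
      rfl
    rw [sum_congr rfl (fun v _ => this v), Finset.sum_fiberwise]
  have h2 : ∑ w ∈ reps X r, (hyp Y (val w)).card ≤
      ∑ p ∈ poor X r, (Fintype.card F * Y.card + Fintype.card F ^ 2 * codeg Y p) := by
    calc ∑ w ∈ reps X r, (hyp Y (val w)).card
        ≤ ∑ w ∈ poor X r ×ˢ (univ : Finset (F × F)), (hyp Y (val w)).card := by
          apply sum_le_sum_of_subset
          unfold reps; exact filter_subset _ _
      _ = ∑ p ∈ poor X r, ∑ c : F × F, (hyp Y (val (p, c))).card := by rw [sum_product]
      _ ≤ ∑ p ∈ poor X r, (Fintype.card F * Y.card + Fintype.card F ^ 2 * codeg Y p) := by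
          apply sum_le_sum
          intro p _
          have h3 : ∑ c : F × F, (hyp Y (val (p, c))).card =
              ∑ y ∈ Y, ((univ : Finset (F × F)).filter
                (fun c => (c.1 • p.1 + c.2 • p.2) ⬝ᵥ y = 0)).card := by
            simp only [hyp, card_filter]
            rw [sum_comm]
            rfl
          rw [h3]
          calc ∑ y ∈ Y, ((univ : Finset (F × F)).filter
                (fun c => (c.1 • p.1 + c.2 • p.2) ⬝ᵥ y = 0)).card
              ≤ ∑ y ∈ Y, (Fintype.card F + if (p.1 ⬝ᵥ y = 0 ∧ p.2 ⬝ᵥ y = 0) then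
                Fintype.card F ^ 2 else 0) := by
                apply sum_le_sum
                intro y _
                split_ifs with h
                · calc _ ≤ (univ : Finset (F × F)).card := card_filter_le _ _
                    _ = Fintype.card F ^ 2 := by rw [card_univ, Fintype.card_prod, sq]
                    _ ≤ _ := Nat.le_add_left _ _
                · simpa using coeff_perp p y h
            _ = Fintype.card F * Y.card + Fintype.card F ^ 2 * codeg Y p := by
                rw [sum_add_distrib, sum_const, smul_eq_mul, ← sum_filter, sum_const, smul_eq_mul]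
                unfold codeg; ring
  have h3 : ((∑ v, (secants X r v).card * (hyp Y v).card : ℕ) : ℝ) ≤
      ((∑ p ∈ poor X r, (Fintype.card F * Y.card + Fintype.card F ^ 2 * codeg Y p) : ℕ) : ℝ) := by
    rw [h1]; exact_mod_cast h2
  push_cast at h3
  rw [sum_add_distrib, sum_const, nsmul_eq_mul, ← mul_sum] at h3
  linarith

/-- size of a hyperplane -/
theorem card_perp {y : Fin k → F} (hy : y ≠ 0) :
    Fintype.card F * ((univ : Finset (Fin k → F)).filter (fun v => v ⬝ᵥ y = 0)).card =
      Fintype.card F ^ k := by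
  classical
  obtain ⟨j, hj⟩ : ∃ j, y j ≠ 0 := by
    by_contra h
    push Not at h
    exact hy (funext h)
  -- the bijection with pairs
  have hcard : (univ : Finset (Fin k → F)).card = Fintype.card F ^ k := by
    rw [card_univ, Fintype.card_fun, Fintype.card_fin]
  rw [← hcard]
  have hu : Fintype.card F = (univ : Finset F).card := card_univ.symm
  rw [hu, ← card_product]
  refine Finset.card_bij' (fun s _ => s.2 + Pi.single j s.1)
    (fun v _ => ((v ⬝ᵥ y) * (y j)⁻¹, v - Pi.single j ((v ⬝ᵥ y) * (y j)⁻¹))) ?_ ?_ ?_ ?_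
  · intro s _; simp
  · intro v _
    simp only [mem_product, mem_univ, true_and, mem_filter]
    rw [sub_dotProduct, single_dotProduct, mul_assoc, inv_mul_cancel₀ hj, mul_one, sub_self]
  · intro s hs
    simp only [mem_product, mem_univ, true_and, mem_filter] at hs
    have e : (s.2 + Pi.single j s.1) ⬝ᵥ y * (y j)⁻¹ = s.1 := by
      rw [add_dotProduct, hs, single_dotProduct, zero_add, mul_assoc, mul_inv_cancel₀ hj, mul_one]
    apply Prod.ext
    · exact e
    · simp only [e]
      abel
  · intro v _
    simp only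
    abel

/-- fourth sum -/
theorem sum_hyp {Y : Finset (Fin k → F)} (hY : ∀ y ∈ Y, y ≠ 0) (hk : 1 ≤ k) :
    ∑ v, ((hyp Y v).card : ℝ) = Y.card * (Fintype.card F : ℝ) ^ (k - 1) := by
  classical
  have h1 : ∑ v, (hyp Y v).card = ∑ y ∈ Y, ((univ : Finset (Fin k → F)).filter
      (fun v => v ⬝ᵥ y = 0)).card := by
    simp only [hyp, card_filter]
    rw [sum_comm]
  have h2 : ∀ y ∈ Y, ((univ : Finset (Fin k → F)).filter (fun v => v ⬝ᵥ y = 0)).card =
      Fintype.card F ^ (k - 1) := by
    intro y hy
    have h3 := card_perp (hY y hy)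
    have h4 : Fintype.card F ^ k = Fintype.card F * Fintype.card F ^ (k - 1) := by
      rw [← pow_succ']; congr 1; omega
    rw [h4] at h3
    exact Nat.eq_of_mul_eq_mul_left Fintype.card_pos h3
  rw [sum_congr rfl h2, sum_const, smul_eq_mul] at h1
  have h5 : ((∑ v, (hyp Y v).card : ℕ) : ℝ) = ((Y.card * Fintype.card F ^ (k - 1) : ℕ) : ℝ) := by
    rw [h1]
  push_cast at h5
  exact h5

end Pool.Agent.Lib.MP_9a747a_co_h56
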