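import Mathlib
import Pool.Agent.Lib.MP_9a747a_co_h56.Counts

/-!
# The incidence inequality, polynomial form
-/

open Finset

set_option linter.unusedSectionVars false

namespace Pool.Agent.Lib.MP_9a747a_co_h56

variable {F : Type} [Field F] [Fintype F] [DecidableEq F] {k : ℕ}

/-- number of incidences, counted from the side of `Y` -/
theorem card_inc (X Y : Finset (Fin k → F)) :
    (((X ×ˢ Y).filter (fun p => p.1 ⬝ᵥ p.2 = 0)).card : ℝ) =
      ∑ y ∈ Y, ((X.filter (fun x => x ⬝ᵥ y = 0)).card : ℝ) := by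
  classical
  rw [card_filter, sum_product_right]
  push_cast
  apply sum_congr rfl
  intro y _
  rw [card_filter]
  push_cast
  rfl

theorem offDiag_codeg (X Y : Finset (Fin k → F)) :
    ∑ p ∈ X.offDiag, (codeg Y p : ℝ) =
      ∑ y ∈ Y, (((X.filter (fun x => x ⬝ᵥ y = 0)).card : ℝ) ^ 2 -
        ((X.filter (fun x => x ⬝ᵥ y = 0)).card : ℝ)) := by
  classical
  have h1 : ∀ y : Fin k → F, (X.offDiag.filter (fun p => p.1 ⬝ᵥ y = 0 ∧ p.2 ⬝ᵥ y = 0)) =
      (X.filter (fun x => x ⬝ᵥ y = 0)).offDiag := by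
    intro y
    ext p
    simp only [mem_filter, mem_offDiag]
    tauto
  have h2 : ∑ p ∈ X.offDiag, (codeg Y p : ℝ) =
      ∑ y ∈ Y, ((X.offDiag.filter (fun p => p.1 ⬝ᵥ y = 0 ∧ p.2 ⬝ᵥ y = 0)).card : ℝ) := by
    simp only [codeg, card_filter, Nat.cast_sum]
    rw [sum_comm]
  rw [h2]
  apply sum_congr rfl
  intro y _
  rw [h1, offDiag_card]
  have : (X.filter (fun x => x ⬝ᵥ y = 0)).card ≤
      (X.filter (fun x => x ⬝ᵥ y = 0)).card * (X.filter (fun x => x ⬝ᵥ y = 0)).card :=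
    Nat.le_mul_self _
  rw [Nat.cast_sub this]
  push_cast
  ring

/-- pairs on rich lines have few common neighbours -/
theorem rich_codeg {X Y : Finset (Fin k → F)} {r c : ℕ}
    (hK : ∀ A ⊆ X, A.card = r → (Y.filter (fun y => ∀ x ∈ A, x ⬝ᵥ y = 0)).card ≤ c)
    {p : (Fin k → F) × (Fin k → F)} (hp : p ∈ X.offDiag) (hp' : p ∉ poor X r) :
    codeg Y p ≤ c := by
  classical
  rw [mem_offDiag] at hp
  have : ∃ T : Finset (Fin k → F), T ⊆ X ∧ (∀ x ∈ T, x ∈ line p) ∧ r ≤ T.card := by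
    by_contra h
    push Not at h
    exact hp' (mem_poor.mpr ⟨hp.1, hp.2.1, hp.2.2, h⟩)
  obtain ⟨T, hT, hT2, hT3⟩ := this
  obtain ⟨A, hA, hA2⟩ := exists_subset_card_eq hT3
  refine le_trans (card_le_card ?_) (hK A (hA.trans hT) hA2)
  intro y hy
  simp only [mem_filter] at hy ⊢
  exact ⟨hy.1, fun x hx => dot_of_mem_line (hT2 x (hA hx)) hy.2.1 hy.2.2⟩

theorem poor_lower {X Y : Finset (Fin k → F)} {r c : ℕ}
    (hK : ∀ A ⊆ X, A.card = r → (Y.filter (fun y => ∀ x ∈ A, x ⬝ᵥ y = 0)).card ≤ c)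
    {E : ℝ} (hE : E = ∑ y ∈ Y, ((X.filter (fun x => x ⬝ᵥ y = 0)).card : ℝ))
    (hm : 0 < (Y.card : ℝ)) (h1 : 2 * (Y.card : ℝ) ≤ E)
    (h2 : 4 * (c : ℝ) * (X.card : ℝ) ^ 2 * Y.card ≤ E ^ 2) :
    E ^ 2 / (4 * Y.card) ≤ ∑ p ∈ poor X r, (codeg Y p : ℝ) := by
  classical
  have hsub : poor X r ⊆ X.offDiag := by
    intro p hp
    obtain ⟨a1, a2, a3, _⟩ := mem_poor.mp hp
    exact mem_offDiag.mpr ⟨a1, a2, a3⟩
  have h3 : ∑ p ∈ X.offDiag, (codeg Y p : ℝ) =
      ∑ p ∈ X.offDiag \ poor X r, (codeg Y p : ℝ) + ∑ p ∈ poor X r, (codeg Y p : ℝ) :=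
    (sum_sdiff hsub).symm
  have h4 : ∑ p ∈ X.offDiag \ poor X r, (codeg Y p : ℝ) ≤ c * (X.card : ℝ) ^ 2 := by
    calc ∑ p ∈ X.offDiag \ poor X r, (codeg Y p : ℝ)
        ≤ ∑ _p ∈ X.offDiag \ poor X r, (c : ℝ) := by
          apply sum_le_sum
          intro p hp
          rw [mem_sdiff] at hp
          exact_mod_cast rich_codeg hK hp.1 hp.2
      _ = ((X.offDiag \ poor X r).card : ℝ) * c := by simp
      _ ≤ (X.card : ℝ) ^ 2 * c := by
          apply mul_le_mul_of_nonneg_right _ (by positivity)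
          have : (X.offDiag \ poor X r).card ≤ X.card * X.card := by
            calc _ ≤ X.offDiag.card := card_le_card sdiff_subset
              _ ≤ (X ×ˢ X).card := card_le_card (by
                  intro p hp
                  rw [mem_offDiag] at hp
                  exact mem_product.mpr ⟨hp.1, hp.2.1⟩)
              _ = _ := card_product _ _
          calc ((X.offDiag \ poor X r).card : ℝ) ≤ ((X.card * X.card : ℕ) : ℝ) := by
                exact_mod_cast this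
            _ = (X.card : ℝ) ^ 2 := by push_cast; ring
      _ = _ := by ring
  have h5 : E ^ 2 / Y.card - E ≤ ∑ p ∈ X.offDiag, (codeg Y p : ℝ) := by
    rw [offDiag_codeg, sum_sub_distrib, ← hE]
    apply sub_le_sub_right
    rw [div_le_iff₀ hm]
    have := sq_sum_le_card_mul_sum_sq (s := Y)
      (f := fun y => ((X.filter (fun x => x ⬝ᵥ y = 0)).card : ℝ))
    rw [← hE] at this
    linarith
  have h6 : E ≤ E ^ 2 / Y.card / 2 := by
    rw [le_div_iff₀ (by norm_num), le_div_iff₀ hm]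
    nlinarith
  have h7 : c * (X.card : ℝ) ^ 2 ≤ E ^ 2 / (4 * Y.card) := by
    rw [le_div_iff₀ (by positivity)]
    linarith
  have h8 : E ^ 2 / Y.card / 2 = E ^ 2 / (4 * Y.card) + E ^ 2 / (4 * Y.card) := by
    field_simp
    ring
  linarith

/-- the choice of a point with many secants -/
theorem exists_point {X Y : Finset (Fin k → F)} (r : ℕ) {A B1 B2 B3 : ℝ}
    (hA : A = ∑ v, inc X Y r v) (hApos : 0 < A) (hB1 : 0 < B1) (hB2 : 0 < B2) (hB3 : 0 < B3)
    (h1 : ∑ v, ((hyp Y v).card : ℝ) ≤ B1) (h2 : ∑ v, ((secants X r v).card : ℝ) ≤ B2)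
    (h3 : ∑ v, ((secants X r v).card : ℝ) * (hyp Y v).card ≤ B3) :
    ∃ v, A / (4 * B1) * (hyp Y v).card + A / (4 * B2) * (secants X r v).card +
      A / (4 * B3) * ((secants X r v).card * (hyp Y v).card) < inc X Y r v := by
  have hlt : ∑ v : Fin k → F, (A / (4 * B1) * (hyp Y v).card +
      A / (4 * B2) * (secants X r v).card +
      A / (4 * B3) * ((secants X r v).card * (hyp Y v).card)) < ∑ v, inc X Y r v := by
    rw [sum_add_distrib, sum_add_distrib, ← mul_sum, ← mul_sum, ← mul_sum, ← hA]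
    have e1 : A / (4 * B1) * ∑ v, ((hyp Y v).card : ℝ) ≤ A / 4 := by
      calc _ ≤ A / (4 * B1) * B1 := mul_le_mul_of_nonneg_left h1 (by positivity)
        _ = A / 4 := by field_simp
    have e2 : A / (4 * B2) * ∑ v, ((secants X r v).card : ℝ) ≤ A / 4 := by
      calc _ ≤ A / (4 * B2) * B2 := mul_le_mul_of_nonneg_left h2 (by positivity)
        _ = A / 4 := by field_simp
    have e3 : A / (4 * B3) * ∑ v, ((secants X r v).card : ℝ) * (hyp Y v).card ≤ A / 4 := by
      calc _ ≤ A / (4 * B3) * B3 := mul_le_mul_of_nonneg_left h3 (by positivity)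
        _ = A / 4 := by field_simp
    linarith
  obtain ⟨v, _, hv⟩ := exists_lt_of_sum_lt hlt
  exact ⟨v, hv⟩

/-- incidences over `v`, bounded by the conflict count -/
theorem inc_le {X Y : Finset (Fin k → F)} (hX : IsPts X) {a r c : ℕ} (ha : 1 ≤ a)
    (hra : r ≤ 2 * a)
    (hK : ∀ A ⊆ X, A.card = r → (Y.filter (fun y => ∀ x ∈ A, x ⬝ᵥ y = 0)).card ≤ c)
    (v : Fin k → F) :
    (inc X Y r v) ^ a ≤ ((hyp Y v).card : ℝ) ^ (a - 1) *
      (2 ^ a * c * ((secants X r v).card : ℝ) ^ a + (2 * a * r ^ 2 : ℝ) ^ a * (hyp Y v).card) := by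
  classical
  have h := conflict_sum (secants X r v) (hyp Y v) perp (fun w w' => line w.1 = line w'.1)
    (r ^ 2) c a ha (fun w' hw' T hT hc => few_conf hX hw' hT hc) ?_
  · simpa [inc] using h
  · intro f hf hd
    obtain ⟨B, hB, hBc, hBf⟩ := many_points f hf hd
    obtain ⟨A, hA, hAc⟩ := exists_subset_card_eq (show r ≤ B.card by omega)
    refine le_trans (card_le_card ?_) (hK A (hA.trans hB) hAc)
    intro y hy
    simp only [mem_filter, hyp] at hy ⊢
    refine ⟨hy.1.1, fun x hx => ?_⟩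
    obtain ⟨i, hi⟩ := hBf x (hA hx)
    rcases hi with rfl | rfl
    · exact (hy.2 i).1
    · exact (hy.2 i).2

/-- the real-number part of the argument -/
theorem real_core (a r c k : ℕ) (ha : 1 ≤ a) {n m q E T A h g e C K1 K2 K3 : ℝ}
    (hCr : 128 * (a : ℝ) * r ^ 2 ≤ C)
    (hCb : 32 * 64 ^ (a - 1) * (2 ^ (a + 1) * (c : ℝ)) ≤ C)
    (hnpos : 0 < n) (hmpos : 0 < m) (hq0 : 0 < q) (hE0 : 0 < E) (hTpos : 0 < T)
    (hApos : 0 < A) (hhpos : 0 < h) (hgpos : 0 < g) (he0 : 0 < e)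
    (g1 : C * n ^ (2 * a) * m ^ (2 * a - 1) < E ^ (2 * a) * q ^ (a - 1))
    (g2 : C * m ^ 2 * q ^ (k - 1) < E ^ 2 * q ^ 2)
    (g3 : C * n ^ 2 * m < E ^ 2)
    (hTlow : E ^ 2 / (4 * m) ≤ T) (hAlow : q ^ 2 / 2 * T ≤ A)
    (hK1 : K1 = A / (4 * (m * q ^ (k - 1)))) (hK2 : K2 = A / (4 * (q ^ 2 * n ^ 2)))
    (hK3 : K3 = A / (4 * (q * n ^ 2 * m + q ^ 2 * T)))
    (hv : K1 * h + K2 * g + K3 * (g * h) < e)
    (hconf : e ^ a ≤ h ^ (a - 1) *
      (2 ^ a * c * g ^ a + (2 * a * r ^ 2 : ℝ) ^ a * h)) : False := by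
  have hK1p : 0 < K1 := by rw [hK1]; positivity
  have hK2p : 0 < K2 := by rw [hK2]; positivity
  have hK3p : 0 < K3 := by rw [hK3]; positivity
  have s1 : q ^ 2 / 2 * (E ^ 2 / (4 * m)) ≤ A :=
    (mul_le_mul_of_nonneg_left hTlow (by positivity)).trans hAlow
  -- K1 is large
  have hK1low : 4 * (a : ℝ) * r ^ 2 ≤ K1 := by
    rw [hK1, le_div_iff₀ (by positivity)]
    have s2 : C * m * q ^ (k - 1) ≤ 8 * (q ^ 2 / 2 * (E ^ 2 / (4 * m))) := by
      have : 8 * (q ^ 2 / 2 * (E ^ 2 / (4 * m))) = E ^ 2 * q ^ 2 / m := by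
        field_simp
        ring
      rw [this, le_div_iff₀ hmpos]
      have : C * m * q ^ (k - 1) * m = C * m ^ 2 * q ^ (k - 1) := by ring
      rw [this]; exact g2.le
    have s3 : 128 * (a : ℝ) * r ^ 2 * (m * q ^ (k - 1)) ≤ C * (m * q ^ (k - 1)) :=
      mul_le_mul_of_nonneg_right hCr (by positivity)
    have s4 : 4 * (a : ℝ) * r ^ 2 * (4 * (m * q ^ (k - 1))) =
        128 * (a : ℝ) * r ^ 2 * (m * q ^ (k - 1)) / 8 := by ring
    rw [s4, div_le_iff₀ (by norm_num)]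
    have s5 : C * (m * q ^ (k - 1)) = C * m * q ^ (k - 1) := by ring
    linarith
  have hv1 : K1 * h ≤ e := by
    have : 0 ≤ K2 * g + K3 * (g * h) := by positivity
    linarith
  have hv2 : K2 * g ≤ e := by
    have : 0 ≤ K1 * h + K3 * (g * h) := by positivity
    linarith
  have hv3 : K3 * (g * h) ≤ e := by
    have : 0 ≤ K1 * h + K2 * g := by positivity
    linarith
  -- absorb the second term
  have hsecond : h ^ (a - 1) * ((2 * a * r ^ 2 : ℝ) ^ a * h) ≤ e ^ a / 2 := by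
    have e1 : h ^ (a - 1) * ((2 * a * r ^ 2 : ℝ) ^ a * h) = (2 * a * r ^ 2 * h) ^ a := by
      rw [mul_pow (2 * (a : ℝ) * r ^ 2) h a]
      have : h ^ a = h ^ (a - 1) * h := by
        rw [← pow_succ]; congr 1; omega
      rw [this]; ring
    rw [e1]
    have e2 : 2 * (a : ℝ) * r ^ 2 * h ≤ e / 2 := by
      have := mul_le_mul_of_nonneg_right hK1low hhpos.le
      linarith
    calc (2 * (a : ℝ) * r ^ 2 * h) ^ a ≤ (e / 2) ^ a := pow_le_pow_left₀ (by positivity) e2 a
      _ = e ^ a / 2 ^ a := div_pow _ _ _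
      _ ≤ e ^ a / 2 := by
          apply div_le_div_of_nonneg_left (by positivity) (by norm_num)
          calc (2 : ℝ) = 2 ^ 1 := (pow_one 2).symm
            _ ≤ 2 ^ a := pow_le_pow_right₀ (by norm_num) ha
  have hfirst : e ^ a ≤ 2 ^ (a + 1) * c * (g ^ a * h ^ (a - 1)) := by
    have : e ^ a ≤ h ^ (a - 1) * (2 ^ a * c * g ^ a) + e ^ a / 2 := by
      calc e ^ a ≤ _ := hconf
        _ = h ^ (a - 1) * (2 ^ a * c * g ^ a) + h ^ (a - 1) * ((2 * a * r ^ 2 : ℝ) ^ a * h) := by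
          ring
        _ ≤ _ := by linarith
    have e3 : (2 : ℝ) ^ (a + 1) * c * (g ^ a * h ^ (a - 1)) =
        2 * (h ^ (a - 1) * (2 ^ a * c * g ^ a)) := by
      rw [pow_succ]; ring
    rw [e3]; linarith
  have hlow : K2 * K3 ^ (a - 1) * (g ^ a * h ^ (a - 1)) ≤ e ^ a := by
    have e1 : e ^ a = e * e ^ (a - 1) := by
      rw [← pow_succ']; congr 1; omega
    have e2 : g ^ a = g * g ^ (a - 1) := by
      rw [← pow_succ']; congr 1; omega
    rw [e1, e2]
    calc K2 * K3 ^ (a - 1) * (g * g ^ (a - 1) * h ^ (a - 1))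
        = (K2 * g) * (K3 * (g * h)) ^ (a - 1) := by rw [mul_pow, mul_pow]; ring
      _ ≤ e * e ^ (a - 1) := by
          apply mul_le_mul hv2 (pow_le_pow_left₀ (by positivity) hv3 _) (by positivity) he0.le
  have hupper : K2 * K3 ^ (a - 1) ≤ 2 ^ (a + 1) * c := by
    have hp : 0 < g ^ a * h ^ (a - 1) := by positivity
    exact le_of_mul_le_mul_right (hlow.trans hfirst) hp
  -- lower bounds
  have hK2low : E ^ 2 / (32 * n ^ 2 * m) ≤ K2 := by
    rw [hK2, div_le_div_iff₀ (by positivity) (by positivity)]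
    have s2 : q ^ 2 / 2 * (E ^ 2 / (4 * m)) * (8 * m) = q ^ 2 * E ^ 2 := by
      field_simp
      ring
    have s3 : q ^ 2 * E ^ 2 ≤ A * (8 * m) := by
      rw [← s2]
      exact mul_le_mul_of_nonneg_right s1 (by positivity)
    calc E ^ 2 * (4 * (q ^ 2 * n ^ 2)) = q ^ 2 * E ^ 2 * (4 * n ^ 2) := by ring
      _ ≤ A * (8 * m) * (4 * n ^ 2) := mul_le_mul_of_nonneg_right s3 (by positivity)
      _ = A * (32 * n ^ 2 * m) := by ring
  have hfinal : C / (32 * 64 ^ (a - 1)) < K2 * K3 ^ (a - 1) := by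
    rcases le_total (q * T) (n ^ 2 * m) with hcase | hcase
    · -- sparse case
      have hK3low : q * E ^ 2 / (64 * n ^ 2 * m ^ 2) ≤ K3 := by
        rw [hK3, div_le_div_iff₀ (by positivity) (by positivity)]
        have s2 : 4 * (q * n ^ 2 * m + q ^ 2 * T) ≤ 8 * (q * n ^ 2 * m) := by
          have := mul_le_mul_of_nonneg_left hcase hq0.le
          have e1 : q * (q * T) = q ^ 2 * T := by ring
          have e2 : q * (n ^ 2 * m) = q * n ^ 2 * m := by ring
          linarith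
        have s3 : E ^ 2 ≤ T * (4 * m) := by
          rwa [div_le_iff₀ (by positivity)] at hTlow
        have s4 : q ^ 2 * T ≤ 2 * A := by linarith
        calc q * E ^ 2 * (4 * (q * n ^ 2 * m + q ^ 2 * T))
            ≤ q * E ^ 2 * (8 * (q * n ^ 2 * m)) := mul_le_mul_of_nonneg_left s2 (by positivity)
          _ = E ^ 2 * (8 * q ^ 2 * n ^ 2 * m) := by ring
          _ ≤ T * (4 * m) * (8 * q ^ 2 * n ^ 2 * m) :=
              mul_le_mul_of_nonneg_right s3 (by positivity)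
          _ = q ^ 2 * T * (32 * n ^ 2 * m ^ 2) := by ring
          _ ≤ 2 * A * (32 * n ^ 2 * m ^ 2) := mul_le_mul_of_nonneg_right s4 (by positivity)
          _ = A * (64 * n ^ 2 * m ^ 2) := by ring
      have hprod : E ^ 2 / (32 * n ^ 2 * m) * (q * E ^ 2 / (64 * n ^ 2 * m ^ 2)) ^ (a - 1) ≤
          K2 * K3 ^ (a - 1) := by
        apply mul_le_mul hK2low (pow_le_pow_left₀ (by positivity) hK3low _) (by positivity)
          hK2p.le
      refine lt_of_lt_of_le ?_ hprod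
      rw [div_pow, div_mul_div_comm, div_lt_div_iff₀ (by positivity) (by positivity)]
      obtain ⟨b, rfl⟩ : ∃ b, a = b + 1 := ⟨a - 1, by omega⟩
      simp only [Nat.add_sub_cancel] at g1 ⊢
      have e1 : 2 * (b + 1) - 1 = 2 * b + 1 := by omega
      rw [e1] at g1
      have e2 : C * (32 * n ^ 2 * m * (64 * n ^ 2 * m ^ 2) ^ b) =
          (C * n ^ (2 * (b + 1)) * m ^ (2 * b + 1)) * (32 * 64 ^ b) := by
        rw [mul_pow, mul_pow, ← pow_mul, ← pow_mul]
        ring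
      have e3 : E ^ 2 * (q * E ^ 2) ^ b * (32 * 64 ^ b) =
          (E ^ (2 * (b + 1)) * q ^ b) * (32 * 64 ^ b) := by
        rw [mul_pow, ← pow_mul]
        ring
      rw [e2, e3]
      exact mul_lt_mul_of_pos_right g1 (by positivity)
    · -- dense case
      have hK3low : 1 / 16 ≤ K3 := by
        rw [hK3, div_le_div_iff₀ (by positivity) (by positivity)]
        have s2 : q * n ^ 2 * m ≤ q ^ 2 * T := by
          have := mul_le_mul_of_nonneg_left hcase hq0.le
          have e1 : q * (q * T) = q ^ 2 * T := by ring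
          have e2 : q * (n ^ 2 * m) = q * n ^ 2 * m := by ring
          linarith
        have s3 : q ^ 2 * T ≤ 2 * A := by linarith
        linarith
      have hprod : E ^ 2 / (32 * n ^ 2 * m) * (1 / 16) ^ (a - 1) ≤ K2 * K3 ^ (a - 1) := by
        apply mul_le_mul hK2low (pow_le_pow_left₀ (by positivity) hK3low _) (by positivity)
          hK2p.le
      have h5 : C / 32 < E ^ 2 / (32 * n ^ 2 * m) := by
        rw [div_lt_div_iff₀ (by positivity) (by positivity)]
        linarith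
      have h6 : (1 / 64 : ℝ) ^ (a - 1) ≤ (1 / 16) ^ (a - 1) :=
        pow_le_pow_left₀ (by norm_num) (by norm_num) _
      have hC0 : 0 ≤ C := le_trans (by positivity) hCr
      calc C / (32 * 64 ^ (a - 1)) = C / 32 * (1 / 64) ^ (a - 1) := by
            rw [div_pow, one_pow]; field_simp
        _ ≤ C / 32 * (1 / 16) ^ (a - 1) := mul_le_mul_of_nonneg_left h6 (by positivity)
        _ < E ^ 2 / (32 * n ^ 2 * m) * (1 / 16) ^ (a - 1) :=
            mul_lt_mul_of_pos_right h5 (by positivity)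
        _ ≤ _ := hprod
  have hCb' : 2 ^ (a + 1) * (c : ℝ) ≤ C / (32 * 64 ^ (a - 1)) := by
    rw [le_div_iff₀ (by positivity)]
    linarith
  linarith

theorem core (a r c : ℕ) (ha : 1 ≤ a) (hra : r ≤ 2 * a) :
    ∃ C : ℝ, 1 ≤ C ∧ ∀ (F : Type) [Field F] [Fintype F] [DecidableEq F] (k : ℕ)
      (X Y : Finset (Fin k → F)), 2 * r ≤ Fintype.card F → 1 ≤ k → IsPts X →
      (∀ y ∈ Y, y ≠ 0) →
      (∀ A ⊆ X, A.card = r → (Y.filter (fun y => ∀ x ∈ A, x ⬝ᵥ y = 0)).card ≤ c) →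
      ∀ n m q E : ℝ, n = X.card → m = Y.card → q = Fintype.card F →
      E = ∑ y ∈ Y, ((X.filter (fun x => x ⬝ᵥ y = 0)).card : ℝ) →
      C * n ^ (2 * a) * m ^ (2 * a - 1) < E ^ (2 * a) * q ^ (a - 1) →
      C * m ^ 2 * q ^ (k - 1) < E ^ 2 * q ^ 2 →
      C * n ^ 2 * m < E ^ 2 → C * m < E → False := by
  refine ⟨4 + 4 * c + 128 * a * r ^ 2 + 32 * 64 ^ (a - 1) * (2 ^ (a + 1) * c), ?_, ?_⟩
  · have : (0 : ℝ) ≤ 4 * c + 128 * a * r ^ 2 + 32 * 64 ^ (a - 1) * (2 ^ (a + 1) * c) := by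
      positivity
    linarith
  intro F _ _ _ k X Y hq hk hX hY hK n m q E hn hm hqe hE g1 g2 g3 g4
  obtain ⟨C, hC⟩ : ∃ C : ℝ, C = 4 + 4 * c + 128 * a * r ^ 2 +
    32 * 64 ^ (a - 1) * (2 ^ (a + 1) * c) := ⟨_, rfl⟩
  rw [← hC] at g1 g2 g3 g4
  have p1 : (0 : ℝ) ≤ 4 * c := by positivity
  have p2 : (0 : ℝ) ≤ 128 * a * r ^ 2 := by positivity
  have p3 : (0 : ℝ) ≤ 32 * 64 ^ (a - 1) * (2 ^ (a + 1) * c) := by positivity
  have hC4 : 4 ≤ C := by linarith
  have hCc : 4 * (c : ℝ) ≤ C := by linarith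
  have hCr : 128 * (a : ℝ) * r ^ 2 ≤ C := by linarith
  have hCb : 32 * 64 ^ (a - 1) * (2 ^ (a + 1) * (c : ℝ)) ≤ C := by linarith
  clear hC p1 p2 p3
  have hn0 : 0 ≤ n := by rw [hn]; positivity
  have hm0 : 0 ≤ m := by rw [hm]; positivity
  have hq0 : 0 < q := by
    rw [hqe]
    have : 0 < Fintype.card F := Fintype.card_pos
    exact_mod_cast this
  have hE0 : 0 < E := lt_of_le_of_lt (by positivity) g4
  have hmpos : 0 < m := by
    rcases hm0.lt_or_eq with h | h
    · exact h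
    · exfalso
      have hYe : Y = ∅ := by
        rw [← card_eq_zero]
        have : (Y.card : ℝ) = 0 := by rw [← hm, ← h]
        exact_mod_cast this
      rw [hYe] at hE
      simp at hE
      linarith
  have hnpos : 0 < n := by
    rcases hn0.lt_or_eq with h | h
    · exact h
    · exfalso
      have hXe : X = ∅ := by
        rw [← card_eq_zero]
        have : (X.card : ℝ) = 0 := by rw [← hn, ← h]
        exact_mod_cast this
      rw [hXe] at hE
      simp at hE
      linarith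
  obtain ⟨T, hT⟩ : ∃ T : ℝ, T = ∑ p ∈ poor X r, (codeg Y p : ℝ) := ⟨_, rfl⟩
  have hTlow : E ^ 2 / (4 * m) ≤ T := by
    rw [hm, hT]
    refine poor_lower hK hE (by rw [← hm]; exact hmpos) ?_ ?_
    · rw [← hm]
      have := mul_le_mul_of_nonneg_right hC4 hmpos.le
      linarith
    · rw [← hm, ← hn]
      have : 4 * (c : ℝ) * (n ^ 2 * m) ≤ C * (n ^ 2 * m) :=
        mul_le_mul_of_nonneg_right hCc (by positivity)
      linarith
  have hTpos : 0 < T := lt_of_lt_of_le (by positivity) hTlow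
  -- the four sums
  obtain ⟨A, hA⟩ : ∃ A : ℝ, A = ∑ v, inc X Y r v := ⟨_, rfl⟩
  have hAlow : q ^ 2 / 2 * T ≤ A := by
    rw [hqe, hT, hA]; exact sum_inc_lower hX hq
  have hApos : 0 < A := lt_of_lt_of_le (by positivity) hAlow
  have hpoor : ((poor X r).card : ℝ) ≤ n ^ 2 := by
    have : (poor X r).card ≤ X.card * X.card := by
      classical
      calc (poor X r).card ≤ (X ×ˢ X).card := card_le_card (by
              intro p hp
              obtain ⟨a1, a2, _, _⟩ := mem_poor.mp hp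
              exact mem_product.mpr ⟨a1, a2⟩)
        _ = _ := card_product _ _
    calc ((poor X r).card : ℝ) ≤ ((X.card * X.card : ℕ) : ℝ) := by exact_mod_cast this
      _ = n ^ 2 := by rw [hn]; push_cast; ring
  have hB1 : ∑ v, ((hyp Y v).card : ℝ) ≤ m * q ^ (k - 1) := by
    rw [sum_hyp hY hk, hm, hqe]
  have hB2 : ∑ v, ((secants X r v).card : ℝ) ≤ q ^ 2 * n ^ 2 := by
    refine (sum_secants X r).trans ?_
    rw [← hqe]
    exact mul_le_mul_of_nonneg_left hpoor (by positivity)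
  have hB3 : ∑ v, ((secants X r v).card : ℝ) * (hyp Y v).card ≤ q * n ^ 2 * m + q ^ 2 * T := by
    refine (sum_secants_hyp X Y r).trans ?_
    rw [← hqe, ← hm, ← hT]
    have : q * ((poor X r).card : ℝ) * m ≤ q * n ^ 2 * m := by
      apply mul_le_mul_of_nonneg_right _ hmpos.le
      exact mul_le_mul_of_nonneg_left hpoor hq0.le
    linarith
  obtain ⟨v, hv⟩ := exists_point r hA hApos (B1 := m * q ^ (k - 1)) (B2 := q ^ 2 * n ^ 2)
    (B3 := q * n ^ 2 * m + q ^ 2 * T) (by positivity) (by positivity) (by positivity) hB1 hB2 hB3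
  have he0 : 0 < inc X Y r v := lt_of_le_of_lt (by positivity) hv
  have hhpos : 0 < ((hyp Y v).card : ℝ) := by
    have hne : (hyp Y v).card ≠ 0 := by
      intro h'
      rw [card_eq_zero] at h'
      rw [inc, h'] at he0
      simp at he0
    exact_mod_cast Nat.pos_of_ne_zero hne
  have hgpos : 0 < ((secants X r v).card : ℝ) := by
    have hne : (secants X r v).card ≠ 0 := by
      intro h'
      rw [card_eq_zero] at h'
      rw [inc, h'] at he0
      simp at he0
    exact_mod_cast Nat.pos_of_ne_zero hne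
  exact real_core a r c k ha hCr hCb hnpos hmpos hq0 hE0 hTpos hApos hhpos hgpos he0 g1 g2 g3
    hTlow hAlow rfl rfl rfl hv (inc_le hX ha hra hK v)

end Pool.Agent.Lib.MP_9a747a_co_h56
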