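import Mathlib
import Pool.Agent.Lib.MP_9a747a_co_h56.Conflict

/-!
# Families of `b`-sets: cores and tuples of sets which are disjoint outside the core
-/

open Finset

set_option linter.unusedSectionVars false

namespace Pool.Agent.Lib.MP_9a747a_co_h56

variable {α : Type*} [DecidableEq α]

/-- members of the family containing `W` -/
def above (D : Finset (Finset α)) (W : Finset α) : Finset (Finset α) :=
  D.filter (fun T => W ⊆ T)

theorem mem_above {D : Finset (Finset α)} {W T : Finset α} : T ∈ above D W ↔ T ∈ D ∧ W ⊆ T := by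
  simp [above]

/-- `W` is a core of `D` -/
def IsCore (η : ℝ) (D : Finset (Finset α)) (W : Finset α) : Prop :=
  η ^ W.card * (D.card : ℝ) ≤ (above D W).card ∧ 0 < (above D W).card ∧
    ∀ w, w ∉ W → ((above D (insert w W)).card : ℝ) ≤ η * (above D W).card

theorem exists_core {η : ℝ} (hη : 0 < η) (D : Finset (Finset α)) (hD : D.Nonempty) :
    ∃ W, IsCore η D W := by
  classical
  -- candidates
  let C : Finset (Finset α) := (D.biUnion powerset).filter
    (fun W => η ^ W.card * (D.card : ℝ) ≤ (above D W).card)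
  have h0 : (∅ : Finset α) ∈ C := by
    obtain ⟨T, hT⟩ := hD
    simp only [C, mem_filter, mem_biUnion, mem_powerset]
    refine ⟨⟨T, hT, empty_subset _⟩, ?_⟩
    simp [above]
  obtain ⟨W, hW, hmax⟩ := exists_max_image C (fun W => W.card) ⟨∅, h0⟩
  have hW' := hW
  simp only [C, mem_filter, mem_biUnion, mem_powerset] at hW'
  obtain ⟨⟨T, hT, hWT⟩, hWη⟩ := hW'
  have hpos : 0 < (above D W).card := card_pos.mpr ⟨T, mem_above.mpr ⟨hT, hWT⟩⟩
  refine ⟨W, hWη, hpos, ?_⟩
  intro w hw
  by_contra hcon
  push Not at hcon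
  have hposR : (0 : ℝ) < (above D W).card := by exact_mod_cast hpos
  have h1 : (0 : ℝ) < (above D (insert w W)).card := lt_trans (mul_pos hη hposR) hcon
  have h2 : 0 < (above D (insert w W)).card := by exact_mod_cast h1
  obtain ⟨T', hT'⟩ := card_pos.mp h2
  rw [mem_above] at hT'
  have hmem : insert w W ∈ C := by
    simp only [C, mem_filter, mem_biUnion, mem_powerset]
    refine ⟨⟨T', hT'.1, hT'.2⟩, ?_⟩
    rw [card_insert_of_notMem hw, pow_succ]
    calc η ^ W.card * η * (D.card : ℝ) = η * (η ^ W.card * D.card) := by ring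
      _ ≤ η * (above D W).card := mul_le_mul_of_nonneg_left hWη hη.le
      _ ≤ _ := hcon.le
  have := hmax _ hmem
  rw [card_insert_of_notMem hw] at this
  omega

/-- two members meet outside `W` -/
def meetOff (W : Finset α) (T T' : Finset α) : Prop := ∃ x ∈ T, x ∈ T' ∧ x ∉ W

theorem core_conf {η : ℝ} {D : Finset (Finset α)} {W : Finset α} {b : ℕ}
    (hη : 0 ≤ η) (hcore : IsCore η D W) (hb : ∀ T ∈ D, T.card = b) {T' : Finset α}
    (hT' : T' ∈ above D W) {S : Finset (Finset α)} (hS : S ⊆ above D W)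
    (hconf : ∀ T ∈ S, meetOff W T T') :
    (S.card : ℝ) ≤ b * η * (above D W).card := by
  classical
  have h1 : S ⊆ (T' \ W).biUnion (fun x => above D (insert x W)) := by
    intro T hT
    obtain ⟨x, hx, hx', hxW⟩ := hconf T hT
    rw [mem_biUnion]
    have hTD := mem_above.mp (hS hT)
    exact ⟨x, mem_sdiff.mpr ⟨hx', hxW⟩, mem_above.mpr ⟨hTD.1, insert_subset hx hTD.2⟩⟩
  have h2 : (S.card : ℝ) ≤ ∑ x ∈ T' \ W, ((above D (insert x W)).card : ℝ) := by
    have : S.card ≤ ∑ x ∈ T' \ W, (above D (insert x W)).card :=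
      (card_le_card h1).trans card_biUnion_le
    exact_mod_cast this
  have h3 : ∑ x ∈ T' \ W, ((above D (insert x W)).card : ℝ) ≤
      ∑ _x ∈ T' \ W, η * (above D W).card := by
    apply sum_le_sum
    intro x hx
    exact hcore.2.2 x (mem_sdiff.mp hx).2
  rw [sum_const, nsmul_eq_mul] at h3
  have h4 : ((T' \ W).card : ℝ) ≤ b := by
    have : (T' \ W).card ≤ b := by
      rw [← hb T' (mem_above.mp hT').1]
      exact card_le_card sdiff_subset
    exact_mod_cast this
  have h5 : 0 ≤ η * ((above D W).card : ℝ) := by positivity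
  calc (S.card : ℝ) ≤ _ := h2
    _ ≤ _ := h3
    _ ≤ b * (η * (above D W).card) := mul_le_mul_of_nonneg_right h4 h5
    _ = _ := by ring

/-- many tuples which are pairwise disjoint outside the core -/
theorem core_tuples {D : Finset (Finset α)} {W : Finset α} {a b : ℕ} (ha : 1 ≤ a) (hb1 : 1 ≤ b)
    (hcore : IsCore (1 / (2 * a * b : ℝ)) D W) (hb : ∀ T ∈ D, T.card = b) :
    (((above D W).card : ℝ) / 2) ^ a ≤ ((tuples (meetOff W) a (above D W)).card : ℝ) := by
  classical
  have haR : (1 : ℝ) ≤ a := by exact_mod_cast ha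
  have hbR : (1 : ℝ) ≤ b := by exact_mod_cast hb1
  set S := above D W with hS
  -- the number of conflicts
  have hconf : ∀ w' ∈ S, ∀ T : Finset (Finset α), T ⊆ S → (∀ w ∈ T, meetOff W w w') →
      T.card ≤ S.card / (2 * a) := by
    intro w' hw' T hT hTc
    have h := core_conf (by positivity) hcore hb hw' hT hTc
    rw [Nat.le_div_iff_mul_le (by omega)]
    have h2 : (T.card : ℝ) * (2 * a) ≤ S.card := by
      have h3 : (b : ℝ) * (1 / (2 * a * b)) * (S.card : ℝ) = S.card / (2 * a) := by
        field_simp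
      rw [h3, le_div_iff₀ (by positivity)] at h
      exact h
    exact_mod_cast h2
  have hlow := tuples_lower (meetOff W) S (S.card / (2 * a)) a hconf a le_rfl
  have h1 : a * (S.card / (2 * a)) * 2 ≤ S.card := by
    calc a * (S.card / (2 * a)) * 2 = (2 * a) * (S.card / (2 * a)) := by ring
      _ ≤ S.card := Nat.mul_div_le _ _
  have h2 : (((S.card - a * (S.card / (2 * a)) : ℕ) : ℝ)) ^ a ≤
      ((tuples (meetOff W) a S).card : ℝ) := by exact_mod_cast hlow
  refine le_trans (pow_le_pow_left₀ (by positivity) ?_ a) h2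
  rw [Nat.cast_sub (by omega)]
  have h3 : ((a * (S.card / (2 * a)) : ℕ) : ℝ) * 2 ≤ S.card := by exact_mod_cast h1
  linarith

/-- size of the union of a tuple which is pairwise disjoint outside `W` -/
theorem card_union_tuple {S : Finset (Finset α)} {W : Finset α} {a b : ℕ}
    (hS : ∀ T ∈ S, W ⊆ T ∧ T.card = b) {f : Fin a → Finset α}
    (hf : f ∈ tuples (meetOff W) a S) :
    (W ∪ univ.biUnion f).card = W.card + a * (b - W.card) := by
  classical
  rw [mem_tuples] at hf
  obtain ⟨hf1, hf2⟩ := hf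
  have hdis : ∀ i j : Fin a, i ≠ j → Disjoint (f i \ W) (f j \ W) := by
    intro i j hij
    rw [Finset.disjoint_left]
    intro x hx hx'
    rw [mem_sdiff] at hx hx'
    rcases lt_or_gt_of_ne hij with h | h
    · exact hf2 i j h ⟨x, hx.1, hx'.1, hx.2⟩
    · exact hf2 j i h ⟨x, hx'.1, hx.1, hx.2⟩
  have h1 : W ∪ univ.biUnion f = W ∪ univ.biUnion (fun i => f i \ W) := by
    ext x
    simp only [mem_union, mem_biUnion, mem_univ, true_and, mem_sdiff]
    constructor
    · rintro (h | ⟨i, hi⟩)
      · exact Or.inl h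
      · by_cases hx : x ∈ W
        · exact Or.inl hx
        · exact Or.inr ⟨i, hi, hx⟩
    · rintro (h | ⟨i, hi, _⟩)
      · exact Or.inl h
      · exact Or.inr ⟨i, hi⟩
  rw [h1, card_union_of_disjoint, card_biUnion]
  · congr 1
    rw [sum_congr rfl (fun i _ => by
      rw [card_sdiff_of_subset (hS _ (hf1 i)).1, (hS _ (hf1 i)).2])]
    simp
  · intro i _ j _ hij
    exact hdis i j hij
  · rw [Finset.disjoint_left]
    intro x hx hx'
    simp only [mem_biUnion, mem_univ, true_and, mem_sdiff] at hx'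
    obtain ⟨i, _, h⟩ := hx'
    exact h hx

end Pool.Agent.Lib.MP_9a747a_co_h56
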