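import Mathlib
import Pool.Agent.Lib.MP_9a747a_co_h56.Family

/-!
# Spans of finite sets of vectors over a finite field
-/

open Finset

set_option linter.unusedSectionVars false

namespace Pool.Agent.Lib.MP_9a747a_co_h56

variable {F : Type} [Field F] [Fintype F] [DecidableEq F] {k : ℕ}

/-- the span of a finite set of vectors -/
noncomputable def sp (T : Finset (Fin k → F)) : Submodule F (Fin k → F) :=
  Submodule.span F (T : Set (Fin k → F))

theorem sp_mono {T T' : Finset (Fin k → F)} (h : T ⊆ T') : sp T ≤ sp T' :=
  Submodule.span_mono (by exact_mod_cast h)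

theorem mem_sp {T : Finset (Fin k → F)} {x : Fin k → F} (h : x ∈ T) : x ∈ sp T :=
  Submodule.subset_span (by exact_mod_cast h)

/-- independence of a finite set -/
def Ind (T : Finset (Fin k → F)) : Prop := ∀ x ∈ T, x ∉ sp (T.erase x)

theorem Ind.linearIndependent {T : Finset (Fin k → F)} (h : Ind T) :
    LinearIndependent F (fun x : T => (x : Fin k → F)) := by
  classical
  rw [linearIndependent_iff_notMem_span]
  intro x hx
  apply h x x.2
  unfold sp
  refine Submodule.span_mono ?_ hx
  rintro z ⟨w, hw, rfl⟩
  simp only [Set.mem_sdiff, Set.mem_univ, Set.mem_singleton_iff, true_and] at hw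
  simp only [coe_erase, Set.mem_sdiff, mem_coe, Set.mem_singleton_iff]
  exact ⟨w.2, fun h' => hw (Subtype.ext h')⟩

theorem Ind.mono {T T' : Finset (Fin k → F)} (h : Ind T) (hs : T' ⊆ T) : Ind T' := by
  intro x hx hx'
  exact h x (hs hx) (sp_mono (erase_subset_erase x hs) hx')

theorem card_sp {T : Finset (Fin k → F)} (h : Ind T) [DecidablePred (fun v => v ∈ sp T)] :
    ((univ : Finset (Fin k → F)).filter (fun v => v ∈ sp T)).card =
      Fintype.card F ^ T.card := by
  classical
  have h1 : ((univ : Finset (Fin k → F)).filter (fun v => v ∈ sp T)).card =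
      Fintype.card (sp T) := by
    rw [Fintype.card_subtype]
  rw [h1, Module.card_eq_pow_finrank (K := F)]
  congr 1
  exact finrank_span_finset_eq_card h.linearIndependent

/-- `v` lies in the span of `T` but not in the span of a smaller subset -/
def Proper (T : Finset (Fin k → F)) (v : Fin k → F) : Prop :=
  v ∈ sp T ∧ ∀ x ∈ T, v ∉ sp (T.erase x)

open Classical in
theorem card_proper_le {T : Finset (Fin k → F)} (h : Ind T) :
    ((univ : Finset (Fin k → F)).filter (fun v => Proper T v)).card ≤
      Fintype.card F ^ T.card := by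
  rw [← card_sp h]
  apply card_le_card
  intro v hv
  simp only [mem_filter, mem_univ, true_and] at hv ⊢
  exact hv.1

open Classical in
theorem card_proper_ge {T : Finset (Fin k → F)} (h : Ind T) {b : ℕ} (hb : T.card = b)
    (hb1 : 1 ≤ b) (hq : 2 * b ≤ Fintype.card F) :
    (Fintype.card F : ℝ) ^ b / 2 ≤
      ((univ : Finset (Fin k → F)).filter (fun v => Proper T v)).card := by
  set q := Fintype.card F with hqdef
  have h1 : (univ : Finset (Fin k → F)).filter (fun v => v ∈ sp T) ⊆
      (univ : Finset (Fin k → F)).filter (fun v => Proper T v) ∪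
        T.biUnion (fun x => (univ : Finset (Fin k → F)).filter (fun v => v ∈ sp (T.erase x))) := by
    intro v hv
    simp only [mem_filter, mem_univ, true_and, mem_union, mem_biUnion] at hv ⊢
    by_cases hx : ∃ x ∈ T, v ∈ sp (T.erase x)
    · exact Or.inr hx
    · push Not at hx
      exact Or.inl ⟨hv, hx⟩
  have h2 : q ^ b ≤ ((univ : Finset (Fin k → F)).filter (fun v => Proper T v)).card +
      b * q ^ (b - 1) := by
    calc q ^ b = ((univ : Finset (Fin k → F)).filter (fun v => v ∈ sp T)).card := by
          rw [card_sp h, hb]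
      _ ≤ _ := card_le_card h1
      _ ≤ _ := card_union_le _ _
      _ ≤ ((univ : Finset (Fin k → F)).filter (fun v => Proper T v)).card +
        ∑ x ∈ T, ((univ : Finset (Fin k → F)).filter (fun v => v ∈ sp (T.erase x))).card :=
          Nat.add_le_add_left card_biUnion_le _
      _ = _ := by
          congr 1
          rw [sum_congr rfl (fun x hx => by
            rw [card_sp (h.mono (erase_subset x T)), card_erase_of_mem hx, hb]), sum_const,
            smul_eq_mul, hb]
  have h3 : 2 * (b * q ^ (b - 1)) ≤ q ^ b := by
    calc 2 * (b * q ^ (b - 1)) = (2 * b) * q ^ (b - 1) := by ring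
      _ ≤ q * q ^ (b - 1) := Nat.mul_le_mul_right _ hq
      _ = q ^ b := by rw [← pow_succ']; congr 1; omega
  have h4 : q ^ b ≤ 2 * ((univ : Finset (Fin k → F)).filter (fun v => Proper T v)).card := by
    omega
  have h5 : (q : ℝ) ^ b ≤
      2 * (((univ : Finset (Fin k → F)).filter (fun v => Proper T v)).card : ℝ) := by
    exact_mod_cast h4
  linarith

theorem dot_of_mem_sp {T : Finset (Fin k → F)} {x y : Fin k → F} (hx : x ∈ sp T)
    (h : ∀ z ∈ T, z ⬝ᵥ y = 0) : x ⬝ᵥ y = 0 := by
  unfold sp at hx
  induction hx using Submodule.span_induction with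
  | mem z hz => exact h z (by exact_mod_cast hz)
  | zero => exact zero_dotProduct y
  | add u v _ _ hu hv => rw [add_dotProduct, hu, hv, add_zero]
  | smul s u _ hu => rw [smul_dotProduct, hu, smul_zero]

open Classical in
theorem card_sp_perp {T : Finset (Fin k → F)} (h : Ind T) {b : ℕ} (hb : T.card = b)
    (hb1 : 1 ≤ b) {y : Fin k → F} (hy : ¬ ∀ z ∈ T, z ⬝ᵥ y = 0) :
    ((univ : Finset (Fin k → F)).filter (fun v => v ∈ sp T ∧ v ⬝ᵥ y = 0)).card ≤
      Fintype.card F ^ (b - 1) := by
  push Not at hy
  obtain ⟨x, hx, hxy⟩ := hy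
  have h1 : ((univ : Finset F) ×ˢ
      ((univ : Finset (Fin k → F)).filter (fun v => v ∈ sp T ∧ v ⬝ᵥ y = 0))).card ≤
      ((univ : Finset (Fin k → F)).filter (fun v => v ∈ sp T)).card := by
    apply card_le_card_of_injOn (fun p => p.2 + p.1 • x)
    · intro p hp
      have hp' := mem_product.mp (mem_coe.mp hp)
      simp only [mem_filter, mem_univ, true_and] at hp'
      apply mem_coe.mpr
      simp only [mem_filter, mem_univ, true_and]
      exact (sp T).add_mem hp'.1 ((sp T).smul_mem _ (mem_sp hx))
    · intro p hp p' hp' hpp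
      have h2 := mem_product.mp (mem_coe.mp hp)
      have h3 := mem_product.mp (mem_coe.mp hp')
      simp only [mem_filter, mem_univ, true_and] at h2 h3
      have h4 : p.2 + p.1 • x = p'.2 + p'.1 • x := hpp
      have h5 : (p.2 + p.1 • x) ⬝ᵥ y = (p'.2 + p'.1 • x) ⬝ᵥ y := by rw [h4]
      rw [add_dotProduct, add_dotProduct, h2.2, h3.2, smul_dotProduct, smul_dotProduct,
        zero_add, zero_add, smul_eq_mul, smul_eq_mul] at h5
      have h6 : p.1 = p'.1 := mul_right_cancel₀ hxy h5
      rw [h6] at h4
      exact Prod.ext h6 (add_right_cancel h4)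
  rw [card_product, card_univ, card_sp h, hb] at h1
  have h2 : Fintype.card F ^ b = Fintype.card F * Fintype.card F ^ (b - 1) := by
    rw [← pow_succ']; congr 1; omega
  rw [h2] at h1
  exact Nat.le_of_mul_le_mul_left h1 Fintype.card_pos

/-- if `W` is `T` minus one point then the span of `T` is spanned by `v` and `W` -/
theorem sp_eq_of_proper {T W : Finset (Fin k → F)} {v : Fin k → F} (hT : Proper T v)
    (hW : W ⊆ T) (hc : T.card = W.card + 1) : sp T = sp (insert v W) := by
  classical
  -- the missing point
  obtain ⟨x, hx⟩ : ∃ x, T \ W = {x} := by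
    rw [← card_eq_one, card_sdiff_of_subset hW]
    omega
  have hxT : x ∈ T := by
    have : x ∈ T \ W := by rw [hx]; exact mem_singleton_self x
    exact (mem_sdiff.mp this).1
  have hxW : x ∉ W := by
    have : x ∈ T \ W := by rw [hx]; exact mem_singleton_self x
    exact (mem_sdiff.mp this).2
  have hTx : T = insert x W := by
    ext z
    rw [mem_insert]
    constructor
    · intro hz
      by_cases hzW : z ∈ W
      · exact Or.inr hzW
      · left
        have : z ∈ T \ W := mem_sdiff.mpr ⟨hz, hzW⟩
        rw [hx, mem_singleton] at this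
        exact this
    · rintro (rfl | hz)
      · exact hxT
      · exact hW hz
  have hWe : T.erase x = W := by
    rw [hTx, erase_insert hxW]
  have hv := hT.1
  rw [hTx] at hv
  unfold sp at hv
  rw [coe_insert, Submodule.mem_span_insert] at hv
  obtain ⟨s, z, hz, hvz⟩ := hv
  have hs : s ≠ 0 := by
    intro h0
    apply hT.2 x hxT
    rw [hWe, hvz, h0, zero_smul, zero_add]
    exact hz
  apply le_antisymm
  · rw [hTx]
    unfold sp
    rw [Submodule.span_le]
    intro u hu
    rw [coe_insert, Set.mem_insert_iff] at hu
    rcases hu with rfl | hu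
    · have : u = s⁻¹ • v - s⁻¹ • z := by
        rw [hvz, smul_add, smul_smul, inv_mul_cancel₀ hs, one_smul]
        abel
      rw [SetLike.mem_coe, this]
      apply Submodule.sub_mem
      · exact Submodule.smul_mem _ _ (Submodule.subset_span (by simp))
      · refine Submodule.smul_mem _ _ (Submodule.span_mono ?_ hz)
        rw [coe_insert]; exact Set.subset_insert _ _
    · exact Submodule.subset_span (by rw [coe_insert]; exact Set.mem_insert_of_mem _ hu)
  · unfold sp
    rw [Submodule.span_le]
    intro u hu
    rw [coe_insert, Set.mem_insert_iff] at hu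
    rcases hu with rfl | hu
    · exact hT.1
    · exact Submodule.subset_span (by exact_mod_cast hW (by exact_mod_cast hu))

end Pool.Agent.Lib.MP_9a747a_co_h56
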