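import Mathlib
import Pool.Agent.Lib.MP_9a747a_co_h56.Spans
import Pool.Agent.Lib.MP_9a747a_co_h56.Counts

/-!
# Good `b`-sets, the family of a pair (vector, hyperplane) and the counting sums
-/

open Finset

set_option linter.unusedSectionVars false

namespace Pool.Agent.Lib.MP_9a747a_co_h56

variable {F : Type} [Field F] [Fintype F] [DecidableEq F] {k : ℕ}

/-- common neighbours -/
def nb (Y U : Finset (Fin k → F)) : Finset (Fin k → F) :=
  Y.filter (fun y => ∀ x ∈ U, x ⬝ᵥ y = 0)

theorem mem_nb {Y U : Finset (Fin k → F)} {y : Fin k → F} :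
    y ∈ nb Y U ↔ y ∈ Y ∧ ∀ x ∈ U, x ⬝ᵥ y = 0 := by simp [nb]

/-- the points of `X` on the hyperplane `y` -/
def on (X : Finset (Fin k → F)) (y : Fin k → F) : Finset (Fin k → F) :=
  X.filter (fun x => x ⬝ᵥ y = 0)

theorem mem_on {X : Finset (Fin k → F)} {x y : Fin k → F} :
    x ∈ on X y ↔ x ∈ X ∧ x ⬝ᵥ y = 0 := by simp [on]

/-- fewer than `r` points of `X` in the span of `T` -/
def Thin (X : Finset (Fin k → F)) (r : ℕ) (T : Finset (Fin k → F)) : Prop :=
  ∀ S : Finset (Fin k → F), S ⊆ X → (∀ x ∈ S, x ∈ sp T) → S.card < r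

open Classical in
/-- good `b`-sets -/
noncomputable def good (X : Finset (Fin k → F)) (r b : ℕ) : Finset (Finset (Fin k → F)) :=
  (X.powersetCard b).filter (fun T => Ind T ∧ Thin X r T)

theorem mem_good {X : Finset (Fin k → F)} {r b : ℕ} {T : Finset (Fin k → F)} :
    T ∈ good X r b ↔ (T ⊆ X ∧ T.card = b) ∧ Ind T ∧ Thin X r T := by
  simp [good, mem_powersetCard]

open Classical in
/-- the good sets on the hyperplane `y` properly spanning `v` -/
noncomputable def fam (X : Finset (Fin k → F)) (r b : ℕ) (v y : Fin k → F) :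
    Finset (Finset (Fin k → F)) :=
  (good X r b).filter (fun T => Proper T v ∧ ∀ x ∈ T, x ⬝ᵥ y = 0)

theorem mem_fam {X : Finset (Fin k → F)} {r b : ℕ} {v y : Fin k → F}
    {T : Finset (Fin k → F)} : T ∈ fam X r b v y ↔
      T ∈ good X r b ∧ Proper T v ∧ ∀ x ∈ T, x ⬝ᵥ y = 0 := by
  simp [fam]

/-- the core of a big family is small -/
theorem core_small {X : Finset (Fin k → F)} {a b r : ℕ} (ha : 1 ≤ a) (hb : 2 ≤ b) (hr : 1 ≤ r)
    {v y : Fin k → F} {W : Finset (Fin k → F)}
    (hW : IsCore (1 / (2 * a * b : ℝ)) (fam X r b v y) W)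
    (hbig : (r : ℝ) * (2 * a * b) ^ b < (fam X r b v y).card) : W.card + 2 ≤ b := by
  classical
  have haR : (1 : ℝ) ≤ a := by exact_mod_cast ha
  have hbR : (2 : ℝ) ≤ b := by exact_mod_cast hb
  have hrR : (1 : ℝ) ≤ r := by exact_mod_cast hr
  obtain ⟨h1, h2, _⟩ := hW
  have hab : (1 : ℝ) ≤ 2 * a * b := by nlinarith
  -- the core inequality in another form
  have h3 : ((fam X r b v y).card : ℝ) ≤ (2 * a * b) ^ W.card * (above (fam X r b v y) W).card := by
    have : (1 / (2 * a * b : ℝ)) ^ W.card * ((2 * a * b) ^ W.card) = 1 := by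
      rw [← mul_pow]
      have : (1 / (2 * a * b : ℝ)) * (2 * a * b) = 1 := by
        field_simp
      rw [this, one_pow]
    calc ((fam X r b v y).card : ℝ) = (1 / (2 * a * b : ℝ)) ^ W.card * ((2 * a * b) ^ W.card) *
          (fam X r b v y).card := by rw [this, one_mul]
      _ = (2 * a * b) ^ W.card * ((1 / (2 * a * b : ℝ)) ^ W.card * (fam X r b v y).card) := by ring
      _ ≤ _ := mul_le_mul_of_nonneg_left h1 (by positivity)
  obtain ⟨T0, hT0⟩ := card_pos.mp h2
  have hT0' := mem_above.mp hT0
  have hT0f := mem_fam.mp hT0'.1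
  have hT0g := mem_good.mp hT0f.1
  have hWle : W.card ≤ b := by
    rw [← hT0g.1.2]; exact card_le_card hT0'.2
  -- bound for the number of members above the core
  have hkey : b ≤ W.card + 1 → ((above (fam X r b v y) W).card : ℝ) ≤ r := by
    intro hge
    rcases Nat.lt_or_ge W.card b with hlt | hge2
    · -- one point missing
      have hWc : W.card + 1 = b := by omega
      have hsp : ∀ T ∈ above (fam X r b v y) W, sp T = sp (insert v W) := by
        intro T hT
        have hT' := mem_above.mp hT
        have hTf := mem_fam.mp hT'.1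
        have hTg := mem_good.mp hTf.1
        exact sp_eq_of_proper hTf.2.1 hT'.2 (by rw [hTg.1.2, hWc])
      set S := X.filter (fun x => x ∈ sp T0) with hS
      have hSr : S.card < r := hT0g.2.2 S (filter_subset _ _) (fun x hx => (mem_filter.mp hx).2)
      have hle : (above (fam X r b v y) W).card ≤ S.card := by
        have : above (fam X r b v y) W ⊆ S.image (fun x => insert x W) := by
          intro T hT
          have hT' := mem_above.mp hT
          have hTf := mem_fam.mp hT'.1
          have hTg := mem_good.mp hTf.1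
          obtain ⟨x, hx⟩ : ∃ x, T \ W = {x} := by
            rw [← card_eq_one, card_sdiff_of_subset hT'.2, hTg.1.2]
            omega
          have hxT : x ∈ T ∧ x ∉ W := by
            have : x ∈ T \ W := by rw [hx]; exact mem_singleton_self x
            exact mem_sdiff.mp this
          rw [mem_image]
          refine ⟨x, ?_, ?_⟩
          · rw [hS, mem_filter]
            refine ⟨hTg.1.1 hxT.1, ?_⟩
            rw [hsp T0 hT0, ← hsp T hT]
            exact mem_sp hxT.1
          · ext z
            rw [mem_insert]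
            constructor
            · rintro (rfl | hz)
              · exact hxT.1
              · exact hT'.2 hz
            · intro hz
              by_cases hzW : z ∈ W
              · exact Or.inr hzW
              · left
                have : z ∈ T \ W := mem_sdiff.mpr ⟨hz, hzW⟩
                rw [hx, mem_singleton] at this
                exact this
        exact (card_le_card this).trans card_image_le
      have : (above (fam X r b v y) W).card ≤ r := by omega
      exact_mod_cast this
    · have hWc : W.card = b := le_antisymm hWle hge2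
      have hle : (above (fam X r b v y) W).card ≤ 1 := by
        rw [card_le_one]
        have : ∀ T ∈ above (fam X r b v y) W, T = W := by
          intro T hT
          have hT' := mem_above.mp hT
          have hTg := mem_good.mp (mem_fam.mp hT'.1).1
          exact (eq_of_subset_of_card_le hT'.2 (by rw [hTg.1.2, hWc])).symm
        intro T hT T' hT'
        rw [this T hT, this T' hT']
      have : (above (fam X r b v y) W).card ≤ r := by omega
      exact_mod_cast this
  by_contra hcon
  have h4 := hkey (by omega)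
  have h5 : (2 * a * b : ℝ) ^ W.card ≤ (2 * a * b) ^ b := pow_le_pow_right₀ hab hWle
  have h6 : ((fam X r b v y).card : ℝ) ≤ (2 * a * b) ^ b * r := by
    calc _ ≤ _ := h3
      _ ≤ (2 * a * b) ^ W.card * r := mul_le_mul_of_nonneg_left h4 (by positivity)
      _ ≤ _ := mul_le_mul_of_nonneg_right h5 (by positivity)
  linarith

open Classical in
/-- good sets above `W` properly spanning `v` -/
noncomputable def gset (X : Finset (Fin k → F)) (r b : ℕ) (v : Fin k → F)
    (W : Finset (Fin k → F)) : Finset (Finset (Fin k → F)) :=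
  (good X r b).filter (fun T => Proper T v ∧ W ⊆ T)

/-- hyperplanes through `v` and `W` -/
def yset (Y : Finset (Fin k → F)) (v : Fin k → F) (W : Finset (Fin k → F)) :
    Finset (Fin k → F) :=
  Y.filter (fun y => v ⬝ᵥ y = 0 ∧ ∀ x ∈ W, x ⬝ᵥ y = 0)

/-- first sum -/
theorem sum_fam (X Y : Finset (Fin k → F)) {r b : ℕ} (hb : 1 ≤ b)
    (hq : 2 * b ≤ Fintype.card F) :
    (Fintype.card F : ℝ) ^ b / 2 * ∑ T ∈ good X r b, ((nb Y T).card : ℝ) ≤
      ∑ v, ∑ y ∈ Y, ((fam X r b v y).card : ℝ) := by
  classical
  have h1 : ∑ v, ∑ y ∈ Y, ((fam X r b v y).card : ℝ) = ∑ T ∈ good X r b,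
      (((univ : Finset (Fin k → F)).filter (fun v => Proper T v)).card : ℝ) *
        ((nb Y T).card : ℝ) := by
    have h2 : ∀ v y : Fin k → F, ((fam X r b v y).card : ℝ) = ∑ T ∈ good X r b,
        (if Proper T v then (1 : ℝ) else 0) * (if (∀ x ∈ T, x ⬝ᵥ y = 0) then 1 else 0) := by
      intro v y
      unfold fam
      rw [card_filter]
      push_cast
      apply sum_congr rfl
      intro T _
      by_cases h1 : Proper T v <;> by_cases h2 : ∀ x ∈ T, x ⬝ᵥ y = 0 <;> simp [h1, h2]
    have h3 : ∀ v : Fin k → F, ∑ y ∈ Y, ((fam X r b v y).card : ℝ) = ∑ T ∈ good X r b,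
        (if Proper T v then (1 : ℝ) else 0) * ((nb Y T).card : ℝ) := by
      intro v
      rw [sum_congr rfl (fun y _ => h2 v y), sum_comm]
      apply sum_congr rfl
      intro T _
      rw [← mul_sum]
      congr 1
      unfold nb
      rw [card_filter]
      push_cast
      rfl
    rw [sum_congr rfl (fun v _ => h3 v), sum_comm]
    apply sum_congr rfl
    intro T _
    rw [← sum_mul]
    congr 1
    rw [card_filter]
    push_cast
    rfl
  rw [h1, mul_sum]
  apply sum_le_sum
  intro T hT
  have hTg := mem_good.mp hT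
  exact mul_le_mul_of_nonneg_right (card_proper_ge hTg.2.1 hTg.1.2 hb hq) (by positivity)

theorem card_good_le (X : Finset (Fin k → F)) (r b : ℕ) :
    (good X r b).card ≤ X.card ^ b := by
  classical
  calc (good X r b).card ≤ (X.powersetCard b).card := by unfold good; exact card_filter_le _ _
    _ = X.card.choose b := card_powersetCard _ _
    _ ≤ X.card ^ b := Nat.choose_le_pow _ _

/-- second sum -/
theorem sum_gset (X : Finset (Fin k → F)) (r b j : ℕ) :
    ∑ p ∈ (univ : Finset (Fin k → F)) ×ˢ X.powersetCard j, ((gset X r b p.1 p.2).card : ℝ) ≤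
      2 ^ b * (Fintype.card F : ℝ) ^ b * (X.card : ℝ) ^ b := by
  classical
  have h1 : ∑ p ∈ (univ : Finset (Fin k → F)) ×ˢ X.powersetCard j, (gset X r b p.1 p.2).card =
      ∑ T ∈ good X r b, (((univ : Finset (Fin k → F)) ×ˢ X.powersetCard j).filter
        (fun p => Proper T p.1 ∧ p.2 ⊆ T)).card := by
    unfold gset
    simp only [card_filter]
    rw [sum_comm]
  have h2 : ∑ T ∈ good X r b, (((univ : Finset (Fin k → F)) ×ˢ X.powersetCard j).filter
        (fun p => Proper T p.1 ∧ p.2 ⊆ T)).card ≤
      ∑ _T ∈ good X r b, Fintype.card F ^ b * 2 ^ b := by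
    apply sum_le_sum
    intro T hT
    have hTg := mem_good.mp hT
    calc (((univ : Finset (Fin k → F)) ×ˢ X.powersetCard j).filter
        (fun p => Proper T p.1 ∧ p.2 ⊆ T)).card
        ≤ (((univ : Finset (Fin k → F)).filter (fun v => Proper T v)) ×ˢ T.powerset).card := by
          apply card_le_card
          intro p hp
          simp only [mem_filter, mem_product, mem_univ, true_and, mem_powerset] at hp ⊢
          exact ⟨hp.2.1, hp.2.2⟩
      _ = ((univ : Finset (Fin k → F)).filter (fun v => Proper T v)).card * 2 ^ b := by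
          rw [card_product, card_powerset, hTg.1.2]
      _ ≤ Fintype.card F ^ b * 2 ^ b := by
          apply Nat.mul_le_mul_right
          rw [← hTg.1.2]
          exact card_proper_le hTg.2.1
  rw [sum_const, smul_eq_mul] at h2
  have h3 : ∑ p ∈ (univ : Finset (Fin k → F)) ×ˢ X.powersetCard j, (gset X r b p.1 p.2).card ≤
      X.card ^ b * (Fintype.card F ^ b * 2 ^ b) := by
    rw [h1]
    exact h2.trans (Nat.mul_le_mul_right _ (card_good_le X r b))
  have h4 : ((∑ p ∈ (univ : Finset (Fin k → F)) ×ˢ X.powersetCard j,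
      (gset X r b p.1 p.2).card : ℕ) : ℝ) ≤
      ((X.card ^ b * (Fintype.card F ^ b * 2 ^ b) : ℕ) : ℝ) := by exact_mod_cast h3
  push_cast at h4
  linarith

/-- third sum -/
theorem sum_gset_yset (X Y : Finset (Fin k → F)) {r b j : ℕ} (hb : 1 ≤ b) :
    ∑ p ∈ (univ : Finset (Fin k → F)) ×ˢ X.powersetCard j,
      ((gset X r b p.1 p.2).card : ℝ) * ((yset Y p.1 p.2).card : ℝ) ≤
      (Fintype.card F : ℝ) ^ (b - 1) * (X.card : ℝ) ^ (b - j) *
        ∑ y ∈ Y, ((on X y).card : ℝ) ^ j +
      2 ^ b * (Fintype.card F : ℝ) ^ b * ∑ T ∈ good X r b, ((nb Y T).card : ℝ) := by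
  classical
  set q := Fintype.card F with hq
  -- rearrangement
  have h1 : ∑ p ∈ (univ : Finset (Fin k → F)) ×ˢ X.powersetCard j,
      (gset X r b p.1 p.2).card * (yset Y p.1 p.2).card =
      ∑ T ∈ good X r b, ∑ W ∈ (X.powersetCard j).filter (fun W => W ⊆ T), ∑ y ∈ nb Y W,
        ((univ : Finset (Fin k → F)).filter (fun v => Proper T v ∧ v ⬝ᵥ y = 0)).card := by
    have e1 : ∀ v : Fin k → F, ∀ W : Finset (Fin k → F),
        (gset X r b v W).card * (yset Y v W).card =
        ∑ T ∈ good X r b, ∑ y ∈ Y, (if W ⊆ T then (if (∀ x ∈ W, x ⬝ᵥ y = 0) then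
          (if Proper T v ∧ v ⬝ᵥ y = 0 then 1 else 0) else 0) else 0) := by
      intro v W
      unfold gset yset
      rw [card_filter, card_filter, sum_mul_sum]
      apply sum_congr rfl
      intro T _
      apply sum_congr rfl
      intro y _
      by_cases h1 : Proper T v <;> by_cases h2 : W ⊆ T <;> by_cases h3 : v ⬝ᵥ y = 0 <;>
        by_cases h4 : ∀ x ∈ W, x ⬝ᵥ y = 0 <;> simp [h1, h2, h3, h4]
    rw [sum_product, sum_congr rfl (fun v _ => sum_congr rfl (fun W _ => e1 v W))]
    -- sum over v inside
    rw [sum_comm]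
    have e2 : ∀ W ∈ X.powersetCard j, ∑ v : Fin k → F, ∑ T ∈ good X r b, ∑ y ∈ Y,
        (if W ⊆ T then (if (∀ x ∈ W, x ⬝ᵥ y = 0) then
          (if Proper T v ∧ v ⬝ᵥ y = 0 then 1 else 0) else 0) else 0) =
        ∑ T ∈ good X r b, (if W ⊆ T then ∑ y ∈ nb Y W,
          ((univ : Finset (Fin k → F)).filter (fun v => Proper T v ∧ v ⬝ᵥ y = 0)).card else 0) := by
      intro W _
      rw [sum_comm]
      apply sum_congr rfl
      intro T _
      by_cases h : W ⊆ T
      · simp only [h, if_true]
        rw [sum_comm]
        unfold nb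
        rw [sum_filter]
        apply sum_congr rfl
        intro y _
        split_ifs with h2
        · rw [card_filter]
        · simp
      · simp [h]
    rw [sum_congr rfl e2, sum_comm]
    apply sum_congr rfl
    intro T _
    rw [sum_filter]
  -- the bound for one term
  have h2 : ∀ T ∈ good X r b, ∀ W ∈ (X.powersetCard j).filter (fun W => W ⊆ T), ∑ y ∈ nb Y W,
        ((univ : Finset (Fin k → F)).filter (fun v => Proper T v ∧ v ⬝ᵥ y = 0)).card ≤
        q ^ (b - 1) * (nb Y W).card + q ^ b * (nb Y T).card := by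
    intro T hT W hW
    have hTg := mem_good.mp hT
    have hWT : W ⊆ T := (mem_filter.mp hW).2
    calc ∑ y ∈ nb Y W,
        ((univ : Finset (Fin k → F)).filter (fun v => Proper T v ∧ v ⬝ᵥ y = 0)).card
        ≤ ∑ y ∈ nb Y W, (q ^ (b - 1) + if (∀ x ∈ T, x ⬝ᵥ y = 0) then q ^ b else 0) := by
          apply sum_le_sum
          intro y _
          split_ifs with h
          · calc _ ≤ ((univ : Finset (Fin k → F)).filter (fun v => Proper T v)).card := by
                  apply card_le_card
                  intro v hv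
                  simp only [mem_filter, mem_univ, true_and] at hv ⊢
                  exact hv.1
              _ ≤ q ^ b := by
                  have := card_proper_le hTg.2.1
                  rw [hTg.1.2] at this
                  exact this
              _ ≤ _ := Nat.le_add_left _ _
          · calc _ ≤ ((univ : Finset (Fin k → F)).filter
                  (fun v => v ∈ sp T ∧ v ⬝ᵥ y = 0)).card := by
                  apply card_le_card
                  intro v hv
                  simp only [mem_filter, mem_univ, true_and] at hv ⊢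
                  exact ⟨hv.1.1, hv.2⟩
              _ ≤ q ^ (b - 1) := card_sp_perp hTg.2.1 hTg.1.2 hb h
              _ ≤ _ := by simp
      _ = q ^ (b - 1) * (nb Y W).card + q ^ b * (nb Y T).card := by
          rw [sum_add_distrib, sum_const, smul_eq_mul, ← sum_filter, sum_const, smul_eq_mul]
          have : (nb Y W).filter (fun y => ∀ x ∈ T, x ⬝ᵥ y = 0) = nb Y T := by
            ext y
            simp only [mem_filter, mem_nb]
            constructor
            · rintro ⟨⟨h1, _⟩, h3⟩; exact ⟨h1, h3⟩
            · rintro ⟨h1, h3⟩; exact ⟨⟨h1, fun x hx => h3 x (hWT hx)⟩, h3⟩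
          rw [this]; ring
  have h3 : ∑ T ∈ good X r b, ∑ W ∈ (X.powersetCard j).filter (fun W => W ⊆ T), ∑ y ∈ nb Y W,
        ((univ : Finset (Fin k → F)).filter (fun v => Proper T v ∧ v ⬝ᵥ y = 0)).card ≤
        q ^ (b - 1) * ∑ T ∈ good X r b, ∑ W ∈ (X.powersetCard j).filter (fun W => W ⊆ T),
          (nb Y W).card + 2 ^ b * q ^ b * ∑ T ∈ good X r b, (nb Y T).card := by
    calc _ ≤ ∑ T ∈ good X r b, ∑ W ∈ (X.powersetCard j).filter (fun W => W ⊆ T),
          (q ^ (b - 1) * (nb Y W).card + q ^ b * (nb Y T).card) :=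
          sum_le_sum (fun T hT => sum_le_sum (fun W hW => h2 T hT W hW))
      _ = q ^ (b - 1) * ∑ T ∈ good X r b, ∑ W ∈ (X.powersetCard j).filter (fun W => W ⊆ T),
          (nb Y W).card + ∑ T ∈ good X r b,
          ((X.powersetCard j).filter (fun W => W ⊆ T)).card * (q ^ b * (nb Y T).card) := by
          rw [mul_sum, ← sum_add_distrib]
          apply sum_congr rfl
          intro T _
          rw [sum_add_distrib, sum_const, smul_eq_mul, mul_sum]
      _ ≤ _ := by
          apply Nat.add_le_add_left
          rw [mul_sum]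
          apply sum_le_sum
          intro T hT
          have hTg := mem_good.mp hT
          have : ((X.powersetCard j).filter (fun W => W ⊆ T)).card ≤ 2 ^ b := by
            calc _ ≤ T.powerset.card := by
                  apply card_le_card
                  intro W hW
                  exact mem_powerset.mpr (mem_filter.mp hW).2
              _ = 2 ^ b := by rw [card_powerset, hTg.1.2]
          calc _ ≤ 2 ^ b * (q ^ b * (nb Y T).card) := Nat.mul_le_mul_right _ this
            _ = _ := by ring
  -- pairs W ⊆ T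
  have h4 : ∑ T ∈ good X r b, ∑ W ∈ (X.powersetCard j).filter (fun W => W ⊆ T),
      (nb Y W).card ≤ X.card ^ (b - j) * ∑ y ∈ Y, (on X y).card ^ j := by
    have e1 : ∑ T ∈ good X r b, ∑ W ∈ (X.powersetCard j).filter (fun W => W ⊆ T),
        (nb Y W).card = ∑ W ∈ X.powersetCard j, ((good X r b).filter (fun T => W ⊆ T)).card *
          (nb Y W).card := by
      simp only [sum_filter]
      rw [sum_comm]
      apply sum_congr rfl
      intro W _
      rw [← sum_filter, sum_const, smul_eq_mul]
    have e2 : ∀ W ∈ X.powersetCard j, ((good X r b).filter (fun T => W ⊆ T)).card ≤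
        X.card ^ (b - j) := by
      intro W hW
      have hW' := mem_powersetCard.mp hW
      calc ((good X r b).filter (fun T => W ⊆ T)).card
          ≤ (X.powersetCard (b - j)).card := by
            apply card_le_card_of_injOn (fun T => T \ W)
            · intro T hT
              have hT' := mem_filter.mp (mem_coe.mp hT)
              have hTg := mem_good.mp hT'.1
              apply mem_coe.mpr
              rw [mem_powersetCard]
              refine ⟨sdiff_subset.trans hTg.1.1, ?_⟩
              rw [card_sdiff_of_subset hT'.2, hTg.1.2, hW'.2]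
            · intro T hT T' hT' h
              have h1 := (mem_filter.mp (mem_coe.mp hT)).2
              have h2 := (mem_filter.mp (mem_coe.mp hT')).2
              have h' : T \ W = T' \ W := h
              rw [← sdiff_union_of_subset h1, ← sdiff_union_of_subset h2, h']
        _ = X.card.choose (b - j) := card_powersetCard _ _
        _ ≤ X.card ^ (b - j) := Nat.choose_le_pow _ _
    have e3 : ∑ W ∈ X.powersetCard j, (nb Y W).card ≤ ∑ y ∈ Y, (on X y).card ^ j := by
      have : ∑ W ∈ X.powersetCard j, (nb Y W).card = ∑ y ∈ Y, ((on X y).powersetCard j).card := by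
        unfold nb
        simp only [card_filter]
        rw [sum_comm]
        apply sum_congr rfl
        intro y _
        rw [← card_filter]
        congr 1
        ext W
        simp only [mem_filter, mem_powersetCard]
        constructor
        · rintro ⟨⟨h1, h2⟩, h3⟩
          exact ⟨fun x hx => mem_on.mpr ⟨h1 hx, h3 x hx⟩, h2⟩
        · rintro ⟨h1, h2⟩
          exact ⟨⟨fun x hx => (mem_on.mp (h1 hx)).1, h2⟩, fun x hx => (mem_on.mp (h1 hx)).2⟩
      rw [this]
      apply sum_le_sum
      intro y _
      rw [card_powersetCard]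
      exact Nat.choose_le_pow _ _
    rw [e1]
    calc _ ≤ ∑ W ∈ X.powersetCard j, X.card ^ (b - j) * (nb Y W).card :=
          sum_le_sum (fun W hW => Nat.mul_le_mul_right _ (e2 W hW))
      _ = X.card ^ (b - j) * ∑ W ∈ X.powersetCard j, (nb Y W).card := by rw [mul_sum]
      _ ≤ _ := Nat.mul_le_mul_left _ e3
  have h5 : ∑ p ∈ (univ : Finset (Fin k → F)) ×ˢ X.powersetCard j,
      (gset X r b p.1 p.2).card * (yset Y p.1 p.2).card ≤
      q ^ (b - 1) * (X.card ^ (b - j) * ∑ y ∈ Y, (on X y).card ^ j) +
        2 ^ b * q ^ b * ∑ T ∈ good X r b, (nb Y T).card := by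
    rw [h1]
    exact h3.trans (Nat.add_le_add_right (Nat.mul_le_mul_left _ h4) _)
  have h6 : ((∑ p ∈ (univ : Finset (Fin k → F)) ×ˢ X.powersetCard j,
      (gset X r b p.1 p.2).card * (yset Y p.1 p.2).card : ℕ) : ℝ) ≤
      ((q ^ (b - 1) * (X.card ^ (b - j) * ∑ y ∈ Y, (on X y).card ^ j) +
        2 ^ b * q ^ b * ∑ T ∈ good X r b, (nb Y T).card : ℕ) : ℝ) := by exact_mod_cast h5
  push_cast at h6
  linarith

end Pool.Agent.Lib.MP_9a747a_co_h56
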