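import Mathlib
import Pool.Agent.Lib.MP_9a747a_co_h56.Level

/-!
# Lower bound for the number of good sets, codegrees of small sets, the tuple inequality
-/

open Finset

set_option linter.unusedSectionVars false

namespace Pool.Agent.Lib.MP_9a747a_co_h56

variable {F : Type} [Field F] [Fintype F] [DecidableEq F] {k : ℕ}

/-- codegrees of sets with fewer than `r` elements -/
theorem codeg_small {X Y : Finset (Fin k → F)} {r c : ℕ}
    (hK : ∀ A ⊆ X, A.card = r → (nb Y A).card ≤ c) {ρ : ℝ} (hρ : 1 ≤ ρ)
    (hdeg : ∀ y ∈ Y, (X.card : ℝ) ≤ ρ * (((on X y).card : ℝ) - r)) (i : ℕ) :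
    ∀ U : Finset (Fin k → F), U ⊆ X → r ≤ U.card + i → ((nb Y U).card : ℝ) ≤ c * ρ ^ i := by
  classical
  have hbase : ∀ U : Finset (Fin k → F), U ⊆ X → r ≤ U.card → ((nb Y U).card : ℝ) ≤ c := by
    intro U hU hr
    obtain ⟨A, hA, hA2⟩ := exists_subset_card_eq hr
    have : (nb Y U).card ≤ c := by
      refine le_trans (card_le_card ?_) (hK A (hA.trans hU) hA2)
      intro y hy
      rw [mem_nb] at hy ⊢
      exact ⟨hy.1, fun x hx => hy.2 x (hA hx)⟩
    exact_mod_cast this
  induction i with
  | zero =>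
    intro U hU hr
    simpa using hbase U hU (by omega)
  | succ i ih =>
    intro U hU hr
    by_cases hUr : r ≤ U.card
    · calc ((nb Y U).card : ℝ) ≤ c := hbase U hU hUr
        _ = c * 1 := (mul_one _).symm
        _ ≤ c * ρ ^ (i + 1) := mul_le_mul_of_nonneg_left (one_le_pow₀ hρ) (by positivity)
    · push Not at hUr
      rcases (nb Y U).eq_empty_or_nonempty with he | hne
      · rw [he, card_empty]
        simp only [Nat.cast_zero]
        positivity
      -- n * N(U) ≤ ρ * ∑ (d - r) ≤ ρ * ∑_{x ∉ U} N(U ∪ x)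
      have h1 : (X.card : ℝ) * (nb Y U).card ≤
          ρ * ∑ y ∈ nb Y U, (((on X y).card : ℝ) - r) := by
        rw [mul_sum]
        calc (X.card : ℝ) * (nb Y U).card = ∑ _y ∈ nb Y U, (X.card : ℝ) := by
              rw [sum_const, nsmul_eq_mul]; ring
          _ ≤ _ := sum_le_sum (fun y hy => hdeg y (mem_nb.mp hy).1)
      have h2 : ∑ y ∈ nb Y U, (((on X y).card : ℝ) - r) ≤
          ∑ x ∈ X \ U, ((nb Y (insert x U)).card : ℝ) := by
        have e1 : ∑ x ∈ X \ U, ((nb Y (insert x U)).card : ℝ) =
            ∑ y ∈ nb Y U, ((((X \ U).filter (fun x => x ⬝ᵥ y = 0)).card : ℕ) : ℝ) := by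
          have : ∀ x : Fin k → F, nb Y (insert x U) = (nb Y U).filter (fun y => x ⬝ᵥ y = 0) := by
            intro x
            ext y
            simp only [mem_nb, mem_filter, mem_insert, forall_eq_or_imp]
            tauto
          simp only [this, card_filter, Nat.cast_sum]
          rw [sum_comm]
        rw [e1]
        apply sum_le_sum
        intro y hy
        have e2 : (on X y).card ≤ ((X \ U).filter (fun x => x ⬝ᵥ y = 0)).card + U.card := by
          calc (on X y).card ≤ ((X \ U).filter (fun x => x ⬝ᵥ y = 0) ∪ U).card := by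
                apply card_le_card
                intro x hx
                rw [mem_on] at hx
                rw [mem_union, mem_filter, mem_sdiff]
                by_cases hxU : x ∈ U
                · exact Or.inr hxU
                · exact Or.inl ⟨⟨hx.1, hxU⟩, hx.2⟩
            _ ≤ _ := card_union_le _ _
        have e3 : ((on X y).card : ℝ) ≤
            (((X \ U).filter (fun x => x ⬝ᵥ y = 0)).card : ℝ) + U.card := by exact_mod_cast e2
        have e4 : (U.card : ℝ) ≤ r := by exact_mod_cast hUr.le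
        linarith
      have h3 : ∑ x ∈ X \ U, ((nb Y (insert x U)).card : ℝ) ≤ X.card * (c * ρ ^ i) := by
        calc ∑ x ∈ X \ U, ((nb Y (insert x U)).card : ℝ) ≤ ∑ _x ∈ X \ U, (c * ρ ^ i) := by
              apply sum_le_sum
              intro x hx
              rw [mem_sdiff] at hx
              exact ih _ (insert_subset hx.1 hU) (by rw [card_insert_of_notMem hx.2]; omega)
          _ = ((X \ U).card : ℝ) * (c * ρ ^ i) := by rw [sum_const, nsmul_eq_mul]
          _ ≤ _ := by
              apply mul_le_mul_of_nonneg_right _ (by positivity)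
              exact_mod_cast card_le_card sdiff_subset
      have hn : (0 : ℝ) < X.card := by
        have hXU : U ≠ X := by
          rintro rfl
          -- then the degree condition fails
          obtain ⟨y, hy⟩ := hne
          have h5 := hdeg y (mem_nb.mp hy).1
          have h6 : ((on U y).card : ℝ) ≤ U.card := by
            exact_mod_cast card_le_card (filter_subset _ _)
          have h7 : (U.card : ℝ) < r := by exact_mod_cast hUr
          have h8 : (0 : ℝ) ≤ U.card := by positivity
          nlinarith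
        have : 0 < X.card := by
          rcases Nat.eq_zero_or_pos X.card with h0 | h0
          · exfalso
            apply hXU
            rw [card_eq_zero] at h0
            subst h0
            exact subset_empty.mp hU
          · exact h0
        exact_mod_cast this
      have h4 : (X.card : ℝ) * (nb Y U).card ≤ X.card * (c * ρ ^ (i + 1)) := by
        calc _ ≤ _ := h1
          _ ≤ ρ * (X.card * (c * ρ ^ i)) :=
              mul_le_mul_of_nonneg_left (h2.trans h3) (by linarith)
          _ = _ := by rw [pow_succ]; ring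
      exact le_of_mul_le_mul_left h4 hn

/-- bad sets on a hyperplane -/
theorem good_lower (X Y : Finset (Fin k → F)) {r c b : ℕ}
    (hK : ∀ A ⊆ X, A.card = r → (nb Y A).card ≤ c) :
    ∑ y ∈ Y, ((((on X y).card.choose b : ℕ)) : ℝ) ≤
      ∑ T ∈ good X r b, ((nb Y T).card : ℝ) + c * (X.card : ℝ) ^ b +
        r * ∑ y ∈ Y, ((on X y).card : ℝ) ^ (b - 1) := by
  classical
  -- all b-sets
  have h1 : ∑ y ∈ Y, (on X y).card.choose b = ∑ T ∈ X.powersetCard b, (nb Y T).card := by
    unfold nb
    simp only [card_filter]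
    rw [sum_comm]
    apply sum_congr rfl
    intro y _
    rw [← card_powersetCard, ← card_filter]
    congr 1
    ext W
    simp only [mem_filter, mem_powersetCard]
    constructor
    · rintro ⟨h1, h2⟩
      exact ⟨⟨fun x hx => (mem_on.mp (h1 hx)).1, h2⟩, fun x hx => (mem_on.mp (h1 hx)).2⟩
    · rintro ⟨⟨h1, h2⟩, h3⟩
      exact ⟨fun x hx => mem_on.mpr ⟨h1 hx, h3 x hx⟩, h2⟩
  -- the three classes
  let fat : Finset (Finset (Fin k → F)) := (X.powersetCard b).filter (fun T => ¬ Thin X r T)
  let dep : Finset (Finset (Fin k → F)) :=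
    (X.powersetCard b).filter (fun T => Thin X r T ∧ ¬ Ind T)
  have hcover : X.powersetCard b ⊆ good X r b ∪ (fat ∪ dep) := by
    intro T hT
    rw [mem_union, mem_union]
    by_cases h1 : Thin X r T
    · by_cases h2 : Ind T
      · exact Or.inl (mem_good.mpr ⟨mem_powersetCard.mp hT, h2, h1⟩)
      · exact Or.inr (Or.inr (mem_filter.mpr ⟨hT, h1, h2⟩))
    · exact Or.inr (Or.inl (mem_filter.mpr ⟨hT, h1⟩))
  have h2 : ∑ T ∈ X.powersetCard b, (nb Y T).card ≤ ∑ T ∈ good X r b, (nb Y T).card +
      (∑ T ∈ fat, (nb Y T).card + ∑ T ∈ dep, (nb Y T).card) := by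
    calc ∑ T ∈ X.powersetCard b, (nb Y T).card
        ≤ ∑ T ∈ good X r b ∪ (fat ∪ dep), (nb Y T).card := sum_le_sum_of_subset hcover
      _ ≤ _ := (sum_union_inter (f := fun T => (nb Y T).card) (s₁ := good X r b)
          (s₂ := fat ∪ dep)) ▸ (Nat.le_add_right _ _)
      _ ≤ _ := by
          apply Nat.add_le_add_left
          exact (sum_union_inter (f := fun T => (nb Y T).card) (s₁ := fat)
            (s₂ := dep)) ▸ (Nat.le_add_right _ _)
  -- fat sets
  have h3 : ∑ T ∈ fat, (nb Y T).card ≤ c * X.card ^ b := by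
    calc ∑ T ∈ fat, (nb Y T).card ≤ ∑ _T ∈ fat, c := by
          apply sum_le_sum
          intro T hT
          have hT' := (mem_filter.mp hT).2
          unfold Thin at hT'
          push Not at hT'
          obtain ⟨S, hS, hS2, hS3⟩ := hT'
          obtain ⟨A, hA, hA2⟩ := exists_subset_card_eq hS3
          refine le_trans (card_le_card ?_) (hK A (hA.trans hS) hA2)
          intro y hy
          rw [mem_nb] at hy ⊢
          exact ⟨hy.1, fun x hx => dot_of_mem_sp (hS2 x (hA hx)) hy.2⟩
      _ = fat.card * c := by rw [sum_const, smul_eq_mul]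
      _ ≤ X.card ^ b * c := by
          apply Nat.mul_le_mul_right
          calc fat.card ≤ (X.powersetCard b).card := card_filter_le _ _
            _ = X.card.choose b := card_powersetCard _ _
            _ ≤ X.card ^ b := Nat.choose_le_pow _ _
      _ = _ := Nat.mul_comm _ _
  -- dependent sets
  have h4 : ∑ T ∈ dep, (nb Y T).card ≤ r * ∑ y ∈ Y, (on X y).card ^ (b - 1) := by
    have e1 : ∑ T ∈ dep, (nb Y T).card =
        ∑ y ∈ Y, (dep.filter (fun T => ∀ x ∈ T, x ⬝ᵥ y = 0)).card := by
      unfold nb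
      simp only [card_filter]
      rw [sum_comm]
    rw [e1, mul_sum]
    apply sum_le_sum
    intro y _
    let base : Finset (Finset (Fin k → F)) :=
      ((on X y).powersetCard (b - 1)).filter (fun T' => Thin X r T')
    have e2 : dep.filter (fun T => ∀ x ∈ T, x ⬝ᵥ y = 0) ⊆
        base.biUnion (fun T' => (X.filter (fun x => x ∈ sp T')).image (fun x => insert x T')) := by
      intro T hT
      rw [mem_filter] at hT
      obtain ⟨hT1, hT2⟩ := hT
      obtain ⟨hT3, hT4, hT5⟩ := mem_filter.mp hT1
      obtain ⟨hTX, hTc⟩ := mem_powersetCard.mp hT3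
      unfold Ind at hT5
      push Not at hT5
      obtain ⟨x, hx, hx'⟩ := hT5
      rw [mem_biUnion]
      refine ⟨T.erase x, ?_, ?_⟩
      · simp only [base, mem_filter, mem_powersetCard]
        refine ⟨⟨?_, by rw [card_erase_of_mem hx, hTc]⟩, ?_⟩
        · intro z hz
          have hzT := mem_of_mem_erase hz
          exact mem_on.mpr ⟨hTX hzT, hT2 z hzT⟩
        · intro S hS hS2
          exact hT4 S hS (fun z hz => sp_mono (erase_subset x T) (hS2 z hz))
      · rw [mem_image]
        exact ⟨x, mem_filter.mpr ⟨hTX hx, hx'⟩, insert_erase hx⟩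
    calc (dep.filter (fun T => ∀ x ∈ T, x ⬝ᵥ y = 0)).card
        ≤ _ := card_le_card e2
      _ ≤ ∑ T' ∈ base, ((X.filter (fun x => x ∈ sp T')).image (fun x => insert x T')).card :=
          card_biUnion_le
      _ ≤ ∑ _T' ∈ base, r := by
          apply sum_le_sum
          intro T' hT'
          have hthin := (mem_filter.mp hT').2
          exact card_image_le.trans (hthin _ (filter_subset _ _)
            (fun x hx => (mem_filter.mp hx).2)).le
      _ = base.card * r := by rw [sum_const, smul_eq_mul]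
      _ ≤ (on X y).card ^ (b - 1) * r := by
          apply Nat.mul_le_mul_right
          calc base.card ≤ ((on X y).powersetCard (b - 1)).card := card_filter_le _ _
            _ = (on X y).card.choose (b - 1) := card_powersetCard _ _
            _ ≤ _ := Nat.choose_le_pow _ _
      _ = _ := Nat.mul_comm _ _
  have h5 : ∑ y ∈ Y, (on X y).card.choose b ≤ ∑ T ∈ good X r b, (nb Y T).card +
      c * X.card ^ b + r * ∑ y ∈ Y, (on X y).card ^ (b - 1) := by
    rw [h1]
    omega
  have h6 : ((∑ y ∈ Y, (on X y).card.choose b : ℕ) : ℝ) ≤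
      ((∑ T ∈ good X r b, (nb Y T).card +
      c * X.card ^ b + r * ∑ y ∈ Y, (on X y).card ^ (b - 1) : ℕ) : ℝ) := by exact_mod_cast h5
  push_cast at h6
  exact h6

/-- the tuple inequality for one core -/
theorem core_ineq {X Y : Finset (Fin k → F)} {a b r c : ℕ} (ha : 1 ≤ a) (hb : 1 ≤ b)
    (hrab : r ≤ a * b)
    (hK : ∀ A ⊆ X, A.card = r → (nb Y A).card ≤ c) {ρ : ℝ} (hρ : 1 ≤ ρ)
    (hdeg : ∀ y ∈ Y, (X.card : ℝ) ≤ ρ * (((on X y).card : ℝ) - r))
    {v : Fin k → F} {W : Finset (Fin k → F)} (hWX : W ⊆ X) (hWb : W.card ≤ b)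
    {Z : Finset (Fin k → F)} (hZ : Z ⊆ yset Y v W)
    (hcore : ∀ y ∈ Z, IsCore (1 / (2 * a * b : ℝ)) (fam X r b v y) W) :
    (∑ y ∈ Z, ((above (fam X r b v y) W).card : ℝ)) ^ a ≤
      ((yset Y v W).card : ℝ) ^ (a - 1) *
        (2 ^ a * (c * ρ ^ (W.card * (a - 1))) * ((gset X r b v W).card : ℝ) ^ a) := by
  classical
  -- tuples
  have h1 : ∀ y ∈ Z, ((above (fam X r b v y) W).card : ℝ) ^ a ≤
      2 ^ a * ((tuples (meetOff W) a (above (fam X r b v y) W)).card : ℝ) := by
    intro y hy
    have := core_tuples ha hb (hcore y hy) (fun T hT => (mem_good.mp (mem_fam.mp hT).1).1.2)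
    have e : ((above (fam X r b v y) W).card : ℝ) ^ a =
        2 ^ a * (((above (fam X r b v y) W).card : ℝ) / 2) ^ a := by
      rw [← mul_pow]; congr 1; ring
    rw [e]
    exact mul_le_mul_of_nonneg_left this (by positivity)
  -- double counting
  have hG : ∀ T ∈ gset X r b v W, W ⊆ T ∧ T.card = b := by
    intro T hT
    unfold gset at hT
    rw [mem_filter] at hT
    exact ⟨hT.2.2, (mem_good.mp hT.1).1.2⟩
  have h2 : ∀ y ∈ Z, tuples (meetOff W) a (above (fam X r b v y) W) ⊆
      (tuples (meetOff W) a (gset X r b v W)).filter (fun f => ∀ i, ∀ x ∈ f i, x ⬝ᵥ y = 0) := by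
    intro y _ f hf
    rw [mem_tuples] at hf
    rw [mem_filter, mem_tuples]
    refine ⟨⟨?_, hf.2⟩, ?_⟩
    · intro i
      have h3 := mem_above.mp (hf.1 i)
      have h4 := mem_fam.mp h3.1
      unfold gset
      rw [mem_filter]
      exact ⟨h4.1, h4.2.1, h3.2⟩
    · intro i
      exact (mem_fam.mp (mem_above.mp (hf.1 i)).1).2.2
  have h3 : ∑ y ∈ Z, ((tuples (meetOff W) a (above (fam X r b v y) W)).card : ℝ) ≤
      (c * ρ ^ (W.card * (a - 1))) * ((gset X r b v W).card : ℝ) ^ a := by
    have e1 : ∑ y ∈ Z, (tuples (meetOff W) a (above (fam X r b v y) W)).card ≤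
        ∑ f ∈ tuples (meetOff W) a (gset X r b v W),
          (Z.filter (fun y => ∀ i, ∀ x ∈ f i, x ⬝ᵥ y = 0)).card := by
      calc _ ≤ ∑ y ∈ Z, ((tuples (meetOff W) a (gset X r b v W)).filter
            (fun f => ∀ i, ∀ x ∈ f i, x ⬝ᵥ y = 0)).card :=
            sum_le_sum (fun y hy => card_le_card (h2 y hy))
        _ = _ := by
            simp only [card_filter]
            rw [sum_comm]
    have e2 : ∀ f ∈ tuples (meetOff W) a (gset X r b v W),
        ((Z.filter (fun y => ∀ i, ∀ x ∈ f i, x ⬝ᵥ y = 0)).card : ℝ) ≤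
          c * ρ ^ (W.card * (a - 1)) := by
      intro f hf
      have hf' := mem_tuples.mp hf
      have hcard := card_union_tuple hG hf
      have hUX : W ∪ univ.biUnion f ⊆ X := by
        apply union_subset hWX
        intro x hx
        rw [mem_biUnion] at hx
        obtain ⟨i, _, hi⟩ := hx
        have := hf'.1 i
        unfold gset at this
        exact (mem_good.mp (mem_filter.mp this).1).1.1 hi
      have hr : r ≤ (W ∪ univ.biUnion f).card + W.card * (a - 1) := by
        rw [hcard]
        obtain ⟨d, hd⟩ : ∃ d, b = W.card + d := ⟨b - W.card, by omega⟩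
        obtain ⟨a', rfl⟩ : ∃ a', a = a' + 1 := ⟨a - 1, by omega⟩
        have : b - W.card = d := by omega
        rw [this, Nat.add_sub_cancel]
        calc r ≤ (a' + 1) * b := hrab
          _ = (a' + 1) * (W.card + d) := by rw [← hd]
          _ ≤ _ := by ring_nf; omega
      have := codeg_small hK hρ hdeg (W.card * (a - 1)) _ hUX hr
      refine le_trans ?_ this
      have hsub : Z.filter (fun y => ∀ i, ∀ x ∈ f i, x ⬝ᵥ y = 0) ⊆
          nb Y (W ∪ univ.biUnion f) := by
        intro y hy
        rw [mem_filter] at hy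
        have hyZ := hZ hy.1
        unfold yset at hyZ
        rw [mem_filter] at hyZ
        rw [mem_nb]
        refine ⟨hyZ.1, ?_⟩
        intro x hx
        rw [mem_union, mem_biUnion] at hx
        rcases hx with hx | ⟨i, _, hi⟩
        · exact hyZ.2.2 x hx
        · exact hy.2 i x hi
      exact_mod_cast card_le_card hsub
    have e3 : ((∑ y ∈ Z, (tuples (meetOff W) a (above (fam X r b v y) W)).card : ℕ) : ℝ) ≤
        ∑ f ∈ tuples (meetOff W) a (gset X r b v W),
          ((Z.filter (fun y => ∀ i, ∀ x ∈ f i, x ⬝ᵥ y = 0)).card : ℝ) := by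
      exact_mod_cast e1
    push_cast at e3
    calc _ ≤ _ := e3
      _ ≤ ∑ _f ∈ tuples (meetOff W) a (gset X r b v W), c * ρ ^ (W.card * (a - 1)) :=
          sum_le_sum e2
      _ = ((tuples (meetOff W) a (gset X r b v W)).card : ℝ) * (c * ρ ^ (W.card * (a - 1))) := by
          rw [sum_const, nsmul_eq_mul]
      _ ≤ ((gset X r b v W).card : ℝ) ^ a * (c * ρ ^ (W.card * (a - 1))) := by
          apply mul_le_mul_of_nonneg_right _ (by positivity)
          exact_mod_cast card_tuples_le _ _ _
      _ = _ := by ring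
  have h4 : ∑ y ∈ Z, ((above (fam X r b v y) W).card : ℝ) ^ a ≤
      2 ^ a * (c * ρ ^ (W.card * (a - 1))) * ((gset X r b v W).card : ℝ) ^ a := by
    calc _ ≤ ∑ y ∈ Z, 2 ^ a * ((tuples (meetOff W) a (above (fam X r b v y) W)).card : ℝ) :=
          sum_le_sum h1
      _ = 2 ^ a * ∑ y ∈ Z, ((tuples (meetOff W) a (above (fam X r b v y) W)).card : ℝ) := by
          rw [mul_sum]
      _ ≤ 2 ^ a * ((c * ρ ^ (W.card * (a - 1))) * ((gset X r b v W).card : ℝ) ^ a) :=
          mul_le_mul_of_nonneg_left h3 (by positivity)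
      _ = _ := by ring
  obtain ⟨a', rfl⟩ : ∃ a', a = a' + 1 := ⟨a - 1, by omega⟩
  simp only [Nat.add_sub_cancel] at h4 ⊢
  have hZc : (Z.card : ℝ) ≤ (yset Y v W).card := by exact_mod_cast card_le_card hZ
  rcases Z.eq_empty_or_nonempty with rfl | hZne
  · simp only [sum_empty]
    rw [zero_pow (by omega)]
    positivity
  · have h5 := pow_sum_div_card_le_sum_pow (s := Z)
      (f := fun y => ((above (fam X r b v y) W).card : ℝ)) (fun _ _ => by positivity) a'
    have hpos : (0 : ℝ) < (Z.card : ℝ) ^ a' := by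
      have : 0 < Z.card := Finset.card_pos.mpr hZne
      positivity
    rw [div_le_iff₀ hpos] at h5
    calc _ ≤ _ := h5
      _ ≤ (2 ^ (a' + 1) * (c * ρ ^ (W.card * a')) * ((gset X r b v W).card : ℝ) ^ (a' + 1)) *
          (Z.card : ℝ) ^ a' := mul_le_mul_of_nonneg_right h4 hpos.le
      _ ≤ (2 ^ (a' + 1) * (c * ρ ^ (W.card * a')) * ((gset X r b v W).card : ℝ) ^ (a' + 1)) *
          ((yset Y v W).card : ℝ) ^ a' := by
          apply mul_le_mul_of_nonneg_left _ (by positivity)
          exact pow_le_pow_left₀ (by positivity) hZc _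
      _ = _ := by ring

end Pool.Agent.Lib.MP_9a747a_co_h56
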