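import Mathlib
import Pool.Agent.Lib.MP_9a747a_co_h56.Lower

/-!
# Selection of a level and of a pair (vector, core)
-/

open Finset

set_option linter.unusedSectionVars false

namespace Pool.Agent.Lib.MP_9a747a_co_h56

/-- a chosen core -/
noncomputable def coreOf {α : Type*} [DecidableEq α] (η : ℝ) (D : Finset (Finset α)) :
    Finset α := by
  classical
  exact if h : 0 < η ∧ D.Nonempty then (exists_core h.1 D h.2).choose else ∅

theorem coreOf_spec {α : Type*} [DecidableEq α] {η : ℝ} (hη : 0 < η) {D : Finset (Finset α)}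
    (hD : D.Nonempty) : IsCore η D (coreOf η D) := by
  unfold coreOf
  rw [dif_pos ⟨hη, hD⟩]
  exact (exists_core hη D hD).choose_spec

variable {F : Type} [Field F] [Fintype F] [DecidableEq F] {k : ℕ}

open Classical in
/-- hyperplanes whose (big) family has core `W` -/
noncomputable def zset (X Y : Finset (Fin k → F)) (r b : ℕ) (η C0 : ℝ) (v : Fin k → F)
    (W : Finset (Fin k → F)) : Finset (Fin k → F) :=
  Y.filter (fun y => C0 < (fam X r b v y).card ∧ coreOf η (fam X r b v y) = W)

/-- the weight of a pair -/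
noncomputable def wt (X Y : Finset (Fin k → F)) (r b : ℕ) (η C0 : ℝ)
    (p : (Fin k → F) × Finset (Fin k → F)) : ℝ :=
  ∑ y ∈ zset X Y r b η C0 p.1 p.2, ((above (fam X r b p.1 y) p.2).card : ℝ)

theorem exists_level {X Y : Finset (Fin k → F)} {a b r : ℕ} (ha : 1 ≤ a) (hb : 2 ≤ b)
    (hr : 1 ≤ r) {η C0 A : ℝ} (hη : η = 1 / (2 * a * b)) (hC0 : C0 = r * (2 * a * b) ^ b)
    (hA : A = ∑ v, ∑ y ∈ Y, ((fam X r b v y).card : ℝ))
    (hY : ∀ y ∈ Y, y ≠ 0) (hk : 1 ≤ k)
    (hbig : 2 * (C0 * (Y.card * (Fintype.card F : ℝ) ^ (k - 1))) ≤ A) :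
    ∃ j, j + 2 ≤ b ∧ η ^ b / (2 * b) * A ≤
      ∑ p ∈ (univ : Finset (Fin k → F)) ×ˢ X.powersetCard j, wt X Y r b η C0 p := by
  classical
  have haR : (1 : ℝ) ≤ a := by exact_mod_cast ha
  have hbR : (2 : ℝ) ≤ b := by exact_mod_cast hb
  have hrR : (1 : ℝ) ≤ r := by exact_mod_cast hr
  have hηpos : 0 < η := by rw [hη]; positivity
  have hη1 : η ≤ 1 := by
    rw [hη, div_le_one (by positivity)]; nlinarith
  have hC0pos : 0 < C0 := by rw [hC0]; positivity
  -- split of one family
  have h1 : ∀ v y : Fin k → F, y ∈ Y → ((fam X r b v y).card : ℝ) ≤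
      (if v ⬝ᵥ y = 0 then C0 else 0) +
      (if C0 < (fam X r b v y).card then
        η⁻¹ ^ b * ((above (fam X r b v y) (coreOf η (fam X r b v y))).card : ℝ) else 0) := by
    intro v y _
    rcases (fam X r b v y).eq_empty_or_nonempty with he | hne
    · rw [he, card_empty]
      simp only [Nat.cast_zero]
      have : ¬ C0 < 0 := not_lt.mpr hC0pos.le
      rw [if_neg this]
      split_ifs <;> linarith
    · have hperp : v ⬝ᵥ y = 0 := by
        obtain ⟨T, hT⟩ := hne
        obtain ⟨_, h2, h3⟩ := mem_fam.mp hT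
        exact dot_of_mem_sp h2.1 h3
      rw [if_pos hperp]
      split_ifs with hbg
      · obtain ⟨c1, c2, c3⟩ := coreOf_spec hηpos hne
        set W := coreOf η (fam X r b v y) with hW
        have hsm : W.card + 2 ≤ b := core_small ha hb hr (v := v) (y := y) (W := W)
          (by rw [← hη]; exact ⟨c1, c2, c3⟩) (by rw [← hC0]; exact hbg)
        have e1 : η ^ b ≤ η ^ W.card := pow_le_pow_of_le_one hηpos.le hη1 (by omega)
        have e2 : η ^ b * ((fam X r b v y).card : ℝ) ≤ (above (fam X r b v y) W).card :=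
          (mul_le_mul_of_nonneg_right e1 (by positivity)).trans c1
        have e3 : ((fam X r b v y).card : ℝ) ≤ η⁻¹ ^ b * (above (fam X r b v y) W).card := by
          rw [inv_pow, ← div_eq_inv_mul, le_div_iff₀ (by positivity)]
          linarith
        linarith
      · push Not at hbg
        linarith
  -- summation
  have h2 : A ≤ C0 * (Y.card * (Fintype.card F : ℝ) ^ (k - 1)) +
      η⁻¹ ^ b * ∑ v, ∑ y ∈ Y.filter (fun y => C0 < ((fam X r b v y).card : ℝ)),
        ((above (fam X r b v y) (coreOf η (fam X r b v y))).card : ℝ) := by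
    rw [hA]
    calc ∑ v, ∑ y ∈ Y, ((fam X r b v y).card : ℝ)
        ≤ ∑ v, ∑ y ∈ Y, ((if v ⬝ᵥ y = 0 then C0 else 0) +
      (if C0 < ((fam X r b v y).card : ℝ) then
        η⁻¹ ^ b * ((above (fam X r b v y) (coreOf η (fam X r b v y))).card : ℝ) else 0)) :=
          sum_le_sum (fun v _ => sum_le_sum (fun y hy => h1 v y hy))
      _ = ∑ v, ∑ y ∈ Y, (if v ⬝ᵥ y = 0 then C0 else 0) +
          ∑ v, ∑ y ∈ Y, (if C0 < ((fam X r b v y).card : ℝ) then
        η⁻¹ ^ b * ((above (fam X r b v y) (coreOf η (fam X r b v y))).card : ℝ) else 0) := by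
          rw [← sum_add_distrib]
          apply sum_congr rfl
          intro v _
          rw [sum_add_distrib]
      _ = C0 * (Y.card * (Fintype.card F : ℝ) ^ (k - 1)) + _ := by
          congr 1
          have : ∀ v : Fin k → F, ∑ y ∈ Y, (if v ⬝ᵥ y = 0 then C0 else 0) =
              C0 * ((hyp Y v).card : ℝ) := by
            intro v
            rw [← sum_filter, sum_const, nsmul_eq_mul]
            unfold hyp
            ring
          rw [sum_congr rfl (fun v _ => this v), ← mul_sum, sum_hyp hY hk]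
      _ = _ := by
          congr 1
          rw [mul_sum]
          apply sum_congr rfl
          intro v _
          rw [← sum_filter, ← mul_sum]
  -- levels
  have h3 : ∀ v : Fin k → F, ∑ y ∈ Y.filter (fun y => C0 < ((fam X r b v y).card : ℝ)),
        ((above (fam X r b v y) (coreOf η (fam X r b v y))).card : ℝ) =
      ∑ j ∈ range (b - 1), ∑ W ∈ X.powersetCard j, wt X Y r b η C0 (v, W) := by
    intro v
    have hmem : ∀ y ∈ Y.filter (fun y => C0 < ((fam X r b v y).card : ℝ)),
        coreOf η (fam X r b v y) ∈ (range (b - 1)).biUnion (fun j => X.powersetCard j) := by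
      intro y hy
      have hbg := (mem_filter.mp hy).2
      have hne : (fam X r b v y).Nonempty := by
        rw [← card_pos]
        have : (0 : ℝ) < (fam X r b v y).card := lt_trans hC0pos hbg
        exact_mod_cast this
      have hc := coreOf_spec hηpos hne
      have hsm := core_small ha hb hr (v := v) (y := y)
          (by rw [← hη]; exact hc) (by rw [← hC0]; exact hbg)
      rw [mem_biUnion]
      refine ⟨_, mem_range.mpr ?_, mem_powersetCard.mpr ⟨?_, rfl⟩⟩
      · omega
      · obtain ⟨T, hT⟩ := card_pos.mp hc.2.1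
        have hT' := mem_above.mp hT
        exact hT'.2.trans (mem_good.mp (mem_fam.mp hT'.1).1).1.1
    rw [← sum_fiberwise_of_maps_to hmem, sum_biUnion]
    · apply sum_congr rfl
      intro j _
      apply sum_congr rfl
      intro W _
      unfold wt zset
      rw [filter_filter]
      apply sum_congr rfl
      intro y hy
      rw [mem_filter] at hy
      rw [hy.2.2]
    · intro i _ j _ hij
      rw [Function.onFun, Finset.disjoint_left]
      intro W hW hW'
      exact hij ((mem_powersetCard.mp hW).2.symm.trans (mem_powersetCard.mp hW').2)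
  have h4 : ∑ v, ∑ y ∈ Y.filter (fun y => C0 < ((fam X r b v y).card : ℝ)),
        ((above (fam X r b v y) (coreOf η (fam X r b v y))).card : ℝ) =
      ∑ j ∈ range (b - 1), ∑ p ∈ (univ : Finset (Fin k → F)) ×ˢ X.powersetCard j,
        wt X Y r b η C0 p := by
    rw [sum_congr rfl (fun v _ => h3 v), sum_comm]
    apply sum_congr rfl
    intro j _
    rw [sum_product]
  rw [h4] at h2
  by_contra hcon
  push Not at hcon
  have h5 : ∑ j ∈ range (b - 1), ∑ p ∈ (univ : Finset (Fin k → F)) ×ˢ X.powersetCard j,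
        wt X Y r b η C0 p ≤ ∑ _j ∈ range (b - 1), η ^ b / (2 * b) * A := by
    apply sum_le_sum
    intro j hj
    rw [mem_range] at hj
    exact (hcon j (by omega)).le
  rw [sum_const, card_range, nsmul_eq_mul] at h5
  have hApos : 0 < A := by
    by_contra hneg
    push Not at hneg
    have h6 := hcon 0 (by omega)
    have h7 : 0 ≤ ∑ p ∈ (univ : Finset (Fin k → F)) ×ˢ X.powersetCard 0, wt X Y r b η C0 p := by
      apply sum_nonneg
      intro p _
      unfold wt
      positivity
    have h8 : η ^ b / (2 * b) * A ≤ 0 := by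
      apply mul_nonpos_of_nonneg_of_nonpos (by positivity) hneg
    linarith
  have h6 : ((b - 1 : ℕ) : ℝ) * (η ^ b / (2 * b) * A) < η ^ b * (A / 2) := by
    rw [Nat.cast_sub (by omega), Nat.cast_one]
    have e : η ^ b * (A / 2) = b * (η ^ b / (2 * b) * A) := by
      field_simp
    rw [e]
    have : 0 < η ^ b / (2 * b) * A := by positivity
    nlinarith
  have h7 : η⁻¹ ^ b * (η ^ b * (A / 2)) = A / 2 := by
    rw [← mul_assoc, ← mul_pow, inv_mul_cancel₀ hηpos.ne', one_pow, one_mul]
  have h8 : η⁻¹ ^ b * ∑ j ∈ range (b - 1),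
      ∑ p ∈ (univ : Finset (Fin k → F)) ×ˢ X.powersetCard j, wt X Y r b η C0 p < A / 2 := by
    rw [← h7]
    exact mul_lt_mul_of_pos_left (lt_of_le_of_lt h5 h6) (by positivity)
  linarith

/-- selection of one pair -/
theorem exists_pair {X Y : Finset (Fin k → F)} {r b j : ℕ} {η C0 A B2 B3 : ℝ}
    (hApos : 0 < A) (hB2 : 0 < B2) (hB3 : 0 < B3)
    (hA : A ≤ ∑ p ∈ (univ : Finset (Fin k → F)) ×ˢ X.powersetCard j, wt X Y r b η C0 p)
    (h2 : ∑ p ∈ (univ : Finset (Fin k → F)) ×ˢ X.powersetCard j,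
      ((gset X r b p.1 p.2).card : ℝ) ≤ B2)
    (h3 : ∑ p ∈ (univ : Finset (Fin k → F)) ×ˢ X.powersetCard j,
      ((gset X r b p.1 p.2).card : ℝ) * ((yset Y p.1 p.2).card : ℝ) ≤ B3) :
    ∃ p ∈ (univ : Finset (Fin k → F)) ×ˢ X.powersetCard j,
      A / (3 * B2) * (gset X r b p.1 p.2).card +
      A / (3 * B3) * ((gset X r b p.1 p.2).card * (yset Y p.1 p.2).card) <
        wt X Y r b η C0 p := by
  have hlt : ∑ p ∈ (univ : Finset (Fin k → F)) ×ˢ X.powersetCard j,
      (A / (3 * B2) * (gset X r b p.1 p.2).card +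
      A / (3 * B3) * ((gset X r b p.1 p.2).card * (yset Y p.1 p.2).card)) <
      ∑ p ∈ (univ : Finset (Fin k → F)) ×ˢ X.powersetCard j, wt X Y r b η C0 p := by
    rw [sum_add_distrib, ← mul_sum, ← mul_sum]
    have e2 : A / (3 * B2) * ∑ p ∈ (univ : Finset (Fin k → F)) ×ˢ X.powersetCard j,
        ((gset X r b p.1 p.2).card : ℝ) ≤ A / 3 := by
      calc _ ≤ A / (3 * B2) * B2 := mul_le_mul_of_nonneg_left h2 (by positivity)
        _ = A / 3 := by field_simp
    have e3 : A / (3 * B3) * ∑ p ∈ (univ : Finset (Fin k → F)) ×ˢ X.powersetCard j,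
        ((gset X r b p.1 p.2).card : ℝ) * ((yset Y p.1 p.2).card : ℝ) ≤ A / 3 := by
      calc _ ≤ A / (3 * B3) * B3 := mul_le_mul_of_nonneg_left h3 (by positivity)
        _ = A / 3 := by field_simp
    linarith
  exact exists_lt_of_sum_lt hlt

/-- the members of `zset` are in `yset` and have the right core -/
theorem zset_spec {X Y : Finset (Fin k → F)} {r b : ℕ} {η C0 : ℝ} (hη : 0 < η) (hC0 : 0 ≤ C0)
    {v : Fin k → F} {W : Finset (Fin k → F)} :
    zset X Y r b η C0 v W ⊆ yset Y v W ∧
      ∀ y ∈ zset X Y r b η C0 v W, IsCore η (fam X r b v y) W := by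
  classical
  have hcore : ∀ y ∈ zset X Y r b η C0 v W, IsCore η (fam X r b v y) W := by
    intro y hy
    unfold zset at hy
    rw [mem_filter] at hy
    have hne : (fam X r b v y).Nonempty := by
      rw [← card_pos]
      have : (0 : ℝ) < (fam X r b v y).card := lt_of_le_of_lt hC0 hy.2.1
      exact_mod_cast this
    have := coreOf_spec hη hne
    rwa [hy.2.2] at this
  refine ⟨?_, hcore⟩
  intro y hy
  obtain ⟨T, hT⟩ := card_pos.mp (hcore y hy).2.1
  have hT' := mem_above.mp hT
  obtain ⟨_, h2, h3⟩ := mem_fam.mp hT'.1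
  unfold zset at hy
  rw [mem_filter] at hy
  unfold yset
  rw [mem_filter]
  exact ⟨hy.1, dot_of_mem_sp h2.1 h3, fun x hx => h3 x (hT'.2 hx)⟩

end Pool.Agent.Lib.MP_9a747a_co_h56
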