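import Mathlib
import Pool.Agent.Lib.MP_9a747a_co_h56.Select

/-!
# The incidence inequality for blocks of size `b`, polynomial form
-/

open Finset

set_option linter.unusedSectionVars false

namespace Pool.Agent.Lib.MP_9a747a_co_h56

/-- the final comparison -/
theorem real_core2 (a b c j : ℕ) (ha : 1 ≤ a) (hj : j + 2 ≤ b) {m q t c2 c3 K2 K3 L : ℝ}
    (hm : 0 < m) (hq : 0 < q) (ht : 0 < t) (ht1 : t ≤ 1) (hc2 : 0 < c2) (hc3 : 0 < c3)
    (hK2 : c2 * m * t ^ b ≤ K2) (hK3 : c3 / (1 + (2 / t) ^ (b - j) / q) ≤ K3)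
    (hprod : K2 * K3 ^ (a - 1) ≤ 2 ^ a * (c * (4 / t) ^ (j * (a - 1))))
    (hL : L = 2 ^ a * c * 8 ^ (b * (a - 1)) * 2 ^ (a - 1) / (c2 * c3 ^ (a - 1))) :
    m * t ^ (b + (b - 2) * (a - 1)) ≤ L ∨ m * q ^ (a - 1) * t ^ (a * b) ≤ L := by
  set s := a - 1 with hs
  have hK2p : 0 < K2 := lt_of_lt_of_le (by positivity) hK2
  have hK3p : 0 < K3 := lt_of_lt_of_le (by positivity) hK3
  set τ : ℝ := (2 / t) ^ (b - j) / q with hτ
  have hτp : 0 < τ := by positivity
  have hden : 0 < c2 * c3 ^ s := by positivity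
  rcases le_total τ 1 with hcase | hcase
  · left
    have h1 : c3 / 2 ≤ K3 := by
      refine le_trans ?_ hK3
      apply div_le_div_of_nonneg_left hc3.le (by positivity)
      linarith
    have h2 : c2 * m * t ^ b * (c3 / 2) ^ s ≤ 2 ^ a * (c * (4 / t) ^ (j * s)) := by
      refine le_trans ?_ hprod
      apply mul_le_mul hK2 (pow_le_pow_left₀ (by positivity) h1 _) (by positivity) hK2p.le
    have h3 : m * t ^ (b + j * s) * (c2 * c3 ^ s) ≤
        2 ^ a * c * 8 ^ (b * s) * 2 ^ s := by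
      have e1 : m * t ^ (b + j * s) * (c2 * c3 ^ s) =
          (c2 * m * t ^ b * (c3 / 2) ^ s) * (t ^ (j * s) * 2 ^ s) := by
        rw [div_pow, pow_add]
        field_simp
      have e2 : 2 ^ a * ((c : ℝ) * (4 / t) ^ (j * s)) * (t ^ (j * s) * 2 ^ s) =
          2 ^ a * c * 4 ^ (j * s) * 2 ^ s := by
        rw [div_pow]
        field_simp
      rw [e1]
      calc _ ≤ 2 ^ a * ((c : ℝ) * (4 / t) ^ (j * s)) * (t ^ (j * s) * 2 ^ s) :=
            mul_le_mul_of_nonneg_right h2 (by positivity)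
        _ = 2 ^ a * c * 4 ^ (j * s) * 2 ^ s := e2
        _ ≤ _ := by
            apply mul_le_mul_of_nonneg_right _ (by positivity)
            apply mul_le_mul_of_nonneg_left _ (by positivity)
            calc (4 : ℝ) ^ (j * s) ≤ 4 ^ (b * s) :=
                  pow_le_pow_right₀ (by norm_num) (Nat.mul_le_mul_right _ (by omega))
              _ ≤ 8 ^ (b * s) := pow_le_pow_left₀ (by norm_num) (by norm_num) _
    rw [hL, le_div_iff₀ hden]
    refine le_trans ?_ h3
    apply mul_le_mul_of_nonneg_right _ hden.le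
    apply mul_le_mul_of_nonneg_left _ hm.le
    apply pow_le_pow_of_le_one ht.le ht1
    have : j * s ≤ (b - 2) * s := Nat.mul_le_mul_right _ (by omega)
    omega
  · right
    have h1 : c3 / (2 * τ) ≤ K3 := by
      refine le_trans ?_ hK3
      apply div_le_div_of_nonneg_left hc3.le (by positivity)
      linarith
    have h2 : c2 * m * t ^ b * (c3 / (2 * τ)) ^ s ≤ 2 ^ a * (c * (4 / t) ^ (j * s)) := by
      refine le_trans ?_ hprod
      apply mul_le_mul hK2 (pow_le_pow_left₀ (by positivity) h1 _) (by positivity) hK2p.le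
    have hab : a * b = b + ((b - j) * s + j * s) := by
      obtain ⟨d, hd⟩ : ∃ d, b = j + d := ⟨b - j, by omega⟩
      have ha' : a = s + 1 := by omega
      have : b - j = d := by omega
      rw [this, ha', hd]
      ring
    have e0 : (c3 / (2 * τ)) ^ s = c3 ^ s * q ^ s * t ^ ((b - j) * s) /
        (2 ^ s * 2 ^ ((b - j) * s)) := by
      have : c3 / (2 * τ) = c3 * q * t ^ (b - j) / (2 * 2 ^ (b - j)) := by
        rw [hτ, div_pow]
        field_simp
      rw [this, div_pow, mul_pow, mul_pow, mul_pow, ← pow_mul, ← pow_mul]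
    have h3 : m * q ^ s * t ^ (a * b) * (c2 * c3 ^ s) ≤ 2 ^ a * c * 8 ^ (b * s) * 2 ^ s := by
      have e1 : m * q ^ s * t ^ (a * b) * (c2 * c3 ^ s) =
          (c2 * m * t ^ b * (c3 / (2 * τ)) ^ s) *
            (t ^ (j * s) * (2 ^ s * 2 ^ ((b - j) * s))) := by
        rw [e0, hab, pow_add, pow_add]
        field_simp
      have e2 : 2 ^ a * ((c : ℝ) * (4 / t) ^ (j * s)) *
          (t ^ (j * s) * (2 ^ s * 2 ^ ((b - j) * s))) =
          2 ^ a * c * (4 ^ (j * s) * 2 ^ ((b - j) * s)) * 2 ^ s := by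
        rw [div_pow]
        field_simp
      rw [e1]
      calc _ ≤ 2 ^ a * ((c : ℝ) * (4 / t) ^ (j * s)) *
            (t ^ (j * s) * (2 ^ s * 2 ^ ((b - j) * s))) :=
            mul_le_mul_of_nonneg_right h2 (by positivity)
        _ = 2 ^ a * c * (4 ^ (j * s) * 2 ^ ((b - j) * s)) * 2 ^ s := e2
        _ ≤ _ := by
            apply mul_le_mul_of_nonneg_right _ (by positivity)
            apply mul_le_mul_of_nonneg_left _ (by positivity)
            calc (4 : ℝ) ^ (j * s) * 2 ^ ((b - j) * s) ≤ 8 ^ (j * s) * 8 ^ ((b - j) * s) := by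
                  apply mul_le_mul (pow_le_pow_left₀ (by norm_num) (by norm_num) _)
                    (pow_le_pow_left₀ (by norm_num) (by norm_num) _) (by positivity)
                    (by positivity)
              _ = 8 ^ (b * s) := by
                  rw [← pow_add]
                  congr 1
                  rw [← Nat.add_mul]
                  congr 1
                  omega
    rw [hL, le_div_iff₀ hden]
    exact h3

/-- binomial coefficients from below -/
theorem choose_lower {d b : ℕ} (h : 2 * b ≤ d) :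
    (d : ℝ) ^ b / (2 ^ b * (b.factorial : ℝ)) ≤ (d.choose b : ℝ) := by
  have h1 := Nat.pow_le_choose (α := ℝ) b d
  refine le_trans ?_ h1
  rw [div_mul_eq_div_div]
  apply div_le_div_of_nonneg_right _ (by positivity)
  rw [← div_pow]
  apply pow_le_pow_left₀ (by positivity)
  rw [Nat.cast_sub (by omega)]
  have : (2 * (b : ℝ)) ≤ d := by exact_mod_cast h
  push_cast
  linarith

/-- power sums -/
theorem power_sums {β : Type*} (Y : Finset β) (d : β → ℝ) {δ : ℝ} (hδ : 0 ≤ δ)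
    (hd : ∀ y ∈ Y, δ ≤ d y) {i b : ℕ} (hi : i ≤ b) :
    δ ^ (b - i) * ∑ y ∈ Y, d y ^ i ≤ ∑ y ∈ Y, d y ^ b := by
  rw [mul_sum]
  apply sum_le_sum
  intro y hy
  have hdy : 0 ≤ d y := hδ.trans (hd y hy)
  calc δ ^ (b - i) * d y ^ i ≤ d y ^ (b - i) * d y ^ i :=
        mul_le_mul_of_nonneg_right (pow_le_pow_left₀ hδ (hd y hy) _) (by positivity)
    _ = d y ^ b := by rw [← pow_add]; congr 1; omega

/-- comparison of the chosen weight with the tuple inequality -/
theorem prod_le {a : ℕ} (ha : 1 ≤ a) {K2 K3 e G H M : ℝ} (hK2pos : 0 < K2) (hK3pos : 0 < K3)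
    (hG0 : 0 ≤ G) (hH0 : 0 ≤ H) (hpw : K2 * G + K3 * (G * H) < e)
    (hineq : e ^ a ≤ H ^ (a - 1) * (M * G ^ a)) : K2 * K3 ^ (a - 1) ≤ M := by
  have he0 : 0 < e := lt_of_le_of_lt (by positivity) hpw
  have heG : K2 * G ≤ e := by
    have : 0 ≤ K3 * (G * H) := by positivity
    linarith
  have heGH : K3 * (G * H) ≤ e := by
    have : 0 ≤ K2 * G := by positivity
    linarith
  have hGH : 0 < G ^ a * H ^ (a - 1) := by
    have h1 : 0 ≤ G ^ a * H ^ (a - 1) := by positivity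
    rcases h1.lt_or_eq with h | h
    · exact h
    · exfalso
      have h2 : e ^ a ≤ 0 := by
        calc e ^ a ≤ _ := hineq
          _ = M * (G ^ a * H ^ (a - 1)) := by ring
          _ = 0 := by rw [← h, mul_zero]
      have h3 : 0 < e ^ a := by positivity
      linarith
  have h1 : K2 * K3 ^ (a - 1) * (G ^ a * H ^ (a - 1)) ≤ e ^ a := by
    have e1 : e ^ a = e * e ^ (a - 1) := by
      rw [← pow_succ']; congr 1; omega
    have e2 : G ^ a = G * G ^ (a - 1) := by
      rw [← pow_succ']; congr 1; omega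
    rw [e1, e2]
    calc K2 * K3 ^ (a - 1) * (G * G ^ (a - 1) * H ^ (a - 1))
        = (K2 * G) * (K3 * (G * H)) ^ (a - 1) := by rw [mul_pow, mul_pow]; ring
      _ ≤ e * e ^ (a - 1) := by
          apply mul_le_mul heG (pow_le_pow_left₀ (by positivity) heGH _) (by positivity) he0.le
  refine le_of_mul_le_mul_right ?_ hGH
  calc _ ≤ _ := h1
    _ ≤ _ := hineq
    _ = _ := by ring

/-- lower bound for the first constant -/
theorem K2_low {b : ℕ} (hb : 1 ≤ b) {η κ c2 m t n D q A A' B2 : ℝ} (hη : 0 < η) (hκ : 0 < κ)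
    (hn : 0 < n) (hm : 0 < m) (hq : 0 < q) (hD : D = t * n)
    (hc2 : c2 = η ^ b * κ / (12 * b * 4 ^ b)) (hB2 : B2 = 2 ^ b * q ^ b * n ^ b)
    (hA' : A' = η ^ b / (2 * b) * A)
    (hA : q ^ b / 2 * (κ * (m * (D / 2) ^ b)) ≤ A) : c2 * m * t ^ b ≤ A' / (3 * B2) := by
  have hbR : (0 : ℝ) < b := by exact_mod_cast hb
  have hB2p : 0 < B2 := by rw [hB2]; positivity
  rw [le_div_iff₀ (by positivity), hB2, hA', hc2]
  have e1 : η ^ b * κ / (12 * b * 4 ^ b) * m * t ^ b * (3 * (2 ^ b * q ^ b * n ^ b)) =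
      η ^ b / (2 * b) * (q ^ b / 2 * (κ * (m * (D / 2) ^ b))) := by
    have : (4 : ℝ) ^ b = 2 ^ b * 2 ^ b := by rw [← mul_pow]; norm_num
    rw [hD, div_pow, mul_pow, this]
    field_simp
    ring
  rw [e1]
  exact mul_le_mul_of_nonneg_left hA (by positivity)

/-- lower bound for the second constant -/
theorem K3_low {b j : ℕ} (hb : 1 ≤ b) {η κ c3 t n D q S Pb Pj A A' B3 : ℝ} (hη : 0 < η)
    (hκ : κ = 1 / (2 ^ (b + 1) * (b.factorial : ℝ)))
    (hn : 0 < n) (ht : 0 < t) (hq : 0 < q) (hS : 0 < S) (hPj0 : 0 ≤ Pj) (hD : D = t * n)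
    (hc3 : c3 = η ^ b * κ / (12 * b))
    (hB3 : B3 = q ^ (b - 1) * n ^ (b - j) * Pj + 2 ^ b * q ^ b * S)
    (hA' : A' = η ^ b / (2 * b) * A) (hA : q ^ b / 2 * S ≤ A)
    (hP : (D / 2) ^ (b - j) * Pj ≤ Pb) (hSP : κ * Pb ≤ S) :
    c3 / (1 + (2 / t) ^ (b - j) / q) ≤ A' / (3 * B3) := by
  have hbR : (0 : ℝ) < b := by exact_mod_cast hb
  have hfac : (1 : ℝ) ≤ b.factorial := by exact_mod_cast Nat.factorial_pos b
  have hκpos : 0 < κ := by rw [hκ]; positivity
  have hB3pos : 0 < B3 := by rw [hB3]; positivity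
  have hc3pos : 0 < c3 := by rw [hc3]; positivity
  have hτ0 : 0 ≤ (2 / t) ^ (b - j) / q := by positivity
  have h1 : q ^ (b - 1) * n ^ (b - j) * Pj ≤ q ^ b * ((2 / t) ^ (b - j) / q) * Pb := by
    have e1 : q ^ (b - 1) * n ^ (b - j) * Pj =
        (q ^ (b - 1) * (2 / t) ^ (b - j)) * ((D / 2) ^ (b - j) * Pj) := by
      have : (2 / t) ^ (b - j) * (D / 2) ^ (b - j) = n ^ (b - j) := by
        rw [← mul_pow]
        congr 1
        rw [hD]
        field_simp
      calc q ^ (b - 1) * n ^ (b - j) * Pj =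
          q ^ (b - 1) * ((2 / t) ^ (b - j) * (D / 2) ^ (b - j)) * Pj := by rw [this]
        _ = _ := by ring
    have e2 : q ^ b * ((2 / t) ^ (b - j) / q) * Pb =
        (q ^ (b - 1) * (2 / t) ^ (b - j)) * Pb := by
      have : q ^ b = q ^ (b - 1) * q := by rw [← pow_succ]; congr 1; omega
      rw [this]
      field_simp
    rw [e1, e2]
    exact mul_le_mul_of_nonneg_left hP (by positivity)
  have h2 : Pb ≤ S / κ := by rw [le_div_iff₀ hκpos]; linarith
  have h3 : (2 : ℝ) ^ b ≤ 1 / κ := by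
    rw [hκ, one_div_one_div, pow_succ]
    have : (0 : ℝ) < 2 ^ b := by positivity
    nlinarith
  have h4 : B3 ≤ q ^ b * S * ((1 + (2 / t) ^ (b - j) / q) / κ) := by
    rw [hB3]
    calc q ^ (b - 1) * n ^ (b - j) * Pj + 2 ^ b * q ^ b * S
        ≤ q ^ b * ((2 / t) ^ (b - j) / q) * Pb + 2 ^ b * q ^ b * S := by linarith
      _ ≤ q ^ b * ((2 / t) ^ (b - j) / q) * (S / κ) + 1 / κ * q ^ b * S := by
          apply add_le_add
          · exact mul_le_mul_of_nonneg_left h2 (by positivity)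
          · apply mul_le_mul_of_nonneg_right _ hS.le
            exact mul_le_mul_of_nonneg_right h3 (by positivity)
      _ = _ := by field_simp; ring
  have h5 : η ^ b / (2 * b) * (q ^ b / 2 * S) ≤ A' := by
    rw [hA']
    exact mul_le_mul_of_nonneg_left hA (by positivity)
  rw [div_le_div_iff₀ (by positivity) (by positivity)]
  calc c3 * (3 * B3) ≤ c3 * (3 * (q ^ b * S * ((1 + (2 / t) ^ (b - j) / q) / κ))) := by
        apply mul_le_mul_of_nonneg_left _ hc3pos.le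
        linarith
    _ = η ^ b / (2 * b) * (q ^ b / 2 * S) * (1 + (2 / t) ^ (b - j) / q) := by
        rw [hc3]
        field_simp
        ring
    _ ≤ A' * (1 + (2 / t) ^ (b - j) / q) := mul_le_mul_of_nonneg_right h5 (by positivity)

theorem core2 (a b r c : ℕ) (ha : 1 ≤ a) (hb : 2 ≤ b) (hr : 1 ≤ r) (hrab : r ≤ a * b) :
    ∃ C : ℝ, 1 ≤ C ∧ ∀ (F : Type) [Field F] [Fintype F] [DecidableEq F] (k : ℕ)
      (X Y : Finset (Fin k → F)), 2 * b ≤ Fintype.card F → 1 ≤ k → (∀ y ∈ Y, y ≠ 0) →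
      (∀ A ⊆ X, A.card = r → (Y.filter (fun y => ∀ x ∈ A, x ⬝ᵥ y = 0)).card ≤ c) →
      ∀ n m q E : ℝ, n = X.card → m = Y.card → q = Fintype.card F →
      E = ∑ y ∈ Y, ((X.filter (fun x => x ⬝ᵥ y = 0)).card : ℝ) →
      C * n ^ (a * b) * m ^ (a * b - 1) < E ^ (a * b) * q ^ (a - 1) →
      C * m ^ b * q ^ (k - 1) < E ^ b * q ^ b →
      C * n ^ (b + (b - 2) * (a - 1)) * m ^ (b + (b - 2) * (a - 1) - 1) <
        E ^ (b + (b - 2) * (a - 1)) → C * m < E → False := by
  have haR : (1 : ℝ) ≤ a := by exact_mod_cast ha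
  have hbR : (2 : ℝ) ≤ b := by exact_mod_cast hb
  have hrR : (1 : ℝ) ≤ r := by exact_mod_cast hr
  obtain ⟨η, hη⟩ : ∃ η : ℝ, η = 1 / (2 * a * b) := ⟨_, rfl⟩
  obtain ⟨κ, hκ⟩ : ∃ κ : ℝ, κ = 1 / (2 ^ (b + 1) * (b.factorial : ℝ)) := ⟨_, rfl⟩
  obtain ⟨C0, hC0⟩ : ∃ C0 : ℝ, C0 = r * (2 * a * b) ^ b := ⟨_, rfl⟩
  obtain ⟨c2, hc2⟩ : ∃ c2 : ℝ, c2 = η ^ b * κ / (12 * b * 4 ^ b) := ⟨_, rfl⟩
  obtain ⟨c3, hc3⟩ : ∃ c3 : ℝ, c3 = η ^ b * κ / (12 * b) := ⟨_, rfl⟩
  obtain ⟨L, hL⟩ : ∃ L : ℝ, L = 2 ^ a * c * 8 ^ (b * (a - 1)) * 2 ^ (a - 1) /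
    (c2 * c3 ^ (a - 1)) := ⟨_, rfl⟩
  have hηpos : 0 < η := by rw [hη]; positivity
  have hκpos : 0 < κ := by rw [hκ]; positivity
  have hC0pos : 0 < C0 := by rw [hC0]; positivity
  have hc2pos : 0 < c2 := by rw [hc2]; positivity
  have hc3pos : 0 < c3 := by rw [hc3]; positivity
  have hL0 : 0 ≤ L := by rw [hL]; positivity
  have hfac : (1 : ℝ) ≤ b.factorial := by exact_mod_cast Nat.factorial_pos b
  refine ⟨1 + 4 * r + 4 * b + 2 ^ (b + 3) * b.factorial * r + 2 ^ (2 * b + 2) * b.factorial * c +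
    4 * 2 ^ b * C0 / κ + L, ?_, ?_⟩
  · have : 0 ≤ 4 * (r : ℝ) + 4 * b + 2 ^ (b + 3) * b.factorial * r +
      2 ^ (2 * b + 2) * b.factorial * c + 4 * 2 ^ b * C0 / κ := by positivity
    linarith
  intro F _ _ _ k X Y hq hk hY hK n m q E hn hm hqe hE g1 g2 g3 g4
  obtain ⟨C, hC⟩ : ∃ C : ℝ, C = 1 + 4 * r + 4 * b + 2 ^ (b + 3) * b.factorial * r +
    2 ^ (2 * b + 2) * b.factorial * c + 4 * 2 ^ b * C0 / κ + L := ⟨_, rfl⟩
  rw [← hC] at g1 g2 g3 g4
  have p1 : (0 : ℝ) ≤ 2 ^ (b + 3) * b.factorial * r := by positivity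
  have p2 : (0 : ℝ) ≤ 2 ^ (2 * b + 2) * b.factorial * c := by positivity
  have p3 : (0 : ℝ) ≤ 4 * 2 ^ b * C0 / κ := by positivity
  have hC1 : 1 ≤ C := by linarith
  have hCr : 4 * (r : ℝ) ≤ C := by linarith
  have hCb : 4 * (b : ℝ) ≤ C := by linarith
  have hCf : 2 ^ (b + 3) * (b.factorial : ℝ) * r ≤ C := by linarith
  have hCc : 2 ^ (2 * b + 2) * (b.factorial : ℝ) * c ≤ C := by linarith
  have hCk : 4 * 2 ^ b * C0 / κ ≤ C := by linarith
  have hCL : L ≤ C := by linarith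
  clear hC p1 p2 p3
  have hn0 : 0 ≤ n := by rw [hn]; positivity
  have hm0 : 0 ≤ m := by rw [hm]; positivity
  have hq0 : 0 < q := by
    rw [hqe]
    have : 0 < Fintype.card F := Fintype.card_pos
    exact_mod_cast this
  have hE0 : 0 < E := lt_of_le_of_lt (by positivity) g4
  have hmpos : 0 < m := by
    rcases hm0.lt_or_eq with h | h
    · exact h
    · exfalso
      have hYe : Y = ∅ := by
        rw [← card_eq_zero]
        have : (Y.card : ℝ) = 0 := by rw [← hm, ← h]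
        exact_mod_cast this
      rw [hYe] at hE
      simp at hE
      linarith
  have hnpos : 0 < n := by
    rcases hn0.lt_or_eq with h | h
    · exact h
    · exfalso
      have hXe : X = ∅ := by
        rw [← card_eq_zero]
        have : (X.card : ℝ) = 0 := by rw [← hn, ← h]
        exact_mod_cast this
      rw [hXe] at hE
      simp at hE
      linarith
  -- the density
  obtain ⟨D, hD⟩ : ∃ D : ℝ, D = E / m := ⟨_, rfl⟩
  have hDpos : 0 < D := by rw [hD]; positivity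
  have hDC : C < D := by rw [hD, lt_div_iff₀ hmpos]; exact g4
  obtain ⟨t, ht⟩ : ∃ t : ℝ, t = D / n := ⟨_, rfl⟩
  have htpos : 0 < t := by rw [ht]; positivity
  have hDt : D = t * n := by rw [ht]; field_simp
  have hEt : E = t * n * m := by rw [← hDt, hD]; field_simp
  have hEle : E ≤ n * m := by
    rw [hE]
    calc ∑ y ∈ Y, ((X.filter (fun x => x ⬝ᵥ y = 0)).card : ℝ) ≤ ∑ _y ∈ Y, n := by
          apply sum_le_sum
          intro y _
          rw [hn]
          exact_mod_cast card_filter_le _ _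
      _ = n * m := by rw [sum_const, nsmul_eq_mul, hm]; ring
  have ht1 : t ≤ 1 := by
    have : t * (n * m) ≤ 1 * (n * m) := by rw [one_mul]; linarith
    exact le_of_mul_le_mul_right this (by positivity)
  -- consequences of the assumptions
  have f3 : C < m * t ^ (b + (b - 2) * (a - 1)) := by
    have e : b + (b - 2) * (a - 1) = (b + (b - 2) * (a - 1) - 1) + 1 := by omega
    have hp : 0 < n ^ (b + (b - 2) * (a - 1)) * m ^ (b + (b - 2) * (a - 1) - 1) := by positivity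
    have e2 : E ^ (b + (b - 2) * (a - 1)) = m * t ^ (b + (b - 2) * (a - 1)) *
        (n ^ (b + (b - 2) * (a - 1)) * m ^ (b + (b - 2) * (a - 1) - 1)) := by
      rw [hEt, mul_pow, mul_pow]
      have : m ^ (b + (b - 2) * (a - 1)) = m * m ^ (b + (b - 2) * (a - 1) - 1) := by
        rw [← pow_succ', ← e]
      rw [this]; ring
    rw [e2, mul_assoc] at g3
    exact lt_of_mul_lt_mul_right g3 hp.le
  have f1 : C < m * q ^ (a - 1) * t ^ (a * b) := by
    have hab1 : 1 ≤ a * b := by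
      calc 1 = 1 * 1 := rfl
        _ ≤ a * b := Nat.mul_le_mul ha (by omega)
    have e : a * b = (a * b - 1) + 1 := by omega
    have hp : 0 < n ^ (a * b) * m ^ (a * b - 1) := by positivity
    have e2 : E ^ (a * b) * q ^ (a - 1) = m * q ^ (a - 1) * t ^ (a * b) *
        (n ^ (a * b) * m ^ (a * b - 1)) := by
      rw [hEt, mul_pow, mul_pow]
      have : m ^ (a * b) = m * m ^ (a * b - 1) := by rw [← pow_succ', ← e]
      rw [this]; ring
    rw [e2, mul_assoc] at g1
    exact lt_of_mul_lt_mul_right g1 hp.le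
  have f2 : C * q ^ (k - 1) < D ^ b * q ^ b := by
    have hp : 0 < m ^ b := by positivity
    have e2 : E ^ b * q ^ b = D ^ b * q ^ b * m ^ b := by
      rw [hEt, ← hDt, mul_pow]; ring
    have e3 : C * m ^ b * q ^ (k - 1) = C * q ^ (k - 1) * m ^ b := by ring
    rw [e2, e3] at g2
    exact lt_of_mul_lt_mul_right g2 hp.le
  have f0 : 2 ^ (2 * b + 2) * (b.factorial : ℝ) * c ≤ m * t ^ b := by
    refine hCc.trans (f3.le.trans ?_)
    apply mul_le_mul_of_nonneg_left _ hmpos.le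
    exact pow_le_pow_of_le_one htpos.le ht1 (by omega)
  -- trimming
  obtain ⟨Z, hZ⟩ : ∃ Z : Finset (Fin k → F), Z = Y.filter (fun y => D / 2 ≤ ((on X y).card : ℝ)) :=
    ⟨_, rfl⟩
  have hZY : Z ⊆ Y := by rw [hZ]; exact filter_subset _ _
  have hZd : ∀ y ∈ Z, D / 2 ≤ ((on X y).card : ℝ) := by
    intro y hy; rw [hZ] at hy; exact (mem_filter.mp hy).2
  have hZm : (Z.card : ℝ) ≤ m := by rw [hm]; exact_mod_cast card_le_card hZY
  have hZ1 : E / 2 ≤ ∑ y ∈ Z, ((on X y).card : ℝ) := by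
    have h1 : ∑ y ∈ Y, ((on X y).card : ℝ) = E := by rw [hE]; rfl
    have h2 : ∑ y ∈ Y, ((on X y).card : ℝ) = ∑ y ∈ Z, ((on X y).card : ℝ) +
        ∑ y ∈ Y.filter (fun y => ¬ D / 2 ≤ ((on X y).card : ℝ)), ((on X y).card : ℝ) := by
      rw [hZ, sum_filter_add_sum_filter_not]
    have h3 : ∑ y ∈ Y.filter (fun y => ¬ D / 2 ≤ ((on X y).card : ℝ)), ((on X y).card : ℝ) ≤
        E / 2 := by
      calc _ ≤ ∑ _y ∈ Y.filter (fun y => ¬ D / 2 ≤ ((on X y).card : ℝ)), D / 2 := by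
            apply sum_le_sum
            intro y hy
            exact (not_le.mp (mem_filter.mp hy).2).le
        _ = ((Y.filter (fun y => ¬ D / 2 ≤ ((on X y).card : ℝ))).card : ℝ) * (D / 2) := by
            rw [sum_const, nsmul_eq_mul]
        _ ≤ m * (D / 2) := by
            apply mul_le_mul_of_nonneg_right _ (by positivity)
            rw [hm]
            exact_mod_cast card_filter_le _ _
        _ = E / 2 := by rw [hD]; field_simp
    linarith
  have hKZ : ∀ A ⊆ X, A.card = r → (nb Z A).card ≤ c := by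
    intro A hA hAr
    refine le_trans (card_le_card ?_) (hK A hA hAr)
    intro y hy
    rw [mem_nb] at hy
    rw [mem_filter]
    exact ⟨hZY hy.1, hy.2⟩
  -- power sums
  obtain ⟨P, hP⟩ : ∃ P : ℕ → ℝ, P = fun i => ∑ y ∈ Z, ((on X y).card : ℝ) ^ i := ⟨_, rfl⟩
  have hPpow : ∀ i, i ≤ b → (D / 2) ^ (b - i) * P i ≤ P b := by
    intro i hi
    rw [hP]
    exact power_sums Z (fun y => ((on X y).card : ℝ)) (by positivity) hZd hi
  have hPb : m * (D / 2) ^ b ≤ P b := by
    have h1 := hPpow 1 (by omega)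
    have h2 : P 1 = ∑ y ∈ Z, ((on X y).card : ℝ) := by rw [hP]; simp
    rw [h2] at h1
    have h3 : E / 2 = m * (D / 2) := by rw [hD]; field_simp
    calc m * (D / 2) ^ b = (D / 2) ^ (b - 1) * (m * (D / 2)) := by
          have : (D / 2) ^ b = (D / 2) ^ (b - 1) * (D / 2) := by
            rw [← pow_succ]; congr 1; omega
          rw [this]; ring
      _ ≤ (D / 2) ^ (b - 1) * ∑ y ∈ Z, ((on X y).card : ℝ) := by
          apply mul_le_mul_of_nonneg_left _ (by positivity)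
          rw [← h3]; exact hZ1
      _ ≤ P b := h1
  have hPbpos : 0 < P b := lt_of_lt_of_le (by positivity) hPb
  -- good sets
  obtain ⟨S, hS⟩ : ∃ S : ℝ, S = ∑ T ∈ good X r b, ((nb Z T).card : ℝ) := ⟨_, rfl⟩
  have hSlow : κ * P b ≤ S := by
    have h1 := good_lower X Z (b := b) hKZ
    rw [← hS, ← hn] at h1
    have h2 : P b / (2 ^ b * b.factorial) ≤
        ∑ y ∈ Z, ((((on X y).card.choose b : ℕ)) : ℝ) := by
      rw [hP]
      simp only
      rw [sum_div]
      apply sum_le_sum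
      intro y hy
      apply choose_lower
      have h3 := hZd y hy
      have h4 : (2 * b : ℝ) ≤ (on X y).card := by linarith
      exact_mod_cast h4
    have h3 : (r : ℝ) * ∑ y ∈ Z, ((on X y).card : ℝ) ^ (b - 1) ≤
        P b / (2 ^ (b + 2) * b.factorial) := by
      have h4 := hPpow (b - 1) (by omega)
      have e : b - (b - 1) = 1 := by omega
      rw [e, pow_one] at h4
      have e2 : ∑ y ∈ Z, ((on X y).card : ℝ) ^ (b - 1) = P (b - 1) := by rw [hP]
      rw [e2, le_div_iff₀ (by positivity)]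
      have hPn : 0 ≤ P (b - 1) := by rw [hP]; positivity
      have h5 : (r : ℝ) * (2 ^ (b + 2) * b.factorial) ≤ D / 2 := by
        have : 2 ^ (b + 3) * (b.factorial : ℝ) * r = 2 * (r * (2 ^ (b + 2) * b.factorial)) := by
          rw [pow_succ]; ring
        rw [this] at hCf
        linarith
      calc (r : ℝ) * P (b - 1) * (2 ^ (b + 2) * b.factorial) =
            r * (2 ^ (b + 2) * b.factorial) * P (b - 1) := by ring
        _ ≤ D / 2 * P (b - 1) := mul_le_mul_of_nonneg_right h5 hPn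
        _ ≤ P b := h4
    have h4 : (c : ℝ) * n ^ b ≤ P b / (2 ^ (b + 2) * b.factorial) := by
      rw [le_div_iff₀ (by positivity)]
      refine le_trans ?_ hPb
      have h5 := mul_le_mul_of_nonneg_right f0 (show 0 ≤ n ^ b / 2 ^ b by positivity)
      have e1 : m * t ^ b * (n ^ b / 2 ^ b) = m * (D / 2) ^ b := by
        rw [hDt, div_pow, mul_pow]; ring
      have e2 : 2 ^ (2 * b + 2) * (b.factorial : ℝ) * c * (n ^ b / 2 ^ b) =
          c * n ^ b * (2 ^ (b + 2) * b.factorial) := by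
        have : (2 : ℝ) ^ (2 * b + 2) = 2 ^ (b + 2) * 2 ^ b := by rw [← pow_add]; congr 1; omega
        rw [this]
        field_simp
      rw [e1, e2] at h5
      exact h5
    have h5 : κ * P b = P b / (2 ^ b * b.factorial) - P b / (2 ^ (b + 2) * b.factorial) -
        P b / (2 ^ (b + 2) * b.factorial) := by
      rw [hκ, pow_succ, pow_succ, pow_succ]
      field_simp
      ring
    rw [h5]
    linarith
  have hSpos : 0 < S := lt_of_lt_of_le (by positivity) hSlow
  -- the total weight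
  obtain ⟨A, hA⟩ : ∃ A : ℝ, A = ∑ v, ∑ y ∈ Z, ((fam X r b v y).card : ℝ) := ⟨_, rfl⟩
  have hAlow : q ^ b / 2 * S ≤ A := by
    rw [hA, hS, hqe]
    exact sum_fam X Z (by omega) hq
  have hApos : 0 < A := lt_of_lt_of_le (by positivity) hAlow
  have hbig : 2 * (C0 * (Z.card * q ^ (k - 1))) ≤ A := by
    have h1 : 2 * (C0 * (Z.card * q ^ (k - 1))) ≤ 2 * (C0 * (m * q ^ (k - 1))) := by
      apply mul_le_mul_of_nonneg_left _ (by norm_num)
      apply mul_le_mul_of_nonneg_left _ hC0pos.le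
      exact mul_le_mul_of_nonneg_right hZm (by positivity)
    have h2 : 4 * 2 ^ b * C0 / κ * q ^ (k - 1) ≤ D ^ b * q ^ b :=
      (mul_le_mul_of_nonneg_right hCk (by positivity)).trans f2.le
    have h3 : 2 * (C0 * (m * q ^ (k - 1))) ≤ q ^ b / 2 * (κ * (m * (D / 2) ^ b)) := by
      have e1 : q ^ b / 2 * (κ * (m * (D / 2) ^ b)) =
          (D ^ b * q ^ b) * (κ * m / (2 * 2 ^ b)) := by
        rw [div_pow]; field_simp
      have e2 : 2 * (C0 * (m * q ^ (k - 1))) =
          (4 * 2 ^ b * C0 / κ * q ^ (k - 1)) * (κ * m / (2 * 2 ^ b)) := by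
        field_simp
        ring
      rw [e1, e2]
      exact mul_le_mul_of_nonneg_right h2 (by positivity)
    calc _ ≤ _ := h1
      _ ≤ _ := h3
      _ ≤ q ^ b / 2 * (κ * P b) := by
          apply mul_le_mul_of_nonneg_left _ (by positivity)
          exact mul_le_mul_of_nonneg_left hPb hκpos.le
      _ ≤ q ^ b / 2 * S := mul_le_mul_of_nonneg_left hSlow (by positivity)
      _ ≤ A := hAlow
  obtain ⟨j, hj, hjA⟩ := exists_level (X := X) ha hb hr hη hC0 hA
    (fun y hy => hY y (hZY hy)) hk (by rw [← hqe]; exact hbig)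
  obtain ⟨A', hA'⟩ : ∃ A' : ℝ, A' = η ^ b / (2 * b) * A := ⟨_, rfl⟩
  rw [← hA'] at hjA
  have hA'pos : 0 < A' := by rw [hA']; positivity
  obtain ⟨B2, hB2⟩ : ∃ B2 : ℝ, B2 = 2 ^ b * q ^ b * n ^ b := ⟨_, rfl⟩
  obtain ⟨B3, hB3⟩ : ∃ B3 : ℝ, B3 = q ^ (b - 1) * n ^ (b - j) * P j + 2 ^ b * q ^ b * S :=
    ⟨_, rfl⟩
  have hPj : 0 ≤ P j := by rw [hP]; positivity
  have hB2pos : 0 < B2 := by rw [hB2]; positivity
  have hB3pos : 0 < B3 := by rw [hB3]; positivity
  have hs2 := sum_gset X r b j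
  rw [← hqe, ← hn, ← hB2] at hs2
  have hs3 := sum_gset_yset X Z (r := r) (b := b) (j := j) (by omega)
  have e3 : ∑ y ∈ Z, ((on X y).card : ℝ) ^ j = P j := by rw [hP]
  rw [← hqe, ← hn, e3, ← hS, ← hB3] at hs3
  obtain ⟨p, hp, hpw⟩ := exists_pair hA'pos hB2pos hB3pos hjA hs2 hs3
  have hpj : p.2 ⊆ X ∧ p.2.card = j := mem_powersetCard.mp (mem_product.mp hp).2
  -- the tuple inequality
  have hρ1 : 1 ≤ 4 / t := by rw [le_div_iff₀ htpos]; linarith
  have hdeg : ∀ y ∈ Z, (X.card : ℝ) ≤ 4 / t * (((on X y).card : ℝ) - r) := by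
    intro y hy
    have h1 := hZd y hy
    have h2 : D / 4 ≤ ((on X y).card : ℝ) - r := by linarith
    calc (X.card : ℝ) = 4 / t * (D / 4) := by rw [← hn, hDt]; field_simp
      _ ≤ _ := mul_le_mul_of_nonneg_left h2 (by positivity)
  obtain ⟨hz1, hz2⟩ := zset_spec (X := X) (Y := Z) (r := r) (b := b) (v := p.1) (W := p.2)
    hηpos hC0pos.le
  have hineq := core_ineq (v := p.1) (W := p.2) ha (by omega : 1 ≤ b) hrab hKZ hρ1 hdeg hpj.1
    (by omega) hz1 (by intro y hy; rw [← hη]; exact hz2 y hy)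
  have hwt : wt X Z r b η C0 p = ∑ y ∈ zset X Z r b η C0 p.1 p.2,
    ((above (fam X r b p.1 y) p.2).card : ℝ) := rfl
  rw [← hwt, hpj.2] at hineq
  obtain ⟨e, he⟩ : ∃ e : ℝ, e = wt X Z r b η C0 p := ⟨_, rfl⟩
  obtain ⟨G, hG⟩ : ∃ G : ℝ, G = ((gset X r b p.1 p.2).card : ℝ) := ⟨_, rfl⟩
  obtain ⟨H, hH⟩ : ∃ H : ℝ, H = ((yset Z p.1 p.2).card : ℝ) := ⟨_, rfl⟩
  rw [← he, ← hG, ← hH] at hineq hpw
  have hG0 : 0 ≤ G := hG ▸ Nat.cast_nonneg _
  have hH0 : 0 ≤ H := hH ▸ Nat.cast_nonneg _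
  have hprod := prod_le ha (div_pos hA'pos (mul_pos three_pos hB2pos))
    (div_pos hA'pos (mul_pos three_pos hB3pos)) hG0 hH0 hpw hineq
  have hprod' : A' / (3 * B2) * (A' / (3 * B3)) ^ (a - 1) ≤
      2 ^ a * (c * (4 / t) ^ (j * (a - 1))) := hprod
  have hAP : q ^ b / 2 * (κ * (m * (D / 2) ^ b)) ≤ A :=
    (mul_le_mul_of_nonneg_left ((mul_le_mul_of_nonneg_left hPb hκpos.le).trans hSlow)
      (by positivity)).trans hAlow
  have hK2low : c2 * m * t ^ b ≤ A' / (3 * B2) :=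
    K2_low (by omega) hηpos hκpos hnpos hmpos hq0 hDt hc2 hB2 hA' hAP
  have hK3low : c3 / (1 + (2 / t) ^ (b - j) / q) ≤ A' / (3 * B3) :=
    K3_low (by omega) hηpos hκ hnpos htpos hq0 hSpos hPj hDt hc3 hB3 hA' hAlow
      (hPpow j (by omega)) hSlow
  rcases real_core2 a b c j ha hj hmpos hq0 htpos ht1 hc2pos hc3pos hK2low hK3low hprod' hL with
    h | h
  · linarith
  · linarith

end Pool.Agent.Lib.MP_9a747a_co_h56
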