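import Mathlib
import Pool.Agent.Lib.MP_9a747a_co_h56.Core

/-!
# The Kővári–Sós–Turán bound for point-hyperplane incidences
-/

open Finset

namespace Pool.Agent.Lib.MP_9a747a_co_h56

/-- the Kővári–Sós–Turán bound -/
theorem kst (r c : ℕ) (hr : 1 ≤ r) (F : Type) [Field F] [Fintype F] [DecidableEq F] (k : ℕ)
    (X Y : Finset (Fin k → F))
    (hK : ∀ A ⊆ X, A.card = r → (Y.filter (fun y => ∀ x ∈ A, x ⬝ᵥ y = 0)).card ≤ c) :
    (∑ y ∈ Y, ((X.filter (fun x => x ⬝ᵥ y = 0)).card : ℝ)) ≤
      2 * (c + 1) * (X.card * (Y.card : ℝ) ^ (1 - 1 / (r : ℝ))) + 2 * r * Y.card := by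
  classical
  have h := conflict_sum X Y (fun x y => x ⬝ᵥ y = 0) (fun x x' => x = x') 1 c r hr ?_ ?_
  · set E : ℝ := ∑ y ∈ Y, ((X.filter (fun x => x ⬝ᵥ y = 0)).card : ℝ) with hE
    set n : ℝ := (X.card : ℝ) with hn
    set m : ℝ := (Y.card : ℝ) with hm
    have hn0 : 0 ≤ n := by positivity
    have hm0 : 0 ≤ m := by positivity
    have hr0 : (r : ℝ) ≠ 0 := by
      have : r ≠ 0 := by omega
      exact_mod_cast this
    have hpow : (m ^ (1 - 1 / (r : ℝ))) ^ r = m ^ (r - 1) := by
      rw [← Real.rpow_natCast, ← Real.rpow_mul hm0]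
      have : (1 - 1 / (r : ℝ)) * r = ((r - 1 : ℕ) : ℝ) := by
        rw [Nat.cast_sub hr]
        field_simp
        simp
      rw [this, Real.rpow_natCast]
    have hu : 0 ≤ 2 * (c + 1) * (n * m ^ (1 - 1 / (r : ℝ))) := by positivity
    have hv : 0 ≤ 2 * r * m := by positivity
    have hE2 : E ^ r ≤ (2 * (c + 1) * (n * m ^ (1 - 1 / (r : ℝ))) + 2 * r * m) ^ r := by
      calc E ^ r ≤ m ^ (r - 1) * (2 ^ r * c * n ^ r + (2 * r * (1 : ℕ) : ℝ) ^ r * m) := h
        _ = 2 ^ r * c * n ^ r * m ^ (r - 1) + (2 * r) ^ r * (m ^ (r - 1) * m) := by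
            push_cast; ring
        _ = 2 ^ r * c * n ^ r * m ^ (r - 1) + (2 * r * m) ^ r := by
            have : m ^ (r - 1) * m = m ^ r := by rw [← pow_succ]; congr 1; omega
            rw [this, mul_pow (2 * (r : ℝ)) m r]
        _ ≤ (2 * (c + 1) * (n * m ^ (1 - 1 / (r : ℝ)))) ^ r + (2 * r * m) ^ r := by
            apply add_le_add_left
            rw [mul_pow, mul_pow, mul_pow, hpow]
            have h1 : (c : ℝ) ≤ (c + 1) ^ r := by
              calc (c : ℝ) ≤ c + 1 := by linarith
                _ = (c + 1) ^ 1 := (pow_one _).symm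
                _ ≤ (c + 1) ^ r := pow_le_pow_right₀ (by
                    have : (0 : ℝ) ≤ c := by positivity
                    linarith) hr
            have h2 : (0 : ℝ) ≤ 2 ^ r * (n ^ r * m ^ (r - 1)) := by positivity
            calc 2 ^ r * (c : ℝ) * n ^ r * m ^ (r - 1) = c * (2 ^ r * (n ^ r * m ^ (r - 1))) := by
                  ring
              _ ≤ (c + 1) ^ r * (2 ^ r * (n ^ r * m ^ (r - 1))) :=
                  mul_le_mul_of_nonneg_right h1 h2
              _ = _ := by ring
        _ ≤ _ := pow_add_pow_le hu hv (by omega)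
    exact le_of_pow_le_pow_left₀ (by omega) (by positivity) hE2
  · intro w' _ T _ hT
    calc T.card ≤ ({w'} : Finset (Fin k → F)).card := card_le_card (by
          intro w hw
          rw [mem_singleton]; exact hT w hw)
      _ = 1 := card_singleton _
  · intro f hf hd
    have hinj : Function.Injective f := by
      intro i j hij
      by_contra hne
      rcases lt_or_gt_of_ne hne with h | h
      · exact hd i j h hij
      · exact hd j i h hij.symm
    refine le_trans (card_le_card ?_) (hK (univ.image f) ?_ ?_)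
    · intro y hy
      simp only [mem_filter, mem_image, mem_univ, true_and, forall_exists_index,
        forall_apply_eq_imp_iff] at hy ⊢
      exact hy
    · intro x hx
      rw [mem_image] at hx
      obtain ⟨i, _, rfl⟩ := hx
      exact hf i
    · rw [card_image_of_injective _ hinj, card_univ, Fintype.card_fin]

end Pool.Agent.Lib.MP_9a747a_co_h56
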